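import Pool.Agent.Q148.TD.Er

/-! The comparison of the divisor sum with its expected value. -/

set_option autoImplicit false

namespace Pool.Agent.Q148.TD

open Finset Filter
open Pool.Agent.Q148.BA (PP mem_PP PP_mono gh Seq)
open Pool.Agent.Y882.EHF (S)
open Pool.Agent.TH926.EH (E pc)
open Pool.Agent.H442R2.EHI (piAP)

/-- the values below `t` are attained on an interval of length at most `2 t` -/
def Unim (N : ℕ) (v : ℕ → ℕ) : Prop :=
  ∀ t : ℕ, ∃ A B : ℕ, A ≤ B ∧ B ≤ A + 2 * t ∧ ∀ p : ℕ, p.Prime → p ≤ N → (v p < t ↔ A < p ∧ p ≤ B)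

theorem DD_nn (N K m a : ℕ) : 0 ≤ DD N K m a := by
  unfold DD
  have : 0 ≤ ∑ b ∈ Icc 1 K, E (b * N / K) m a := sum_nonneg fun x _ => abs_nonneg _
  positivity

/-- counting in three initial segments -/
theorem three (N y A B : ℕ) (v : ℕ → ℕ) (t : ℕ) (hAB : A ≤ B) (hy : y ≤ N)
    (hv : ∀ p : ℕ, p.Prime → p ≤ N → (v p < t ↔ A < p ∧ p ≤ B)) (P : ℕ → Prop) [DecidablePred P] :
    (((PP y).filter (fun p => P p ∧ t ≤ v p)).card : ℝ) = (((PP y).filter P).card : ℝ) -
      (((PP (min y B)).filter P).card : ℝ) + (((PP (min y A)).filter P).card : ℝ) := by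
  have h1 : (PP y).filter P = (PP y).filter (fun p => P p ∧ t ≤ v p) ∪
      ((PP (min y B)).filter P \ (PP (min y A)).filter P) := by
    ext p
    rw [mem_union, mem_filter, mem_filter, Finset.mem_sdiff, mem_filter, mem_filter, mem_PP, mem_PP, mem_PP]
    constructor
    · rintro ⟨⟨h2, h3⟩, h4⟩
      rcases Nat.lt_or_ge (v p) t with h5 | h5
      · right
        have h6 := (hv p h2 (h3.trans hy)).1 h5
        refine ⟨⟨⟨h2, le_min h3 h6.2⟩, h4⟩, ?_⟩
        rintro ⟨⟨_, h7⟩, _⟩
        have := h7.trans (min_le_right _ _)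
        omega
      · exact Or.inl ⟨⟨h2, h3⟩, h4, h5⟩
    · rintro (⟨h2, h3, _⟩ | ⟨⟨⟨h2, h3⟩, h4⟩, _⟩)
      · exact ⟨h2, h3⟩
      · exact ⟨⟨h2, h3.trans (min_le_left _ _)⟩, h4⟩
  have h2 : Disjoint ((PP y).filter (fun p => P p ∧ t ≤ v p))
      ((PP (min y B)).filter P \ (PP (min y A)).filter P) := by
    rw [disjoint_left]
    intro p hp hp'
    rw [mem_filter, mem_PP] at hp
    rw [Finset.mem_sdiff, mem_filter, mem_filter, mem_PP, mem_PP] at hp'
    obtain ⟨⟨h3, h4⟩, h5, h6⟩ := hp
    obtain ⟨⟨⟨_, h7⟩, h8⟩, h9⟩ := hp'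
    have h10 : A < p := by
      by_contra hcon
      exact h9 ⟨⟨h3, le_min h4 (not_lt.1 hcon)⟩, h8⟩
    have := (hv p h3 (h4.trans hy)).2 ⟨h10, h7.trans (min_le_right _ _)⟩
    omega
  have h3 : (PP (min y A)).filter P ⊆ (PP (min y B)).filter P :=
    filter_subset_filter _ (PP_mono (min_le_min le_rfl hAB))
  have h4 := card_sdiff_add_card_eq_card h3
  have h5 := congrArg Finset.card h1
  rw [card_union_of_disjoint h2] at h5
  have h4' : (((PP (min y B)).filter P \ (PP (min y A)).filter P).card : ℝ) + (((PP (min y A)).filter P).card : ℝ) =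
      (((PP (min y B)).filter P).card : ℝ) := by exact_mod_cast h4
  have h5' : (((PP y).filter P).card : ℝ) = (((PP y).filter (fun p => P p ∧ t ≤ v p)).card : ℝ) +
      (((PP (min y B)).filter P \ (PP (min y A)).filter P).card : ℝ) := by exact_mod_cast h5
  linarith

/-- one modulus -/
theorem one_mod (N K A₀ h y : ℕ) (v c : ℕ → ℕ) (H : Seq N A₀ h v c) (HU : Unim N v) (hK : 1 ≤ K) (hN : 1 ≤ N)
    (hy : y ≤ N) (m t : ℕ) (hm : 1 ≤ m) :
    |(((PP y).filter (fun p => m ∣ v p ∧ t ≤ v p)).card : ℝ) - gh h m * (((PP y).filter (fun p => t ≤ v p)).card : ℝ)| ≤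
      if m.Coprime h then 3 * DD N K m (c m) else 1 := by
  obtain ⟨A, B, hAB, _, hv⟩ := HU t
  split_ifs with hc
  · have h1 := three N y A B v t hAB hy hv (fun p => m ∣ v p)
    have h2 := three N y A B v t hAB hy hv (fun _ => True)
    have e1 : ∀ x : ℕ, x ≤ N → (((PP x).filter (fun p => m ∣ v p)).card : ℝ) = piAP x m (c m) := by
      intro x hx
      unfold piAP
      congr 2
      ext p
      rw [mem_filter, mem_PP, mem_filter, mem_Icc]
      constructor
      · rintro ⟨⟨h3, h4⟩, h5⟩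
        exact ⟨⟨h3.one_le, h4⟩, h3, (H.iff m hm hc p h3 (h4.trans hx)).1 h5⟩
      · rintro ⟨⟨h3, h4⟩, h5, h6⟩
        exact ⟨⟨h5, h4⟩, (H.iff m hm hc p h5 (h4.trans hx)).2 h6⟩
    have e2 : ∀ x : ℕ, (((PP x).filter (fun _ => True)).card : ℝ) = pc x := by
      intro x
      rw [filter_true]
      rfl
    have e3 : (PP y).filter (fun p => t ≤ v p) = (PP y).filter (fun p => True ∧ t ≤ v p) := by
      apply filter_congr
      intro p _
      tauto
    have hyB : min y B ≤ N := (min_le_left _ _).trans hy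
    have hyA : min y A ≤ N := (min_le_left _ _).trans hy
    rw [h1, e3, h2, e1 _ hy, e1 _ hyB, e1 _ hyA, e2, e2, e2]
    have hg : gh h m = 1 / (m.totient : ℝ) := by
      unfold gh
      rw [if_pos hc]
    rw [hg]
    have k1 := E_grid N K m (c m) y hK hN hm hy
    have k2 := E_grid N K m (c m) (min y B) hK hN hm hyB
    have k3 := E_grid N K m (c m) (min y A) hK hN hm hyA
    unfold E at k1 k2 k3
    have e : piAP y m (c m) - piAP (min y B) m (c m) + piAP (min y A) m (c m) -
        1 / (m.totient : ℝ) * (pc y - pc (min y B) + pc (min y A)) =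
        (piAP y m (c m) - pc y / m.totient) - (piAP (min y B) m (c m) - pc (min y B) / m.totient) +
        (piAP (min y A) m (c m) - pc (min y A) / m.totient) := by ring
    rw [e]
    have a1 := abs_add_le ((piAP y m (c m) - pc y / m.totient) - (piAP (min y B) m (c m) - pc (min y B) / m.totient))
      (piAP (min y A) m (c m) - pc (min y A) / m.totient)
    have a2 := abs_sub (piAP y m (c m) - pc y / m.totient) (piAP (min y B) m (c m) - pc (min y B) / m.totient)
    linarith
  · have hg : gh h m = 0 := by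
      unfold gh
      rw [if_neg hc]
    rw [hg, zero_mul, sub_zero, abs_of_nonneg (Nat.cast_nonneg _)]
    have h1 : ((PP y).filter (fun p => m ∣ v p ∧ t ≤ v p)).card ≤ ((PP N).filter (fun p => m ∣ v p)).card := by
      apply card_le_card
      intro p hp
      rw [mem_filter] at hp ⊢
      exact ⟨PP_mono hy hp.1, hp.2.1⟩
    exact_mod_cast h1.trans (H.one m hm hc)

theorem prod_one {j : ℕ} (g : Fin j → ℕ) (hg : ∀ x, 1 ≤ g x) : 1 ≤ ∏ x, g x :=
  Nat.succ_le_of_lt (prod_pos fun x _ => hg x)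

open Classical in
/-- **the comparison** -/
theorem compare (j N K A₀ h y X Q : ℕ) (v c : ℕ → ℕ) (H : Seq N A₀ h v c) (HU : Unim N v) (hK : 1 ≤ K) (hN : 1 ≤ N)
    (hy : y ≤ N) (hj : 1 ≤ j) (hX : ∀ p : ℕ, p.Prime → p ≤ N → v p ≤ X)
    (hQ : ∀ m : ℕ, m ^ (j + 1) ≤ X ^ j → m ≤ Q) :
    |∑ p ∈ PP y, (tauk (j + 1) (v p) : ℝ) - ∑ p ∈ PP y, WW j (sh h) (v p)| ≤
      (j + 1) * (3 * ∑ m ∈ (Icc 1 Q).filter (fun m => m.Coprime h), (tauk j m : ℝ) * DD N K m (c m) + cnt j Q) := by
  -- the left side as a sum over the tuples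
  have h1 : ∑ p ∈ PP y, (tauk (j + 1) (v p) : ℝ) = ∑ i : Fin (j + 1), ∑ g ∈ TT j i X,
      (((PP y).filter (fun p => ∏ x, g x ∣ v p ∧ thr i g ≤ v p)).card : ℝ) := by
    have h2 : ∀ p ∈ PP y, (tauk (j + 1) (v p) : ℝ) = ∑ i : Fin (j + 1), ∑ g ∈ TT j i X,
        if ∏ x, g x ∣ v p ∧ thr i g ≤ v p then (1 : ℝ) else 0 := by
      intro p hp
      rw [mem_PP] at hp
      have hpX := hX p hp.1 (hp.2.trans hy)
      rcases Nat.eq_zero_or_pos (v p) with h0 | h0
      · rw [h0]
        have h3 : tauk (j + 1) 0 = 0 := by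
          unfold tauk
          rw [Nat.finMulAntidiag_zero_right, card_empty]
        rw [h3, Nat.cast_zero]
        symm
        apply sum_eq_zero
        intro i _
        apply sum_eq_zero
        intro g hg
        unfold TT at hg
        rw [mem_filter] at hg
        have := thr_pos hj i g hg.1
        rw [if_neg]
        rintro ⟨_, h4⟩
        omega
      · rw [tau_decomp j X (v p) h0 hpX]
        push_cast
        apply sum_congr rfl
        intro i _
        rw [card_filter, ← box_TT hj i (le_refl X), sum_filter]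
        push_cast
        apply sum_congr rfl
        intro g _
        by_cases h3 : thr i g ≤ X
        · rw [if_pos h3]
        · rw [if_neg h3, if_neg]
          rintro ⟨_, h4⟩
          exact h3 (h4.trans hpX)
    rw [sum_congr rfl h2, sum_comm]
    apply sum_congr rfl
    intro i _
    rw [sum_comm]
    apply sum_congr rfl
    intro g _
    rw [card_filter]
    push_cast
    rfl
  have h1' : ∑ p ∈ PP y, WW j (sh h) (v p) = ∑ i : Fin (j + 1), ∑ g ∈ TT j i X,
      gh h (∏ x, g x) * (((PP y).filter (fun p => thr i g ≤ v p)).card : ℝ) := by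
    have h2 : ∀ p ∈ PP y, WW j (sh h) (v p) = ∑ i : Fin (j + 1), ∑ g ∈ TT j i X,
        gh h (∏ x, g x) * if thr i g ≤ v p then (1 : ℝ) else 0 := by
      intro p hp
      rw [mem_PP] at hp
      have hpX := hX p hp.1 (hp.2.trans hy)
      unfold WW
      apply sum_congr rfl
      intro i _
      unfold Wi
      have h3 : TT j i (v p) = (TT j i X).filter (fun g => thr i g ≤ v p) := by
        ext g
        rw [mem_filter, mem_TT hj, mem_TT hj]
        constructor
        · rintro ⟨h4, h5⟩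
          exact ⟨⟨h4, h5.trans hpX⟩, h5⟩
        · rintro ⟨⟨h4, _⟩, h5⟩
          exact ⟨h4, h5⟩
      rw [h3, sum_filter]
      apply sum_congr rfl
      intro g hg
      have hg' := (mem_TT hj i g).1 hg
      rw [gh_eq h _ (prod_one g hg'.1)]
      split_ifs
      · rw [mul_one]
      · rw [mul_zero]
    rw [sum_congr rfl h2, sum_comm]
    apply sum_congr rfl
    intro i _
    rw [sum_comm]
    apply sum_congr rfl
    intro g _
    rw [← mul_sum, card_filter]
    push_cast
    rfl
  rw [h1, h1', ← sum_sub_distrib]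
  refine (abs_sum_le_sum_abs _ _).trans ?_
  have h2 : ∀ i : Fin (j + 1), |∑ g ∈ TT j i X, (((PP y).filter (fun p => ∏ x, g x ∣ v p ∧ thr i g ≤ v p)).card : ℝ) -
      ∑ g ∈ TT j i X, gh h (∏ x, g x) * (((PP y).filter (fun p => thr i g ≤ v p)).card : ℝ)| ≤
      3 * ∑ m ∈ (Icc 1 Q).filter (fun m => m.Coprime h), (tauk j m : ℝ) * DD N K m (c m) + cnt j Q := by
    intro i
    rw [← sum_sub_distrib]
    refine (abs_sum_le_sum_abs _ _).trans ?_
    have h3 : ∀ g ∈ TT j i X, |(((PP y).filter (fun p => ∏ x, g x ∣ v p ∧ thr i g ≤ v p)).card : ℝ) -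
        gh h (∏ x, g x) * (((PP y).filter (fun p => thr i g ≤ v p)).card : ℝ)| ≤
        if (∏ x, g x).Coprime h then 3 * DD N K (∏ x, g x) (c (∏ x, g x)) else 1 := by
      intro g hg
      have hg' := (mem_TT hj i g).1 hg
      exact one_mod N K A₀ h y v c H HU hK hN hy _ _ (prod_one g hg'.1)
    refine (sum_le_sum h3).trans ?_
    -- the fibres of the product
    have hmaps : ∀ g ∈ TT j i X, ∏ x, g x ∈ Icc 1 Q := by
      intro g hg
      have hg' := (mem_TT hj i g).1 hg
      unfold TT at hg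
      rw [mem_filter] at hg
      rw [mem_Icc]
      exact ⟨prod_one g hg'.1, hQ _ (prod_pow_le i g X hg.1 hg.2)⟩
    have h4 : ∑ g ∈ TT j i X, (if (∏ x, g x).Coprime h then 3 * DD N K (∏ x, g x) (c (∏ x, g x)) else (1 : ℝ)) ≤
        ∑ m ∈ Icc 1 Q, (tauk j m : ℝ) * (if m.Coprime h then 3 * DD N K m (c m) else 1) := by
      rw [← sum_fiberwise_of_maps_to hmaps]
      apply sum_le_sum
      intro m hm
      rw [mem_Icc] at hm
      have h5 : ∀ g ∈ (TT j i X).filter (fun g => ∏ x, g x = m),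
          (if (∏ x, g x).Coprime h then 3 * DD N K (∏ x, g x) (c (∏ x, g x)) else (1 : ℝ)) =
          if m.Coprime h then 3 * DD N K m (c m) else 1 := by
        intro g hg
        rw [mem_filter] at hg
        rw [hg.2]
      rw [sum_congr rfl h5, sum_const, nsmul_eq_mul]
      apply mul_le_mul_of_nonneg_right
      · unfold tauk
        have h6 : (TT j i X).filter (fun g => ∏ x, g x = m) ⊆ Nat.finMulAntidiag j m := by
          intro g hg
          rw [mem_filter] at hg
          rw [Nat.mem_finMulAntidiag]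
          exact ⟨hg.2, by omega⟩
        exact_mod_cast card_le_card h6
      · split_ifs
        · have := DD_nn N K m (c m)
          positivity
        · norm_num
    refine h4.trans ?_
    have h5 : ∑ m ∈ Icc 1 Q, (tauk j m : ℝ) * (if m.Coprime h then 3 * DD N K m (c m) else 1) ≤
        ∑ m ∈ Icc 1 Q, ((if m.Coprime h then 3 * ((tauk j m : ℝ) * DD N K m (c m)) else 0) + (tauk j m : ℝ)) := by
      apply sum_le_sum
      intro m _
      have h6 : (0 : ℝ) ≤ tauk j m := Nat.cast_nonneg _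
      split_ifs
      · linarith
      · linarith
    refine h5.trans ?_
    rw [sum_add_distrib, ← sum_filter, ← mul_sum]
    have h6 : ∑ m ∈ Icc 1 Q, (tauk j m : ℝ) = (cnt j Q : ℝ) := by
      rw [← sum_tauk j Q hj]
      push_cast
      rfl
    rw [h6]
  refine (sum_le_sum fun i _ => h2 i).trans (le_of_eq ?_)
  rw [sum_const, card_univ, Fintype.card_fin, nsmul_eq_mul]
  push_cast
  rfl

end Pool.Agent.Q148.TD
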