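import Pool.Agent.Q148.TD.Mt
import Pool.Agent.Q148.BA.Fam
import Pool.Agent.TH935.LP.L1

/-! The error terms of the distribution of the primes. -/

set_option autoImplicit false

namespace Pool.Agent.Q148.TD

open Finset Filter
open Pool.Agent.Q148.BA (PP mem_PP PP_mono gh Seq)
open Pool.Agent.Y882.EHF (S)
open Pool.Agent.TH926.EH (E pc)
open Pool.Agent.H442R2.EHI (piAP)

theorem piAP_triv (y m a : ℕ) (hm : 1 ≤ m) : piAP y m a ≤ y / m + 1 := by
  have hm0 : (0 : ℝ) < m := by exact_mod_cast hm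
  unfold piAP
  have h1 : ((Icc 1 y).filter (fun p => p.Prime ∧ p ≡ a [MOD m])).card ≤ (range (y / m + 1)).card := by
    apply card_le_card_of_injOn (fun x => x / m)
    · intro x hx
      rw [mem_coe, mem_filter, mem_Icc] at hx
      rw [mem_coe, mem_range]
      exact Nat.lt_succ_of_le (Nat.div_le_div_right (c := m) hx.1.2)
    · intro x hx x' hx' h
      rw [mem_coe, mem_filter] at hx hx'
      simp only at h
      have h2 : x % m = x' % m := hx.2.2.trans hx'.2.2.symm
      rw [← Nat.div_add_mod x m, ← Nat.div_add_mod x' m, h, h2]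
  rw [card_range] at h1
  have h2 : (((Icc 1 y).filter (fun p => p.Prime ∧ p ≡ a [MOD m])).card : ℝ) ≤ ((y / m + 1 : ℕ) : ℝ) := by
    exact_mod_cast h1
  refine h2.trans ?_
  push_cast
  have := Nat.cast_div_le (α := ℝ) (m := y) (n := m)
  linarith

theorem tot_tau (m : ℕ) (hm : 1 ≤ m) : 1 / (m.totient : ℝ) ≤ m.divisors.card / m := by
  have hm0 : (0 : ℝ) < m := by exact_mod_cast hm
  have hf : 0 < m.totient := Nat.totient_pos.2 (by omega)
  have hf0 : (0 : ℝ) < m.totient := by exact_mod_cast hf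
  have h1 : m ≤ m.divisors.card * m.totient := by
    calc m = ∑ d ∈ m.divisors, d.totient := (Nat.sum_totient m).symm
      _ ≤ ∑ _d ∈ m.divisors, m.totient := by
          apply sum_le_sum
          intro d hd
          exact Nat.le_of_dvd hf (Nat.totient_dvd_of_dvd (Nat.dvd_of_mem_divisors hd))
      _ = _ := by rw [sum_const, smul_eq_mul]
  have h2 : (m : ℝ) ≤ m.divisors.card * m.totient := by exact_mod_cast h1
  rw [div_le_div_iff₀ hf0 hm0]
  linarith

theorem pc_le (y : ℕ) : pc y ≤ y := by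
  unfold pc
  have h1 : ((Icc 1 y).filter (fun p : ℕ => p.Prime)).card ≤ y := by
    refine (card_le_card (filter_subset _ _)).trans ?_
    rw [Nat.card_Icc]
    omega
  exact_mod_cast h1

theorem E_tau (N y m a : ℕ) (hm : 1 ≤ m) (hmN : m ≤ N) (hy : y ≤ N) :
    E y m a ≤ 3 * N * (m.divisors.card / m) := by
  have hm0 : (0 : ℝ) < m := by exact_mod_cast hm
  have hf0 : (0 : ℝ) < m.totient := by exact_mod_cast Nat.totient_pos.2 (by omega)
  have hyN : (y : ℝ) ≤ N := by exact_mod_cast hy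
  have hmN' : (m : ℝ) ≤ N := by exact_mod_cast hmN
  have hN0 : (0 : ℝ) ≤ N := Nat.cast_nonneg N
  have hτ : (1 : ℝ) ≤ m.divisors.card := by
    exact_mod_cast card_pos.2 ⟨1, Nat.mem_divisors.2 ⟨one_dvd _, by omega⟩⟩
  have h1 : piAP y m a ≤ 2 * N * (m.divisors.card / m) := by
    refine (piAP_triv y m a hm).trans ?_
    have h2 : (y : ℝ) / m + 1 ≤ 2 * N / m := by
      rw [le_div_iff₀ hm0, add_mul, div_mul_cancel₀ _ hm0.ne']
      linarith
    refine h2.trans ?_
    rw [mul_div_assoc', div_le_div_iff_of_pos_right hm0]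
    exact le_mul_of_one_le_right (by positivity) hτ
  have h2 : pc y / (m.totient : ℝ) ≤ N * (m.divisors.card / m) := by
    calc pc y / (m.totient : ℝ) = pc y * (1 / (m.totient : ℝ)) := by ring
      _ ≤ N * (m.divisors.card / m) := mul_le_mul ((pc_le y).trans hyN) (tot_tau m hm) (by positivity) hN0
  have h3 : 0 ≤ piAP y m a := Nat.cast_nonneg _
  have h4 : 0 ≤ pc y / (m.totient : ℝ) := div_nonneg (Nat.cast_nonneg _) hf0.le
  unfold E
  rw [abs_le]
  constructor
  · linarith
  · linarith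

theorem piAP_mono {y y' : ℕ} (h : y ≤ y') (m a : ℕ) : piAP y m a ≤ piAP y' m a := by
  unfold piAP
  have : ((Icc 1 y).filter (fun p => p.Prime ∧ p ≡ a [MOD m])).card ≤
      ((Icc 1 y').filter (fun p => p.Prime ∧ p ≡ a [MOD m])).card :=
    card_le_card (filter_subset_filter _ (Icc_subset_Icc le_rfl h))
  exact_mod_cast this

theorem pc_diff {y y' : ℕ} (h : y ≤ y') : 0 ≤ pc y' - pc y ∧ pc y' - pc y ≤ (y' : ℝ) - y := by
  unfold pc
  have h1 : (Icc 1 y').filter (fun p : ℕ => p.Prime) =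
      (Icc 1 y).filter (fun p : ℕ => p.Prime) ∪ (Ioc y y').filter (fun p : ℕ => p.Prime) := by
    rw [← filter_union]
    congr 1
    ext x
    rw [mem_union, mem_Icc, mem_Icc, mem_Ioc]
    omega
  have h2 : Disjoint ((Icc 1 y).filter (fun p : ℕ => p.Prime)) ((Ioc y y').filter (fun p : ℕ => p.Prime)) := by
    apply disjoint_filter_filter
    rw [disjoint_left]
    intro x hx hx'
    rw [mem_Icc] at hx
    rw [mem_Ioc] at hx'
    omega
  rw [h1, card_union_of_disjoint h2]
  have h3 : ((Ioc y y').filter (fun p : ℕ => p.Prime)).card ≤ y' - y := by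
    refine (card_le_card (filter_subset _ _)).trans ?_
    rw [Nat.card_Ioc]
  have h4 : (((Ioc y y').filter (fun p : ℕ => p.Prime)).card : ℝ) ≤ ((y' - y : ℕ) : ℝ) := by exact_mod_cast h3
  rw [Nat.cast_sub h] at h4
  push_cast
  constructor
  · have : (0 : ℝ) ≤ (((Ioc y y').filter (fun p : ℕ => p.Prime)).card : ℝ) := Nat.cast_nonneg _
    linarith
  · linarith

/-- the majorant of the errors -/
noncomputable def DD (N K m a : ℕ) : ℝ :=
  2 * ∑ b ∈ Icc 1 K, E (b * N / K) m a + ((N : ℝ) / K + 1) * (1 / (m.totient : ℝ))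

theorem E_grid (N K m a y : ℕ) (hK : 1 ≤ K) (hN : 1 ≤ N) (hm : 1 ≤ m) (hy : y ≤ N) : E y m a ≤ DD N K m a := by
  have hK0 : (0 : ℝ) < K := by exact_mod_cast hK
  have hf0 : (0 : ℝ) < m.totient := by exact_mod_cast Nat.totient_pos.2 (by omega)
  have hnn : ∀ x : ℕ, 0 ≤ E x m a := fun x => abs_nonneg _
  obtain ⟨b, hb⟩ : ∃ b : ℕ, b = min (y * K / N) (K - 1) := ⟨_, rfl⟩
  have hb1 : b + 1 ≤ K := by omega
  have hby : b * N / K ≤ y := by
    apply Nat.div_le_of_le_mul
    have h1 : b ≤ y * K / N := by omega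
    calc b * N ≤ (y * K / N) * N := Nat.mul_le_mul_right N h1
      _ ≤ y * K := Nat.div_mul_le_self _ _
      _ = K * y := mul_comm _ _
  have hyb : y ≤ (b + 1) * N / K := by
    rw [Nat.le_div_iff_mul_le (by omega)]
    rcases Nat.lt_or_ge (y * K / N) (K - 1) with h1 | h1
    · have h2 : b = y * K / N := by omega
      rw [h2]
      have h3 := Nat.lt_div_mul_add (a := y * K) (b := N) (by omega)
      nlinarith
    · have h2 : b + 1 = K := by omega
      rw [h2, mul_comm]
      exact Nat.mul_le_mul_left K hy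
  have hdiff : (((b + 1) * N / K : ℕ) : ℝ) - ((b * N / K : ℕ) : ℝ) ≤ N / K + 1 := by
    have h1 : (((b + 1) * N / K : ℕ) : ℝ) ≤ ((b + 1 : ℕ) : ℝ) * N / K := by
      have := Nat.cast_div_le (α := ℝ) (m := (b + 1) * N) (n := K)
      rwa [Nat.cast_mul] at this
    have h2 : (b : ℝ) * N / K ≤ ((b * N / K : ℕ) : ℝ) + 1 := by
      rw [div_le_iff₀ hK0]
      have h2 := Nat.lt_div_mul_add (a := b * N) (b := K) (by omega)
      have h3 : b * N ≤ (b * N / K + 1) * K := by nlinarith
      exact_mod_cast h3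
    have h4 : ((b + 1 : ℕ) : ℝ) * N / K = (b : ℝ) * N / K + N / K := by
      push_cast
      ring
    linarith
  obtain ⟨u, hu⟩ : ∃ u : ℕ, u = b * N / K := ⟨_, rfl⟩
  obtain ⟨w, hw⟩ : ∃ w : ℕ, w = (b + 1) * N / K := ⟨_, rfl⟩
  rw [← hu] at hby hdiff
  rw [← hw] at hyb hdiff
  have huw : u ≤ w := hby.trans hyb
  -- the two neighbours
  have k1 : E y m a ≤ E u m a + E w m a + ((N : ℝ) / K + 1) * (1 / (m.totient : ℝ)) := by
    obtain ⟨t, ht⟩ : ∃ t : ℝ, t = 1 / (m.totient : ℝ) := ⟨_, rfl⟩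
    have ht0 : 0 ≤ t := by rw [ht]; positivity
    have hE : ∀ x : ℕ, E x m a = |piAP x m a - pc x * t| := by
      intro x
      unfold E
      rw [ht]
      congr 1
      ring
    rw [← ht, hE, hE, hE]
    have m1 := piAP_mono hby m a
    have m2 := piAP_mono hyb m a
    have p1 := pc_diff hby
    have p2 := pc_diff hyb
    have p3 := pc_diff huw
    have q1 := abs_le.1 (le_refl |piAP u m a - pc u * t|)
    have q2 := abs_le.1 (le_refl |piAP w m a - pc w * t|)
    have r1 : (pc w - pc u) * t ≤ (N / K + 1) * t := mul_le_mul_of_nonneg_right (by linarith) ht0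
    have r2 : 0 ≤ (pc y - pc u) * t := mul_nonneg p1.1 ht0
    have r3 : 0 ≤ (pc w - pc y) * t := mul_nonneg p2.1 ht0
    have a1 := abs_nonneg (piAP u m a - pc u * t)
    have a2 := abs_nonneg (piAP w m a - pc w * t)
    rw [abs_le]
    constructor
    · linarith [q1.1]
    · linarith [q2.2]
  refine k1.trans ?_
  unfold DD
  have k2 : E w m a ≤ ∑ b ∈ Icc 1 K, E (b * N / K) m a := by
    rw [hw]
    exact single_le_sum (f := fun b => E (b * N / K) m a) (fun x _ => hnn _) (mem_Icc.2 ⟨by omega, hb1⟩)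
  have k3 : E u m a ≤ ∑ b ∈ Icc 1 K, E (b * N / K) m a := by
    rcases Nat.eq_zero_or_pos b with h0 | h0
    · have : E u m a = 0 := by
        rw [hu, h0, zero_mul, Nat.zero_div]
        unfold E piAP pc
        simp
      rw [this]
      exact sum_nonneg fun x _ => hnn _
    · rw [hu]
      exact single_le_sum (f := fun b => E (b * N / K) m a) (fun x _ => hnn _) (mem_Icc.2 ⟨h0, by omega⟩)
  linarith

theorem tauk_le (j m : ℕ) (hm : 1 ≤ m) : tauk j m ≤ m.divisors.card ^ j := by
  unfold tauk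
  have h1 : Nat.finMulAntidiag j m ⊆ Fintype.piFinset (fun _ : Fin j => m.divisors) := by
    intro f hf
    rw [Fintype.mem_piFinset]
    intro x
    rw [Nat.mem_divisors]
    exact ⟨Nat.dvd_of_mem_finMulAntidiag hf x, by omega⟩
  refine (card_le_card h1).trans (le_of_eq ?_)
  rw [Fintype.card_piFinset, prod_const, card_univ, Fintype.card_fin]

/-- the weighted sum of the majorants -/
theorem wsum (j N K Q h : ℕ) (c : ℕ → ℕ) (B R : ℝ) (hR : 0 < R) (hN : 1 ≤ N) (hQN : Q ≤ N)
    (hcop : ∀ q, 1 ≤ q → q.Coprime h → (c q).Coprime q)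
    (hS : ∀ b ∈ Icc 1 K, S (b * N / K) Q c ≤ B) :
    ∑ m ∈ (Icc 1 Q).filter (fun m => m.Coprime h), (tauk j m : ℝ) * DD N K m (c m) ≤
      2 * K * (R * B + 3 * N / R * (1 + Real.log Q) ^ 2 ^ (2 * j + 1)) +
        ((N : ℝ) / K + 1) * (1 + Real.log Q) ^ 2 ^ (j + 1) := by
  have hnn : ∀ x m a : ℕ, 0 ≤ E x m a := fun x m a => abs_nonneg _
  have h1 : ∀ b ∈ Icc 1 K, ∑ m ∈ (Icc 1 Q).filter (fun m => m.Coprime h), (tauk j m : ℝ) * E (b * N / K) m (c m) ≤
      R * B + 3 * N / R * (1 + Real.log Q) ^ 2 ^ (2 * j + 1) := by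
    intro b hb
    have hb' := mem_Icc.1 hb
    have hbN : b * N / K ≤ N := by
      apply Nat.div_le_of_le_mul
      exact Nat.mul_le_mul_right N hb'.2
    have h2 : ∀ m ∈ (Icc 1 Q).filter (fun m => m.Coprime h), (tauk j m : ℝ) * E (b * N / K) m (c m) ≤
        R * E (b * N / K) m (c m) + 3 * N / R * ((m.divisors.card : ℝ) ^ (2 * j + 1) / m) := by
      intro m hm
      rw [mem_filter, mem_Icc] at hm
      have hm0 : (0 : ℝ) < m := by exact_mod_cast hm.1.1
      obtain ⟨T, hT⟩ : ∃ T : ℝ, T = (m.divisors.card : ℝ) ^ j := ⟨_, rfl⟩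
      have hT0 : 0 ≤ T := by rw [hT]; positivity
      have h3 : (tauk j m : ℝ) ≤ T := by
        rw [hT]
        exact_mod_cast tauk_le j m hm.1.1
      have h4 : T ≤ R + T ^ 2 / R := by
        have h5 : 0 ≤ (R - T) ^ 2 / R := by positivity
        have h6 : (R - T) ^ 2 / R = R - 2 * T + T ^ 2 / R := by
          field_simp
          ring
        linarith
      have h5 := E_tau N (b * N / K) m (c m) hm.1.1 (hm.1.2.trans hQN) hbN
      obtain ⟨e, he⟩ : ∃ e, e = E (b * N / K) m (c m) := ⟨_, rfl⟩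
      have he0 : 0 ≤ e := by rw [he]; exact hnn _ _ _
      rw [← he] at h5 ⊢
      calc (tauk j m : ℝ) * e ≤ (R + T ^ 2 / R) * e := mul_le_mul_of_nonneg_right (h3.trans h4) he0
        _ = R * e + T ^ 2 / R * e := by ring
        _ ≤ R * e + T ^ 2 / R * (3 * N * (m.divisors.card / m)) := by
            have := mul_le_mul_of_nonneg_left h5 (show 0 ≤ T ^ 2 / R by positivity)
            linarith
        _ = _ := by
            rw [hT, pow_succ _ (2 * j), mul_comm 2 j, pow_mul]
            ring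
    refine (sum_le_sum h2).trans ?_
    rw [sum_add_distrib, ← mul_sum, ← mul_sum]
    apply add_le_add
    · apply mul_le_mul_of_nonneg_left _ hR.le
      refine le_trans ?_ (hS b hb)
      unfold S
      apply sum_le_sum_of_subset_of_nonneg
      · intro m hm
        rw [mem_filter, mem_Icc] at hm
        rw [mem_filter, mem_Icc]
        exact ⟨hm.1, hcop m hm.1.1 hm.2⟩
      · intro _ _ _
        exact hnn _ _ _
    · apply mul_le_mul_of_nonneg_left _ (by positivity)
      refine le_trans ?_ (Pool.Agent.TH935.LD.tau_pow_div (2 * j + 1) Q)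
      exact sum_le_sum_of_subset_of_nonneg (filter_subset _ _) (fun _ _ _ => by positivity)
  have h2 : ∑ m ∈ (Icc 1 Q).filter (fun m => m.Coprime h), (tauk j m : ℝ) * DD N K m (c m) =
      2 * ∑ b ∈ Icc 1 K, ∑ m ∈ (Icc 1 Q).filter (fun m => m.Coprime h), (tauk j m : ℝ) * E (b * N / K) m (c m) +
      ∑ m ∈ (Icc 1 Q).filter (fun m => m.Coprime h), (tauk j m : ℝ) * (((N : ℝ) / K + 1) * (1 / (m.totient : ℝ))) := by
    unfold DD
    rw [sum_comm, mul_sum, ← sum_add_distrib]
    apply sum_congr rfl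
    intro m _
    rw [← mul_sum]
    ring
  rw [h2]
  apply add_le_add
  · have h3 := sum_le_sum h1
    rw [sum_const, Nat.card_Icc, nsmul_eq_mul, Nat.add_sub_cancel] at h3
    linarith
  · have h3 : ∀ m ∈ (Icc 1 Q).filter (fun m => m.Coprime h),
        (tauk j m : ℝ) * (((N : ℝ) / K + 1) * (1 / (m.totient : ℝ))) ≤
        ((N : ℝ) / K + 1) * ((m.divisors.card : ℝ) ^ (j + 1) / m) := by
      intro m hm
      rw [mem_filter, mem_Icc] at hm
      have h4 : (tauk j m : ℝ) ≤ (m.divisors.card : ℝ) ^ j := by exact_mod_cast tauk_le j m hm.1.1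
      have h5 := tot_tau m hm.1.1
      calc (tauk j m : ℝ) * (((N : ℝ) / K + 1) * (1 / (m.totient : ℝ))) =
          ((N : ℝ) / K + 1) * ((tauk j m : ℝ) * (1 / (m.totient : ℝ))) := by ring
        _ ≤ ((N : ℝ) / K + 1) * ((m.divisors.card : ℝ) ^ j * (m.divisors.card / m)) := by
            apply mul_le_mul_of_nonneg_left _ (by positivity)
            exact mul_le_mul h4 h5 (by positivity) (by positivity)
        _ = _ := by rw [pow_succ]; ring
    refine (sum_le_sum h3).trans ?_
    rw [← mul_sum]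
    apply mul_le_mul_of_nonneg_left _ (by positivity)
    refine le_trans ?_ (Pool.Agent.TH935.LD.tau_pow_div (j + 1) Q)
    exact sum_le_sum_of_subset_of_nonneg (filter_subset _ _) (fun _ _ _ => by positivity)

end Pool.Agent.Q148.TD
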