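import Pool.Agent.Q148.TD.Wt
import Pool.Agent.Q148.BA.Dn

/-! The Euler products. -/

set_option autoImplicit false

namespace Pool.Agent.Q148.TD

open Finset Filter
open Pool.Agent.Q148.BA (PP mem_PP V1 V1_pos mertens gh card_pf)

/-- the weights for the density `1 / φ(m)` on the integers prime to `h` -/
noncomputable def sh (h p : ℕ) : ℝ := if p ∣ h then -1 else 1 / ((p : ℝ) - 1)

theorem gh_eq (h m : ℕ) (hm : 1 ≤ m) : gh h m = (∏ p ∈ m.primeFactors, (1 + sh h p)) * (1 / (m : ℝ)) := by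
  have hm0 : (0 : ℝ) < m := by exact_mod_cast hm
  unfold gh
  split_ifs with hc
  · have h1 : ∏ p ∈ m.primeFactors, (1 + sh h p) = (∏ p ∈ m.primeFactors, (1 - (p : ℝ)⁻¹))⁻¹ := by
      rw [← prod_inv_distrib]
      apply prod_congr rfl
      intro p hp
      have hpp := Nat.prime_of_mem_primeFactors hp
      have hp2 : (2 : ℝ) ≤ p := by exact_mod_cast hpp.two_le
      have hnd : ¬ p ∣ h := fun hd => (Nat.Prime.not_coprime_iff_dvd.2 ⟨p, hpp, Nat.dvd_of_mem_primeFactors hp, hd⟩) hc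
      unfold sh
      rw [if_neg hnd]
      have h1 : (p : ℝ) - 1 ≠ 0 := by linarith
      have h2 : (p : ℝ) ≠ 0 := by linarith
      field_simp
      ring
    have h2 : (m.totient : ℝ) = m * ∏ p ∈ m.primeFactors, (1 - (p : ℝ)⁻¹) := by
      have := Nat.totient_eq_mul_prod_factors m
      have h3 : ((m.totient : ℚ) : ℝ) = ((m * ∏ p ∈ m.primeFactors, (1 - (p : ℚ)⁻¹) : ℚ) : ℝ) := by rw [this]
      push_cast at h3
      exact h3
    rw [h1, h2, one_div, mul_inv, one_div, mul_comm]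
  · obtain ⟨p, hp, hpm, hph⟩ := Nat.Prime.not_coprime_iff_dvd.1 hc
    rw [prod_eq_zero (i := p) (Nat.mem_primeFactors.2 ⟨hp, hpm, by omega⟩), zero_mul]
    unfold sh
    rw [if_pos hph]
    norm_num

theorem bb_le (j p : ℕ) (hp : 1 ≤ p) : 0 ≤ bb j p ∧ bb j p ≤ 2 ^ j / p := by
  have hp0 : (0 : ℝ) < p := by exact_mod_cast hp
  have ht0 : 0 ≤ 1 / (p : ℝ) := by positivity
  have ht1 : 1 / (p : ℝ) ≤ 1 := by rw [div_le_one hp0]; exact_mod_cast hp
  unfold bb
  constructor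
  · have : (1 : ℝ) ≤ (1 + 1 / (p : ℝ)) ^ j := one_le_pow₀ (by linarith)
    linarith
  · have key : ∀ t : ℝ, 0 ≤ t → t ≤ 1 → (1 + t) ^ j - 1 ≤ 2 ^ j * t := by
      intro t h0 h1
      induction j with
      | zero => simpa using h0
      | succ j ih =>
        have h2 : (0 : ℝ) < 2 ^ j := by positivity
        have h3 : (1 + t) ^ (j + 1) - 1 = ((1 + t) ^ j - 1) * (1 + t) + t := by ring
        have h4 : ((1 + t) ^ j - 1) * (1 + t) ≤ 2 ^ j * t * (1 + t) :=
          mul_le_mul_of_nonneg_right ih (by linarith)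
        have h5 : (1 + t) ^ j ≤ 2 ^ j := pow_le_pow_left₀ (by linarith) (by linarith) j
        have h6 : (1 + t) ^ (j + 1) - 1 = ((1 + t) ^ j - 1) + t * (1 + t) ^ j := by ring
        rw [h6, pow_succ]
        have h7 : t * (1 + t) ^ j ≤ t * 2 ^ j := mul_le_mul_of_nonneg_left h5 h0
        linarith
    have := key (1 / p) ht0 ht1
    rwa [mul_one_div] at this

/-- the constant of the asymptotic formula, truncated at `Y` -/
noncomputable def CC (j h Y : ℕ) : ℝ := ∏ p ∈ PP Y, (1 + sh h p * rho j p)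

/-- `h / φ(h)` -/
noncomputable def RR (h : ℕ) : ℝ := ∏ p ∈ h.primeFactors, (1 - 1 / (p : ℝ))⁻¹

theorem fac_inv (p : ℕ) (hp : p.Prime) : 1 ≤ (1 - 1 / (p : ℝ))⁻¹ ∧ 0 < 1 - 1 / (p : ℝ) := by
  have hp2 : (2 : ℝ) ≤ p := by exact_mod_cast hp.two_le
  have h1 : 0 < 1 - 1 / (p : ℝ) := by
    rw [sub_pos, div_lt_one (by linarith)]
    linarith
  refine ⟨?_, h1⟩
  rw [one_le_inv₀ h1]
  have : 0 ≤ 1 / (p : ℝ) := by positivity
  linarith

theorem one_le_prodr (t : Finset ℕ) (f : ℕ → ℝ) (hf : ∀ p ∈ t, 1 ≤ f p) : 1 ≤ ∏ p ∈ t, f p := by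
  calc (1 : ℝ) = ∏ _p ∈ t, (1 : ℝ) := by rw [prod_const_one]
    _ ≤ _ := Finset.prod_le_prod (fun _ _ => zero_le_one) hf

theorem prod_sub_le (s t : Finset ℕ) (f : ℕ → ℝ) (hst : s ⊆ t) (hf : ∀ p ∈ t, 1 ≤ f p) :
    ∏ p ∈ s, f p ≤ ∏ p ∈ t, f p := by
  classical
  rw [← prod_sdiff hst]
  have h1 := one_le_prodr (t \ s) f (fun p hp => hf p (sdiff_subset hp))
  have h2 := one_le_prodr s f (fun p hp => hf p (hst hp))
  exact le_mul_of_one_le_left (by linarith) h1

theorem RR_ge (h : ℕ) : 1 ≤ RR h :=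
  one_le_prodr _ _ fun p hp => (fac_inv p (Nat.prime_of_mem_primeFactors hp)).1

theorem CC_pos (j h Y : ℕ) (hh : 1 ≤ h) : 1 ≤ RR h ^ j * CC j h Y ∧ 0 < CC j h Y := by
  have hfac : ∀ p ∈ PP Y, (if p ∣ h then (1 - 1 / (p : ℝ)) ^ j else 1) ≤ 1 + sh h p * rho j p := by
    intro p hp
    have hp' := (mem_PP.1 hp).1
    have hp2 : (2 : ℝ) ≤ p := by exact_mod_cast hp'.two_le
    unfold sh
    split_ifs
    · unfold rho
      linarith
    · have h1 : 0 ≤ rho j p := by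
        unfold rho
        have := pow_le_one₀ (n := j) (fac_inv p hp').2.le (by
          have : 0 ≤ 1 / (p : ℝ) := by positivity
          linarith)
        linarith
      have h2 : 0 ≤ 1 / ((p : ℝ) - 1) := by
        apply div_nonneg zero_le_one
        linarith
      have := mul_nonneg h2 h1
      linarith
  have hpos : ∀ p ∈ PP Y, 0 < (if p ∣ h then (1 - 1 / (p : ℝ)) ^ j else 1) := by
    intro p hp
    split_ifs
    · exact pow_pos (fac_inv p (mem_PP.1 hp).1).2 j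
    · norm_num
  have h1 : ∏ p ∈ PP Y, (if p ∣ h then (1 - 1 / (p : ℝ)) ^ j else 1) ≤ CC j h Y :=
    Finset.prod_le_prod (fun p hp => (hpos p hp).le) hfac
  have h2 : 0 < ∏ p ∈ PP Y, (if p ∣ h then (1 - 1 / (p : ℝ)) ^ j else 1) := prod_pos hpos
  refine ⟨?_, h2.trans_le h1⟩
  have h3 : 1 ≤ RR h ^ j * ∏ p ∈ PP Y, (if p ∣ h then (1 - 1 / (p : ℝ)) ^ j else 1) := by
    rw [← prod_filter]
    have h4 : ∏ p ∈ (PP Y).filter (fun p => p ∣ h), (1 - 1 / (p : ℝ)) ^ j =
        (∏ p ∈ (PP Y).filter (fun p => p ∣ h), (1 - 1 / (p : ℝ))⁻¹)⁻¹ ^ j := by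
      rw [prod_pow, ← prod_inv_distrib]
      congr 1
      apply prod_congr rfl
      intro p _
      rw [inv_inv]
    have h5 : ∏ p ∈ (PP Y).filter (fun p => p ∣ h), (1 - 1 / (p : ℝ))⁻¹ ≤ RR h := by
      unfold RR
      apply prod_sub_le
      · intro p hp
        rw [mem_filter, mem_PP] at hp
        exact Nat.mem_primeFactors.2 ⟨hp.1.1, hp.2, by omega⟩
      · intro p hp
        exact (fac_inv p (Nat.prime_of_mem_primeFactors hp)).1
    have h6 : 0 < ∏ p ∈ (PP Y).filter (fun p => p ∣ h), (1 - 1 / (p : ℝ))⁻¹ := by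
      apply prod_pos
      intro p hp
      rw [mem_filter, mem_PP] at hp
      linarith [(fac_inv p hp.1.1).1]
    rw [h4, ← mul_pow]
    apply one_le_pow₀
    rw [← div_eq_mul_inv, one_le_div h6]
    exact h5
  have h7 : 0 ≤ RR h ^ j := pow_nonneg (by linarith [RR_ge h]) j
  exact h3.trans (mul_le_mul_of_nonneg_left h1 h7)

/-- convergent sums -/
theorem conv_sum : ∃ C : ℝ, 0 ≤ C ∧ ∀ Y : ℕ, ∑ p ∈ PP Y, 1 / (((p : ℝ) - 1) * p) ≤ C ∧
    ∑ p ∈ PP Y, Real.log p / (((p : ℝ) - 1) * p) ≤ C := by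
  have hs : Summable (fun m : ℕ => 4 * (1 / (m : ℝ) ^ (3 / 2 : ℝ))) :=
    (Real.summable_one_div_nat_rpow.2 (by norm_num)).mul_left 4
  refine ⟨∑' m : ℕ, 4 * (1 / (m : ℝ) ^ (3 / 2 : ℝ)), tsum_nonneg fun _ => by positivity, fun Y => ?_⟩
  have h1 : ∀ p ∈ PP Y, Real.log p / (((p : ℝ) - 1) * p) ≤ 4 * (1 / (p : ℝ) ^ (3 / 2 : ℝ)) ∧
      1 / (((p : ℝ) - 1) * p) ≤ 4 * (1 / (p : ℝ) ^ (3 / 2 : ℝ)) := by
    intro p hp
    have hp2 : (2 : ℝ) ≤ p := by exact_mod_cast (mem_PP.1 hp).1.two_le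
    have hp0 : (0 : ℝ) < p := by linarith
    have h2 : Real.log p ≤ 2 * (p : ℝ) ^ (1 / 2 : ℝ) := by
      have := Real.log_le_rpow_div hp0.le (show (0 : ℝ) < 1 / 2 by norm_num)
      linarith
    have h3 : (p : ℝ) ^ (3 / 2 : ℝ) * (p : ℝ) ^ (1 / 2 : ℝ) = p * p := by
      rw [← Real.rpow_add hp0]
      norm_num
      ring
    have h4 : 1 ≤ (p : ℝ) ^ (1 / 2 : ℝ) := Real.one_le_rpow (by linarith) (by norm_num)
    have h5 : 0 < (p : ℝ) ^ (3 / 2 : ℝ) := by positivity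
    have h6 : 0 < ((p : ℝ) - 1) * p := mul_pos (by linarith) hp0
    constructor
    · rw [mul_one_div, div_le_div_iff₀ h6 h5]
      calc Real.log p * (p : ℝ) ^ (3 / 2 : ℝ) ≤ 2 * (p : ℝ) ^ (1 / 2 : ℝ) * (p : ℝ) ^ (3 / 2 : ℝ) :=
            mul_le_mul_of_nonneg_right h2 h5.le
        _ = 2 * (p * p) := by rw [← h3]; ring
        _ ≤ _ := by nlinarith
    · rw [mul_one_div, div_le_div_iff₀ h6 h5]
      have h7 : (p : ℝ) ^ (3 / 2 : ℝ) ≤ p * p := by
        rw [← h3]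
        exact le_mul_of_one_le_right h5.le h4
      nlinarith
  constructor
  · refine (sum_le_sum fun p hp => (h1 p hp).2).trans ?_
    exact hs.sum_le_tsum _ (fun _ _ => by positivity)
  · refine (sum_le_sum fun p hp => (h1 p hp).1).trans ?_
    exact hs.sum_le_tsum _ (fun _ _ => by positivity)

/-- the error term of the weighted sums -/
theorem err_bd (j : ℕ) : ∃ C : ℝ, 1 ≤ C ∧ ∀ h Y : ℕ, 1 ≤ h →
    (∏ p ∈ PP Y, (1 + |sh h p| * bb j p)) * (1 + ∑ p ∈ PP Y, |sh h p| * bb j p * ((j + 1) * Real.log p)) ≤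
      C * RR h ^ 2 ^ j * (1 + ∑ p ∈ h.primeFactors, Real.log p / p) := by
  obtain ⟨C, hC, H⟩ := conv_sum
  obtain ⟨D, hD⟩ : ∃ D : ℝ, D = 1 + 2 ^ j * (j + 1) * (C + 1) := ⟨_, rfl⟩
  have hD1 : 1 ≤ D := by rw [hD]; have : 0 ≤ 2 ^ j * ((j : ℝ) + 1) * (C + 1) := by positivity
                         linarith
  refine ⟨Real.exp (2 ^ j * C) * D, one_le_mul_of_one_le_of_one_le (Real.one_le_exp (by positivity)) hD1,
    fun h Y hh => ?_⟩
  obtain ⟨H1, H2⟩ := H Y
  have hbd : ∀ p ∈ PP Y, |sh h p| * bb j p ≤ 2 ^ j * (1 / (((p : ℝ) - 1) * p)) + if p ∣ h then 2 ^ j * (1 / (p : ℝ)) else 0 := by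
    intro p hp
    have hp' := (mem_PP.1 hp).1
    have hp2 : (2 : ℝ) ≤ p := by exact_mod_cast hp'.two_le
    obtain ⟨b0, b1⟩ := bb_le j p hp'.one_le
    have h0 : 0 < ((p : ℝ) - 1) * p := mul_pos (by linarith) (by linarith)
    unfold sh
    split_ifs
    · rw [abs_neg, abs_one, one_mul, mul_one_div (2 ^ j) (p : ℝ)]
      have : 0 ≤ 2 ^ j * (1 / (((p : ℝ) - 1) * p)) := by positivity
      linarith
    · rw [add_zero, abs_of_nonneg (div_nonneg zero_le_one (by linarith))]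
      calc 1 / ((p : ℝ) - 1) * bb j p ≤ 1 / ((p : ℝ) - 1) * (2 ^ j / p) :=
            mul_le_mul_of_nonneg_left b1 (div_nonneg zero_le_one (by linarith))
        _ = _ := by
          have : (p : ℝ) - 1 ≠ 0 := by linarith
          field_simp
  have hann : ∀ p ∈ PP Y, 0 ≤ |sh h p| * bb j p := fun p hp =>
    mul_nonneg (abs_nonneg _) (bb_le j p (mem_PP.1 hp).1.one_le).1
  -- the sets
  have hsub : (PP Y).filter (fun p => p ∣ h) ⊆ h.primeFactors := by
    intro p hp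
    rw [mem_filter, mem_PP] at hp
    exact Nat.mem_primeFactors.2 ⟨hp.1.1, hp.2, by omega⟩
  have s1 : ∏ p ∈ PP Y, (1 + |sh h p| * bb j p) ≤ Real.exp (2 ^ j * C) * RR h ^ 2 ^ j := by
    have h1 : ∏ p ∈ PP Y, (1 + |sh h p| * bb j p) ≤ ∏ p ∈ PP Y, Real.exp (|sh h p| * bb j p) := by
      apply Finset.prod_le_prod
      · intro p hp
        linarith [hann p hp]
      · intro p _
        linarith [Real.add_one_le_exp (|sh h p| * bb j p)]
    rw [← Real.exp_sum] at h1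
    refine h1.trans ?_
    have h2 : ∑ p ∈ PP Y, |sh h p| * bb j p ≤ 2 ^ j * C + ∑ p ∈ h.primeFactors, 2 ^ j * (1 / (p : ℝ)) := by
      refine (sum_le_sum hbd).trans ?_
      rw [sum_add_distrib, ← mul_sum, ← sum_filter]
      apply add_le_add
      · exact mul_le_mul_of_nonneg_left H1 (by positivity)
      · exact sum_le_sum_of_subset_of_nonneg hsub (fun _ _ _ => by positivity)
    refine (Real.exp_le_exp.2 h2).trans ?_
    rw [Real.exp_add]
    apply mul_le_mul_of_nonneg_left _ (Real.exp_pos _).le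
    unfold RR
    rw [← prod_pow, Real.exp_sum]
    apply Finset.prod_le_prod (fun _ _ => (Real.exp_pos _).le)
    intro p hp
    have hp' := Nat.prime_of_mem_primeFactors hp
    have h3 : Real.exp (1 / (p : ℝ)) ≤ (1 - 1 / (p : ℝ))⁻¹ := by
      have h4 := (fac_inv p hp').2
      have h5 : 1 - 1 / (p : ℝ) ≤ Real.exp (-(1 / (p : ℝ))) := by
        have := Real.add_one_le_exp (-(1 / (p : ℝ)))
        linarith
      rw [Real.exp_neg] at h5
      rw [le_inv_comm₀ (Real.exp_pos _) h4]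
      exact h5
    have h6 : Real.exp (2 ^ j * (1 / (p : ℝ))) = Real.exp (1 / (p : ℝ)) ^ 2 ^ j := by
      rw [← Real.exp_nat_mul]
      push_cast
      rfl
    rw [h6]
    exact pow_le_pow_left₀ (Real.exp_pos _).le h3 _
  have s2 : 1 + ∑ p ∈ PP Y, |sh h p| * bb j p * ((j + 1) * Real.log p) ≤
      D * (1 + ∑ p ∈ h.primeFactors, Real.log p / p) := by
    have h1 : ∀ p ∈ PP Y, |sh h p| * bb j p * ((j + 1) * Real.log p) ≤
        2 ^ j * (j + 1) * (Real.log p / (((p : ℝ) - 1) * p)) + if p ∣ h then 2 ^ j * (j + 1) * (Real.log p / (p : ℝ)) else 0 := by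
      intro p hp
      have hl : 0 ≤ ((j : ℝ) + 1) * Real.log p := by
        have := Real.log_natCast_nonneg p
        positivity
      refine (mul_le_mul_of_nonneg_right (hbd p hp) hl).trans (le_of_eq ?_)
      split_ifs
      · ring
      · ring
    have h2 : ∑ p ∈ PP Y, |sh h p| * bb j p * ((j + 1) * Real.log p) ≤
        2 ^ j * (j + 1) * C + 2 ^ j * (j + 1) * ∑ p ∈ h.primeFactors, Real.log p / p := by
      refine (sum_le_sum h1).trans ?_
      rw [sum_add_distrib, ← mul_sum, ← sum_filter]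
      apply add_le_add
      · exact mul_le_mul_of_nonneg_left H2 (by positivity)
      · rw [mul_sum]
        apply sum_le_sum_of_subset_of_nonneg hsub
        intro p _ _
        have := Real.log_natCast_nonneg p
        positivity
    have h3 : 0 ≤ ∑ p ∈ h.primeFactors, Real.log p / (p : ℝ) := by
      apply sum_nonneg
      intro p _
      have := Real.log_natCast_nonneg p
      positivity
    rw [hD]
    have h4 : 0 ≤ 2 ^ j * ((j : ℝ) + 1) := by positivity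
    have h5 : 0 ≤ 2 ^ j * ((j : ℝ) + 1) * C * ∑ p ∈ h.primeFactors, Real.log p / (p : ℝ) := by positivity
    nlinarith
  have h0 : 0 ≤ 1 + ∑ p ∈ PP Y, |sh h p| * bb j p * ((j + 1) * Real.log p) := by
    have : 0 ≤ ∑ p ∈ PP Y, |sh h p| * bb j p * ((j + 1) * Real.log p) := by
      apply sum_nonneg
      intro p hp
      have := Real.log_natCast_nonneg p
      exact mul_nonneg (hann p hp) (by positivity)
    linarith
  have h1 : 0 ≤ Real.exp (2 ^ j * C) * RR h ^ 2 ^ j := by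
    have := RR_ge h
    have := Real.exp_pos (2 ^ j * C)
    positivity
  calc _ ≤ (Real.exp (2 ^ j * C) * RR h ^ 2 ^ j) * (D * (1 + ∑ p ∈ h.primeFactors, Real.log p / p)) :=
        mul_le_mul s1 s2 h0 h1
    _ = _ := by ring

end Pool.Agent.Q148.TD
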