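import Pool.Agent.Q148.TD.Co

/-! Few exceptions, and the first form of the result. -/

set_option autoImplicit false

namespace Pool.Agent.Q148.TD

open Finset Filter
open Pool.Agent.Q148.BA (PP mem_PP PP_mono gh Seq)
open Pool.Agent.Y882.EHF (S few_affine)
open Pool.Agent.TH926.EH (E pc)
open Pool.Agent.H442R2.EHI (piAP)

/-- the exponent `1 - 1/k` with `k = j + 1` -/
noncomputable def θ (j : ℕ) : ℝ := j / (j + 1)

theorem θ_bd (j : ℕ) : 0 ≤ θ j ∧ θ j < 1 ∧ 1 - θ j = 1 / (j + 1) := by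
  unfold θ
  have hj : (0 : ℝ) ≤ j := Nat.cast_nonneg j
  refine ⟨by positivity, ?_, ?_⟩
  · rw [div_lt_one (by linarith)]
    linarith
  · field_simp
    ring

/-- the moduli are at most `X ^ (1 - 1/k)` -/
theorem Q_of (j X : ℕ) (m : ℕ) (h : m ^ (j + 1) ≤ X ^ j) : m ≤ ⌊(X : ℝ) ^ θ j⌋₊ := by
  apply Nat.le_floor
  have hj : (0 : ℝ) < j + 1 := by positivity
  have h1 : ((m : ℝ) ^ (j + 1)) ≤ (X : ℝ) ^ j := by exact_mod_cast h
  have h2 : (m : ℝ) = ((m : ℝ) ^ (j + 1)) ^ ((1 : ℝ) / (j + 1)) := by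
    rw [← Real.rpow_natCast, ← Real.rpow_mul (Nat.cast_nonneg m)]
    push_cast
    rw [mul_one_div, div_self hj.ne', Real.rpow_one]
  rw [h2]
  refine (Real.rpow_le_rpow (by positivity) h1 (by positivity)).trans (le_of_eq ?_)
  rw [← Real.rpow_natCast, ← Real.rpow_mul (Nat.cast_nonneg X)]
  unfold θ
  congr 1
  ring

/-- few exceptional members of a family, on a grid -/
theorem exc_grid (j : ℕ) (U V A₀ : ℕ) : ∃ B N0 : ℕ, ∀ N : ℕ, N0 ≤ N → ∀ u : ℕ → ℕ,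
    (∀ q, 1 ≤ q → (u q).Coprime q) → ∀ I : Finset ℕ, (∀ b ∈ I, (b : ℝ) ≤ (N : ℝ) ^ (2 : ℝ)) →
    ∃ Ex : Finset ℕ, (Ex.card : ℝ) ≤ (N : ℝ) ^ (2 * θ j - 1) * Real.log N ^ B ∧
    ∀ b ∈ I, b ∉ Ex → ∀ x ∈ Icc 1 ⌈Real.log N ^ V⌉₊,
      S (x * N / ⌈Real.log N ^ V⌉₊) ⌊((⌊(N : ℝ) * Real.log N ^ A₀⌋₊ : ℕ) : ℝ) ^ θ j⌋₊ (fun q => b * u q) ≤
        N * 2 ^ U / Real.log N ^ U := by
  classical
  obtain ⟨t0, t1, t2⟩ := θ_bd j
  obtain ⟨κ, hκ⟩ : ∃ κ : ℝ, κ = (1 - θ j) / 2 := ⟨_, rfl⟩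
  have hκ0 : 0 < κ := by rw [hκ]; linarith
  obtain ⟨B, N1, HF⟩ := few_affine U κ 4 hκ0 (by norm_num)
  refine ⟨2 * V + 2 * A₀ + B + 1, ?_⟩
  have e1 := Real.tendsto_log_atTop.eventually_ge_atTop 8
  have e2 := Pool.Agent.H398R2.BV.ev_log 4 (A₀ + V) κ hκ0
  have e3 := Pool.Agent.H398R2.BV.ev_log (16 * ((N1 : ℝ) + 3)) V (1 / 2) (by norm_num)
  have e4 := Pool.Agent.H398R2.BV.ev_log 16 (V + V) 1 (by norm_num)
  obtain ⟨N2, HN2⟩ := eventually_atTop.1 ((tendsto_natCast_atTop_atTop (R := ℝ)).eventually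
    (e1.and (e2.and (e3.and (e4.and (eventually_ge_atTop 1))))))
  refine ⟨N2, fun N hN u hu I hI => ?_⟩
  obtain ⟨f1, f2, f3, f4, f5⟩ := HN2 N hN
  have hN0 : (0 : ℝ) < N := by linarith
  obtain ⟨L, hL⟩ : ∃ L, L = Real.log N := ⟨_, rfl⟩
  obtain ⟨K, hK⟩ : ∃ K : ℕ, K = ⌈Real.log N ^ V⌉₊ := ⟨_, rfl⟩
  obtain ⟨Q, hQ⟩ : ∃ Q : ℕ, Q = ⌊((⌊(N : ℝ) * Real.log N ^ A₀⌋₊ : ℕ) : ℝ) ^ θ j⌋₊ := ⟨_, rfl⟩
  rw [← hQ, ← hK]
  rw [← hL] at f1 f2 f3 f4 hK hQ ⊢
  have hLV : 1 ≤ L ^ V := one_le_pow₀ (by linarith)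
  have hLA : 1 ≤ L ^ A₀ := one_le_pow₀ (by linarith)
  have hK1 : L ^ V ≤ K := by rw [hK]; exact Nat.le_ceil _
  have hK2 : (K : ℝ) ≤ 2 * L ^ V := by
    have : (K : ℝ) < L ^ V + 1 := by rw [hK]; exact Nat.ceil_lt_add_one (by linarith)
    linarith
  have hK0 : (0 : ℝ) < K := by linarith
  have hKpos : 0 < K := by exact_mod_cast hK0
  have hQle : (Q : ℝ) ≤ (N * L ^ A₀) ^ θ j := by
    rw [hQ]
    refine (Nat.floor_le (by positivity)).trans ?_
    exact Real.rpow_le_rpow (Nat.cast_nonneg _) (Nat.floor_le (by positivity)) t0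
  have hQle2 : (Q : ℝ) ≤ (N : ℝ) ^ θ j * L ^ A₀ := by
    refine hQle.trans ?_
    rw [Real.mul_rpow hN0.le (by positivity)]
    apply mul_le_mul_of_nonneg_left _ (by positivity)
    calc (L ^ A₀) ^ θ j ≤ (L ^ A₀) ^ (1 : ℝ) := Real.rpow_le_rpow_of_exponent_le hLA t1.le
      _ = _ := Real.rpow_one _
  -- the grid
  have hNK : 16 * ((N1 : ℝ) + 3) * L ^ V ≤ N := by
    refine f3.trans ?_
    calc (N : ℝ) ^ (1 / 2 : ℝ) ≤ (N : ℝ) ^ (1 : ℝ) := Real.rpow_le_rpow_of_exponent_le f5 (by norm_num)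
      _ = N := Real.rpow_one _
  have hN1r : (0 : ℝ) ≤ N1 := Nat.cast_nonneg _
  have h2K : ((N1 : ℝ) + 3) ≤ N / (2 * K) := by
    rw [le_div_iff₀ (by positivity)]
    calc ((N1 : ℝ) + 3) * (2 * K) ≤ (N1 + 3) * (2 * (2 * L ^ V)) := by
          apply mul_le_mul_of_nonneg_left _ (by positivity)
          linarith
      _ ≤ 16 * ((N1 : ℝ) + 3) * L ^ V := by nlinarith
      _ ≤ N := hNK
  have hgr : ∀ x : ℕ, 1 ≤ x → (N : ℝ) / (2 * K) ≤ ((x * N / K : ℕ) : ℝ) := by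
    intro x hx
    have h1 : (N : ℝ) / K ≤ (((x * N / K : ℕ) : ℝ)) + 1 := by
      rw [div_le_iff₀ hK0]
      have h2 := Nat.lt_div_mul_add (a := x * N) hKpos
      have h3 : N ≤ (x * N / K + 1) * K := by nlinarith
      exact_mod_cast h3
    have h3 : (N : ℝ) / K = N / (2 * K) + N / (2 * K) := by
      field_simp
      ring
    linarith
  have hsq : (2 * (K : ℝ)) ≤ N / (2 * K) := by
    rw [le_div_iff₀ (by positivity)]
    rw [Real.rpow_one, pow_add] at f4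
    calc 2 * (K : ℝ) * (2 * K) ≤ 2 * (2 * L ^ V) * (2 * (2 * L ^ V)) :=
          mul_le_mul (by linarith) (by linarith) (by positivity) (by positivity)
      _ = 16 * (L ^ V * L ^ V) := by ring
      _ ≤ N := f4
  obtain ⟨Ej, hEj⟩ : ∃ Ej : ℕ → Finset ℕ, Ej = fun x => I.filter (fun b =>
      ((x * N / K : ℕ) : ℝ) / Real.log ((x * N / K : ℕ) : ℝ) ^ U < S (x * N / K) Q (fun q => b * u q)) := ⟨_, rfl⟩
  have hcard : ∀ x ∈ Icc 1 K, ((Ej x).card : ℝ) ≤ 2 * K * ((N : ℝ) ^ (2 * θ j - 1) * L ^ (2 * A₀ + B)) := by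
    intro x hx
    rw [mem_Icc] at hx
    have g1 := hgr x hx.1
    obtain ⟨y, hyd⟩ : ∃ y : ℕ, y = x * N / K := ⟨_, rfl⟩
    have hyN : y ≤ N := by
      rw [hyd]
      apply Nat.div_le_of_le_mul
      exact Nat.mul_le_mul_right N hx.2
    have hyN' : (y : ℝ) ≤ N := by exact_mod_cast hyN
    rw [← hyd] at g1
    have hy3 : (N1 : ℝ) + 3 ≤ y := h2K.trans g1
    have hy0 : (0 : ℝ) < y := by linarith
    have hNy2 : (N : ℝ) ≤ (y : ℝ) ^ (2 : ℝ) := by
      have h3 : (N : ℝ) = (N / (2 * K)) * (2 * K) := by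
        field_simp
      rw [Real.rpow_two, pow_two]
      calc (N : ℝ) = (N / (2 * K)) * (2 * K) := h3
        _ ≤ y * y := mul_le_mul g1 (hsq.trans g1) (by positivity) hy0.le
    have h1 := HF y (by
      have : (N1 : ℝ) ≤ y := by linarith
      exact_mod_cast this) Q (by
      -- Q ≤ y ^ (1 - κ)
      have h2 : (N : ℝ) ^ θ j * L ^ A₀ ≤ ((N : ℝ) / (2 * K)) ^ (1 - κ) := by
        rw [Real.div_rpow hN0.le (by positivity), le_div_iff₀ (by positivity)]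
        have h3 : (2 * (K : ℝ)) ^ (1 - κ) ≤ (2 * (K : ℝ)) ^ (1 : ℝ) :=
          Real.rpow_le_rpow_of_exponent_le (by linarith) (by linarith)
        rw [Real.rpow_one] at h3
        have h4 : L ^ A₀ * (2 * (K : ℝ)) ^ (1 - κ) ≤ (N : ℝ) ^ κ := by
          calc L ^ A₀ * (2 * (K : ℝ)) ^ (1 - κ) ≤ L ^ A₀ * (2 * (2 * L ^ V)) := by
                apply mul_le_mul_of_nonneg_left _ (by positivity)
                linarith
            _ = 4 * L ^ (A₀ + V) := by rw [pow_add]; ring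
            _ ≤ _ := f2
        calc (N : ℝ) ^ θ j * L ^ A₀ * (2 * (K : ℝ)) ^ (1 - κ) = (N : ℝ) ^ θ j * (L ^ A₀ * (2 * (K : ℝ)) ^ (1 - κ)) := by
              ring
          _ ≤ (N : ℝ) ^ θ j * (N : ℝ) ^ κ := mul_le_mul_of_nonneg_left h4 (by positivity)
          _ = (N : ℝ) ^ (1 - κ) := by
            rw [← Real.rpow_add hN0]
            congr 1
            rw [hκ]
            ring
      have hκ1 : κ ≤ 1 := by rw [hκ]; linarith
      exact (hQle2.trans h2).trans (Real.rpow_le_rpow (by positivity) g1 (by linarith))) u (fun _ => 0) hu (Ej x) (by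
      intro b hb
      rw [hEj] at hb
      simp only at hb
      rw [mem_filter, ← hyd] at hb
      refine ⟨?_, ?_⟩
      · calc (b : ℝ) ≤ (N : ℝ) ^ (2 : ℝ) := hI b hb.1
          _ ≤ ((y : ℝ) ^ (2 : ℝ)) ^ (2 : ℝ) := Real.rpow_le_rpow hN0.le hNy2 (by norm_num)
          _ = (y : ℝ) ^ (4 : ℝ) := by
            rw [← Real.rpow_mul hy0.le]
            norm_num
      · simpa using hb.2)
    refine h1.trans ?_
    have h2 : (Q : ℝ) ^ 2 / y ≤ 2 * K * ((N : ℝ) ^ (2 * θ j - 1) * L ^ (2 * A₀)) := by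
      rw [div_le_iff₀ hy0]
      have h3 : (Q : ℝ) ^ 2 ≤ (N : ℝ) ^ (2 * θ j) * L ^ (2 * A₀) := by
        calc (Q : ℝ) ^ 2 ≤ ((N : ℝ) ^ θ j * L ^ A₀) ^ 2 := pow_le_pow_left₀ (Nat.cast_nonneg _) hQle2 2
          _ = (N : ℝ) ^ (2 * θ j) * L ^ (2 * A₀) := by
            rw [mul_pow, ← pow_mul, mul_comm A₀ 2]
            congr 1
            rw [← Real.rpow_natCast, ← Real.rpow_mul hN0.le]
            congr 1
            push_cast
            ring
      have h4 : (N : ℝ) ^ (2 * θ j) = (N : ℝ) ^ (2 * θ j - 1) * N := by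
        conv_rhs => rw [← Real.rpow_one (N : ℝ), ← Real.rpow_mul hN0.le, one_mul]
        rw [← Real.rpow_add hN0]
        congr 1
        ring
      have h5 : (N : ℝ) ≤ 2 * K * y := by
        rw [div_le_iff₀ (by positivity)] at g1
        linarith
      calc (Q : ℝ) ^ 2 ≤ (N : ℝ) ^ (2 * θ j - 1) * N * L ^ (2 * A₀) := by rw [← h4]; exact h3
        _ ≤ (N : ℝ) ^ (2 * θ j - 1) * (2 * K * y) * L ^ (2 * A₀) := by
            apply mul_le_mul_of_nonneg_right _ (by positivity)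
            exact mul_le_mul_of_nonneg_left h5 (by positivity)
        _ = _ := by ring
    have h3 : Real.log y ^ B ≤ L ^ B := by
      rw [hL]
      apply pow_le_pow_left₀ (Real.log_nonneg (by linarith))
      exact Real.log_le_log hy0 hyN'
    calc (Q : ℝ) ^ 2 / y * Real.log y ^ B ≤ 2 * K * ((N : ℝ) ^ (2 * θ j - 1) * L ^ (2 * A₀)) * L ^ B :=
          mul_le_mul h2 h3 (by apply pow_nonneg; exact Real.log_nonneg (by linarith)) (by positivity)
      _ = _ := by rw [pow_add]; ring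
  refine ⟨(Icc 1 K).biUnion Ej, ?_, ?_⟩
  · have h1 : (((Icc 1 K).biUnion Ej).card : ℝ) ≤ ∑ x ∈ Icc 1 K, ((Ej x).card : ℝ) := by
      exact_mod_cast card_biUnion_le
    have h2 : ∑ x ∈ Icc 1 K, ((Ej x).card : ℝ) ≤ K * (2 * K * ((N : ℝ) ^ (2 * θ j - 1) * L ^ (2 * A₀ + B))) := by
      refine (sum_le_sum hcard).trans (le_of_eq ?_)
      rw [sum_const, Nat.card_Icc, nsmul_eq_mul, Nat.add_sub_cancel]
    have h3 : (K : ℝ) * (2 * K) ≤ L ^ (2 * V + 1) := by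
      calc (K : ℝ) * (2 * K) ≤ (2 * L ^ V) * (2 * (2 * L ^ V)) :=
            mul_le_mul hK2 (by linarith) (by positivity) (by positivity)
        _ = 8 * L ^ (2 * V) := by rw [two_mul V, pow_add]; ring
        _ ≤ L * L ^ (2 * V) := mul_le_mul_of_nonneg_right f1 (by positivity)
        _ = _ := by ring
    calc (((Icc 1 K).biUnion Ej).card : ℝ) ≤ K * (2 * K * ((N : ℝ) ^ (2 * θ j - 1) * L ^ (2 * A₀ + B))) := h1.trans h2
      _ = (K * (2 * K)) * ((N : ℝ) ^ (2 * θ j - 1) * L ^ (2 * A₀ + B)) := by ring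
      _ ≤ L ^ (2 * V + 1) * ((N : ℝ) ^ (2 * θ j - 1) * L ^ (2 * A₀ + B)) := mul_le_mul_of_nonneg_right h3 (by positivity)
      _ = _ := by
        have : 2 * V + 2 * A₀ + B + 1 = (2 * V + 1) + (2 * A₀ + B) := by ring
        rw [this, pow_add L (2 * V + 1)]
        ring
  · intro b hb hbE x hx
    have hx' := mem_Icc.1 hx
    have g1 := hgr x hx'.1
    have hb' : S (x * N / K) Q (fun q => b * u q) ≤ ((x * N / K : ℕ) : ℝ) / Real.log ((x * N / K : ℕ) : ℝ) ^ U := by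
      by_contra hcon
      apply hbE
      rw [mem_biUnion]
      refine ⟨x, hx, ?_⟩
      rw [hEj]
      simp only
      rw [mem_filter]
      exact ⟨hb, not_le.1 hcon⟩
    refine hb'.trans ?_
    obtain ⟨y, hyd⟩ : ∃ y : ℕ, y = x * N / K := ⟨_, rfl⟩
    have hyN : (y : ℝ) ≤ N := by
      have : y ≤ N := by
        rw [hyd]
        apply Nat.div_le_of_le_mul
        exact Nat.mul_le_mul_right N hx'.2
      exact_mod_cast this
    rw [← hyd] at g1 ⊢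
    have hy0 : (0 : ℝ) < y := by linarith
    have h1 : L / 2 ≤ Real.log y := by
      have h2 : (N : ℝ) ≤ (y : ℝ) ^ 2 := by
        have h3 : (N : ℝ) = (N / (2 * K)) * (2 * K) := by
          field_simp
        rw [pow_two]
        calc (N : ℝ) = (N / (2 * K)) * (2 * K) := h3
          _ ≤ y * y := mul_le_mul g1 (hsq.trans g1) (by positivity) hy0.le
      have h3 := Real.log_le_log hN0 h2
      rw [Real.log_pow, ← hL] at h3
      push_cast at h3
      linarith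
    have hL2 : 0 < L / 2 := by linarith
    rw [div_le_div_iff₀ (pow_pos (by linarith) U) (by positivity)]
    have h3 : L ^ U ≤ 2 ^ U * Real.log y ^ U := by
      rw [← mul_pow]
      exact pow_le_pow_left₀ (by linarith) (by linarith) U
    calc (y : ℝ) * L ^ U ≤ N * (2 ^ U * Real.log y ^ U) := mul_le_mul hyN h3 (by positivity) hN0.le
      _ = _ := by ring

end Pool.Agent.Q148.TD
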