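import Pool.Agent.Q148.TD.Ft

/-! The divisor sum and its expected value. -/

set_option autoImplicit false

namespace Pool.Agent.Q148.TD

open Finset Filter
open Pool.Agent.Q148.BA (PP mem_PP PP_mono gh Seq)
open Pool.Agent.Y882.EHF (S few_affine)

/-- the error terms -/
theorem err_small (r A₀ A : ℕ) : ∃ U V N0 : ℕ, ∀ N : ℕ, N0 ≤ N → ∀ (y h : ℕ) (v c : ℕ → ℕ), y ≤ N →
    Seq N A₀ h v c → Unim N v →
    (∀ x ∈ Icc 1 ⌈Real.log N ^ V⌉₊,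
      S (x * N / ⌈Real.log N ^ V⌉₊) ⌊((⌊(N : ℝ) * Real.log N ^ A₀⌋₊ : ℕ) : ℝ) ^ θ (r + 1)⌋₊ c ≤
        N * 2 ^ U / Real.log N ^ U) →
    |∑ p ∈ PP y, (tauk (r + 2) (v p) : ℝ) - ∑ p ∈ PP y, WW (r + 1) (sh h) (v p)| ≤ N / Real.log N ^ A := by
  obtain ⟨Cq, hCq, Hq⟩ := cnt_le r
  obtain ⟨c1, hc1⟩ : ∃ c1 : ℕ, c1 = 2 ^ (2 * (r + 1) + 1) := ⟨_, rfl⟩
  obtain ⟨c2, hc2⟩ : ∃ c2 : ℕ, c2 = 2 ^ (r + 1 + 1) := ⟨_, rfl⟩
  obtain ⟨V, hV⟩ : ∃ V : ℕ, V = c2 + A + 1 := ⟨_, rfl⟩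
  obtain ⟨ρ, hρ⟩ : ∃ ρ : ℕ, ρ = V + c1 + A + 1 := ⟨_, rfl⟩
  obtain ⟨U, hU⟩ : ∃ U : ℕ, U = V + ρ + A + 1 := ⟨_, rfl⟩
  obtain ⟨D, hD⟩ : ∃ D : ℝ, D = (r + 2) * (3 * (4 * 2 ^ U + 12 * 2 ^ c1 + 2 * 2 ^ c2) + 1) := ⟨_, rfl⟩
  obtain ⟨t0, t1, t2⟩ := θ_bd (r + 1)
  have e1 := Real.tendsto_log_atTop.eventually_ge_atTop (max 2 D)
  have e2 := Pool.Agent.H398R2.BV.ev_log (Cq * 2 ^ r) (A₀ + r + (A + 1)) (1 - θ (r + 1)) (by linarith)
  have e3 := Pool.Agent.H398R2.BV.ev_log 1 A₀ (1 - θ (r + 1)) (by linarith)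
  have e4 := Pool.Agent.H398R2.BV.ev_log 2 V 1 (by norm_num)
  obtain ⟨N2, HN2⟩ := eventually_atTop.1 ((tendsto_natCast_atTop_atTop (R := ℝ)).eventually
    (e1.and (e2.and (e3.and (e4.and (eventually_ge_atTop 1))))))
  refine ⟨U, V, N2, fun N hN y h v c hy HS HU hS => ?_⟩
  obtain ⟨f1, f2, f3, f5, f4⟩ := HN2 N hN
  have hN0 : (0 : ℝ) < N := by linarith
  have hN1 : 1 ≤ N := by exact_mod_cast f4
  obtain ⟨L, hL⟩ : ∃ L, L = Real.log N := ⟨_, rfl⟩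
  obtain ⟨K, hK⟩ : ∃ K : ℕ, K = ⌈Real.log N ^ V⌉₊ := ⟨_, rfl⟩
  obtain ⟨X, hX⟩ : ∃ X : ℕ, X = ⌊(N : ℝ) * Real.log N ^ A₀⌋₊ := ⟨_, rfl⟩
  obtain ⟨Q, hQ⟩ : ∃ Q : ℕ, Q = ⌊(X : ℝ) ^ θ (r + 1)⌋₊ := ⟨_, rfl⟩
  rw [← hX, ← hQ, ← hK] at hS
  have hle := HS.le
  rw [← hL] at f1 f2 f3 f5 hK hX hS hle ⊢
  have hL2 : 2 ≤ L := (le_max_left _ _).trans f1
  have hLD : D ≤ L := (le_max_right _ _).trans f1
  have hLV : 1 ≤ L ^ V := one_le_pow₀ (by linarith)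
  have hLA : 1 ≤ L ^ A₀ := one_le_pow₀ (by linarith)
  have hK1 : L ^ V ≤ K := by rw [hK]; exact Nat.le_ceil _
  have hK2 : (K : ℝ) ≤ 2 * L ^ V := by
    have : (K : ℝ) < L ^ V + 1 := by rw [hK]; exact Nat.ceil_lt_add_one (by linarith)
    linarith
  have hK0 : (0 : ℝ) < K := by linarith
  have hKpos : 1 ≤ K := by exact_mod_cast hK0
  have hXle : (X : ℝ) ≤ N * L ^ A₀ := by rw [hX]; exact Nat.floor_le (by positivity)
  have hQle : (Q : ℝ) ≤ (N : ℝ) ^ θ (r + 1) * L ^ A₀ := by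
    rw [hQ]
    refine (Nat.floor_le (by positivity)).trans ?_
    refine (Real.rpow_le_rpow (Nat.cast_nonneg _) hXle t0).trans ?_
    rw [Real.mul_rpow hN0.le (by positivity)]
    apply mul_le_mul_of_nonneg_left _ (by positivity)
    calc (L ^ A₀) ^ θ (r + 1) ≤ (L ^ A₀) ^ (1 : ℝ) := Real.rpow_le_rpow_of_exponent_le hLA t1.le
      _ = _ := Real.rpow_one _
  have hNθ : (N : ℝ) ^ θ (r + 1) * (N : ℝ) ^ (1 - θ (r + 1)) = N := by
    rw [← Real.rpow_add hN0]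
    have : θ (r + 1) + (1 - θ (r + 1)) = 1 := by ring
    rw [this, Real.rpow_one]
  have hQN : (Q : ℝ) ≤ N := by
    refine hQle.trans ?_
    rw [one_mul] at f3
    calc (N : ℝ) ^ θ (r + 1) * L ^ A₀ ≤ (N : ℝ) ^ θ (r + 1) * (N : ℝ) ^ (1 - θ (r + 1)) :=
          mul_le_mul_of_nonneg_left f3 (by positivity)
      _ = N := hNθ
  have hQN' : Q ≤ N := by exact_mod_cast hQN
  have hlQ : 1 + Real.log Q ≤ 2 * L := by
    rcases Nat.eq_zero_or_pos Q with h0 | h0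
    · rw [h0]
      simp
      linarith
    · have : Real.log Q ≤ L := by
        rw [hL]
        exact Real.log_le_log (by exact_mod_cast h0) hQN
      linarith
  have hlQ0 : 0 ≤ 1 + Real.log Q := by
    have := Real.log_natCast_nonneg Q
    linarith
  -- the comparison
  have h1 := compare (r + 1) N K A₀ h y X Q v c HS HU hKpos hN1 hy (by omega) (by
    intro p hp hpN
    rw [hX]
    exact Nat.le_floor (hle p hp hpN)) (by
    intro m hm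
    rw [hQ]
    exact Q_of (r + 1) X m hm)
  refine h1.trans ?_
  have h2 := wsum (r + 1) N K Q h c (N * 2 ^ U / L ^ U) (L ^ ρ) (by positivity) hN1 hQN' HS.cop hS
  rw [← hc1, ← hc2] at h2
  -- the single terms
  have s1 : 2 * (K : ℝ) * (L ^ ρ * (N * 2 ^ U / L ^ U)) ≤ 4 * 2 ^ U * (N / L ^ (A + 1)) := by
    have e : L ^ U = L ^ V * L ^ ρ * L ^ (A + 1) := by
      rw [hU, show V + ρ + A + 1 = V + ρ + (A + 1) by ring, pow_add, pow_add]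
    rw [e]
    calc 2 * (K : ℝ) * (L ^ ρ * (N * 2 ^ U / (L ^ V * L ^ ρ * L ^ (A + 1)))) ≤
        2 * (2 * L ^ V) * (L ^ ρ * (N * 2 ^ U / (L ^ V * L ^ ρ * L ^ (A + 1)))) := by
          apply mul_le_mul_of_nonneg_right _ (by positivity)
          linarith
      _ = _ := by field_simp; ring
  have s2 : 2 * (K : ℝ) * (3 * N / L ^ ρ * (1 + Real.log Q) ^ c1) ≤ 12 * 2 ^ c1 * (N / L ^ (A + 1)) := by
    have e : L ^ ρ = L ^ V * L ^ c1 * L ^ (A + 1) := by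
      rw [hρ, show V + c1 + A + 1 = V + c1 + (A + 1) by ring, pow_add, pow_add]
    have h3 : (1 + Real.log Q) ^ c1 ≤ 2 ^ c1 * L ^ c1 := by
      rw [← mul_pow]
      exact pow_le_pow_left₀ hlQ0 hlQ c1
    rw [e]
    calc 2 * (K : ℝ) * (3 * N / (L ^ V * L ^ c1 * L ^ (A + 1)) * (1 + Real.log Q) ^ c1) ≤
        2 * (2 * L ^ V) * (3 * N / (L ^ V * L ^ c1 * L ^ (A + 1)) * (2 ^ c1 * L ^ c1)) := by
          apply mul_le_mul (by linarith) _ (by positivity) (by positivity)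
          exact mul_le_mul_of_nonneg_left h3 (by positivity)
      _ = _ := by field_simp; ring
  have s3 : ((N : ℝ) / K + 1) * (1 + Real.log Q) ^ c2 ≤ 2 * 2 ^ c2 * (N / L ^ (A + 1)) := by
    have h3 : (1 + Real.log Q) ^ c2 ≤ 2 ^ c2 * L ^ c2 := by
      rw [← mul_pow]
      exact pow_le_pow_left₀ hlQ0 hlQ c2
    have h4 : (N : ℝ) / K + 1 ≤ 2 * (N / L ^ V) := by
      have h5 : (N : ℝ) / K ≤ N / L ^ V := div_le_div_of_nonneg_left hN0.le (by linarith) hK1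
      have h6 : 1 ≤ (N : ℝ) / L ^ V := by
        rw [le_div_iff₀ (by linarith), one_mul]
        rw [Real.rpow_one] at f5
        linarith
      linarith
    have e : L ^ V = L ^ c2 * L ^ (A + 1) := by
      rw [hV, show c2 + A + 1 = c2 + (A + 1) by ring, pow_add]
    calc ((N : ℝ) / K + 1) * (1 + Real.log Q) ^ c2 ≤ 2 * (N / L ^ V) * (2 ^ c2 * L ^ c2) :=
          mul_le_mul h4 h3 (by positivity) (by positivity)
      _ = _ := by rw [e]; field_simp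
  have s4 : (cnt (r + 1) Q : ℝ) ≤ 1 * (N / L ^ (A + 1)) := by
    refine (Hq Q).trans ?_
    have h3 : (1 + Real.log Q) ^ r ≤ 2 ^ r * L ^ r := by
      rw [← mul_pow]
      exact pow_le_pow_left₀ hlQ0 hlQ r
    rw [one_mul, le_div_iff₀ (by positivity)]
    calc Cq * Q * (1 + Real.log Q) ^ r * L ^ (A + 1) ≤
        Cq * ((N : ℝ) ^ θ (r + 1) * L ^ A₀) * (2 ^ r * L ^ r) * L ^ (A + 1) := by
          apply mul_le_mul_of_nonneg_right _ (by positivity)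
          apply mul_le_mul _ h3 (by positivity) (by positivity)
          exact mul_le_mul_of_nonneg_left hQle (by linarith)
      _ = (N : ℝ) ^ θ (r + 1) * (Cq * 2 ^ r * L ^ (A₀ + r + (A + 1))) := by
          rw [pow_add, pow_add]
          ring
      _ ≤ (N : ℝ) ^ θ (r + 1) * (N : ℝ) ^ (1 - θ (r + 1)) := mul_le_mul_of_nonneg_left f2 (by positivity)
      _ = N := hNθ
  obtain ⟨w, hw⟩ : ∃ w : ℝ, w = N / L ^ (A + 1) := ⟨_, rfl⟩
  have hw0 : 0 ≤ w := by rw [hw]; positivity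
  rw [← hw] at s1 s2 s3 s4
  have h3 : ∑ m ∈ (Icc 1 Q).filter (fun m => m.Coprime h), (tauk (r + 1) m : ℝ) * DD N K m (c m) ≤
      (4 * 2 ^ U + 12 * 2 ^ c1 + 2 * 2 ^ c2) * w := by
    refine h2.trans ?_
    linarith
  have h4 : (((r + 1 : ℕ) : ℝ) + 1) * (3 * ∑ m ∈ (Icc 1 Q).filter (fun m => m.Coprime h),
      (tauk (r + 1) m : ℝ) * DD N K m (c m) + cnt (r + 1) Q) ≤ D * w := by
    rw [hD]
    push_cast
    have e : ((r : ℝ) + 2) * (3 * (4 * 2 ^ U + 12 * 2 ^ c1 + 2 * 2 ^ c2) + 1) * w =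
      (r + 1 + 1) * (3 * ((4 * 2 ^ U + 12 * 2 ^ c1 + 2 * 2 ^ c2) * w) + 1 * w) := by ring
    rw [e]
    apply mul_le_mul_of_nonneg_left _ (by positivity)
    linarith
  refine h4.trans ?_
  calc D * w ≤ L * w := mul_le_mul_of_nonneg_right hLD hw0
    _ = _ := by rw [hw, pow_succ]; field_simp

end Pool.Agent.Q148.TD
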