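import Pool.Agent.Q148.TD.Fu

/-! The asymptotic formula for one sequence. -/

set_option autoImplicit false

namespace Pool.Agent.Q148.TD

open Finset Filter
open Pool.Agent.Q148.BA (PP mem_PP PP_mono gh gh_nn Seq pi_unif)
open Pool.Agent.Y882.EHF (S few_affine)

theorem WW_nn (j : ℕ) (hj : 1 ≤ j) (h n : ℕ) : 0 ≤ WW j (sh h) n := by
  unfold WW
  apply sum_nonneg
  intro i _
  unfold Wi
  apply sum_nonneg
  intro g hg
  have hg' := (mem_TT hj i g).1 hg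
  rw [← gh_eq h _ (prod_one g hg'.1)]
  exact gh_nn h _

theorem WW_mono (j : ℕ) (hj : 1 ≤ j) (h n n' : ℕ) (hn : n ≤ n') : WW j (sh h) n ≤ WW j (sh h) n' := by
  unfold WW
  apply sum_le_sum
  intro i _
  unfold Wi
  apply sum_le_sum_of_subset_of_nonneg (TT_mono hj i hn)
  intro g hg _
  have hg' := (mem_TT hj i g).1 hg
  rw [← gh_eq h _ (prod_one g hg'.1)]
  exact gh_nn h _

theorem pow_close (a b M d : ℝ) (r : ℕ) (ha : 0 ≤ a) (hb : 0 ≤ b) (haM : a ≤ M) (hbM : b ≤ M) (h : |a - b| ≤ d) :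
    |a ^ (r + 1) - b ^ (r + 1)| ≤ (r + 1) * (d * M ^ r) := by
  have hM : 0 ≤ M := ha.trans haM
  have hd := abs_le.1 h
  rcases le_total b a with h1 | h1
  · have h2 := (pow_sub_le hb h1 r).2
    rw [abs_of_nonneg (by
      have := pow_le_pow_left₀ hb h1 (r + 1)
      linarith)]
    refine h2.trans (mul_le_mul_of_nonneg_left ?_ (by positivity))
    exact mul_le_mul hd.2 (pow_le_pow_left₀ ha haM r) (by positivity) (by linarith)
  · have h2 := (pow_sub_le ha h1 r).2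
    rw [abs_sub_comm, abs_of_nonneg (by
      have := pow_le_pow_left₀ ha h1 (r + 1)
      linarith)]
    refine h2.trans (mul_le_mul_of_nonneg_left ?_ (by positivity))
    exact mul_le_mul (by linarith) (pow_le_pow_left₀ hb hbM r) (by positivity) (by linarith)

/-- the constant is not too small -/
theorem CC_low (j : ℕ) : ∃ N0 : ℕ, ∀ N : ℕ, N0 ≤ N → ∀ h Y : ℕ, 1 ≤ h → h ≤ N ^ 2 →
    1 / Real.log N ≤ CC j h Y := by
  obtain ⟨C, hC, N1, H⟩ := rr_bd
  have e2' := Pool.Agent.H398R2.BV.ev_log (2 * C ^ j) j 1 (by norm_num)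
  have e2 : ∀ᶠ X : ℝ in atTop, 2 * C ^ j * Real.log (2 * Real.log X) ^ j ≤ (2 * Real.log X) ^ (1 : ℝ) :=
    (Real.tendsto_log_atTop.const_mul_atTop (show (0 : ℝ) < 2 by norm_num)).eventually e2'
  obtain ⟨N2, HN2⟩ := eventually_atTop.1 ((tendsto_natCast_atTop_atTop (R := ℝ)).eventually
    (e2.and (Real.tendsto_log_atTop.eventually_ge_atTop 1)))
  refine ⟨max N1 N2, fun N hN h Y hh hhN => ?_⟩
  obtain ⟨f1, f2⟩ := HN2 N ((le_max_right _ _).trans hN)
  obtain ⟨g1, _⟩ := H N ((le_max_left _ _).trans hN) h hh hhN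
  obtain ⟨c1, c2⟩ := CC_pos j h Y hh
  rw [Real.rpow_one] at f1
  have hR := RR_ge h
  have h1 : RR h ^ j ≤ Real.log N := by
    calc RR h ^ j ≤ (C * Real.log (2 * Real.log N)) ^ j := pow_le_pow_left₀ (by linarith) g1 j
      _ = C ^ j * Real.log (2 * Real.log N) ^ j := by rw [mul_pow]
      _ ≤ Real.log N := by linarith
  rw [div_le_iff₀ (by linarith)]
  calc 1 ≤ RR h ^ j * CC j h Y := c1
    _ ≤ Real.log N * CC j h Y := mul_le_mul_of_nonneg_right h1 c2.le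
    _ = _ := mul_comm _ _

/-- the values at the large and at the small elements -/
theorem near (r A₀ : ℕ) (ε1 ε2 η : ℝ) (h1 : 0 < ε1) (h1' : ε1 ≤ 1) (h2 : 0 < ε2) (h2' : ε2 ≤ 1) (hη : 0 < η) (hη1 : η ≤ 1) :
    ∃ N0 : ℕ, ∀ N : ℕ, N0 ≤ N → ∀ h n Y : ℕ, 1 ≤ h → h ≤ N ^ 2 → N ^ 2 ≤ Y → (n : ℝ) ≤ N * Real.log N ^ A₀ →
      (η * N ≤ n → |WW (r + 1) (sh h) n - CC (r + 1) h Y * Real.log N ^ (r + 1) / (r + 1).factorial| ≤
        (ε1 * 2 ^ (r + 1) + (r + 1) * 2 ^ r * ε2) * (CC (r + 1) h Y * Real.log N ^ (r + 1))) ∧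
      (n ≤ N → |WW (r + 1) (sh h) n - CC (r + 1) h Y * Real.log N ^ (r + 1) / (r + 1).factorial| ≤
        2 * (CC (r + 1) h Y * Real.log N ^ (r + 1))) := by
  obtain ⟨N1, H⟩ := WW_asym r ε1 h1
  have e1 := Real.tendsto_log_atTop.eventually_ge_atTop (max 1 (-Real.log η / ε2))
  have e2' := Pool.Agent.H398R2.BV.ev_log (A₀ / ε2) 1 1 (by norm_num)
  have e2 : ∀ᶠ X : ℝ in atTop, A₀ / ε2 * Real.log (Real.log X) ^ 1 ≤ (Real.log X) ^ (1 : ℝ) :=
    Real.tendsto_log_atTop.eventually e2'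
  have e3 := Pool.Agent.H398R2.BV.ev_log 1 A₀ 1 (by norm_num)
  have e4 := eventually_ge_atTop (1 / η ^ 2)
  obtain ⟨N2, HN2⟩ := eventually_atTop.1 ((tendsto_natCast_atTop_atTop (R := ℝ)).eventually
    (e1.and (e2.and (e3.and (e4.and (eventually_ge_atTop 1))))))
  refine ⟨max N1 N2, fun N hN h n Y hh hhN hNY hn => ?_⟩
  obtain ⟨f1, f2, f3, f4, f5⟩ := HN2 N ((le_max_right _ _).trans hN)
  have hN1 := (le_max_left _ _).trans hN
  have hN0 : (0 : ℝ) < N := by linarith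
  obtain ⟨L, hL⟩ : ∃ L, L = Real.log N := ⟨_, rfl⟩
  obtain ⟨Cc, hCc⟩ : ∃ Cc, Cc = CC (r + 1) h Y := ⟨_, rfl⟩
  have hCp : 0 < Cc := by rw [hCc]; exact (CC_pos (r + 1) h Y hh).2
  rw [← hL] at f1 f2 f3 hn ⊢
  rw [← hCc]
  rw [pow_one, Real.rpow_one] at f2
  rw [one_mul, Real.rpow_one] at f3
  have hL1 : 1 ≤ L := (le_max_left _ _).trans f1
  have hLη : -Real.log η / ε2 ≤ L := (le_max_right _ _).trans f1
  have hnN2 : (n : ℝ) ≤ (N : ℝ) ^ 2 := by
    rw [pow_two]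
    exact hn.trans (mul_le_mul_of_nonneg_left f3 hN0.le)
  have hnY : n ≤ Y := by
    have : n ≤ N ^ 2 := by exact_mod_cast hnN2
    omega
  have hf1 : (1 : ℝ) ≤ ((r + 1).factorial : ℝ) := by exact_mod_cast Nat.factorial_pos (r + 1)
  constructor
  · intro hηn
    have hn0 : (0 : ℝ) < n := lt_of_lt_of_le (by positivity) hηn
    have hNn : N ≤ n ^ 2 := by
      have h3 : (N : ℝ) ≤ (n : ℝ) ^ 2 := by
        rw [div_le_iff₀ (by positivity)] at f4
        calc (N : ℝ) = 1 * N := (one_mul _).symm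
          _ ≤ (N * η ^ 2) * N := mul_le_mul_of_nonneg_right f4 hN0.le
          _ = (η * N) ^ 2 := by ring
          _ ≤ (n : ℝ) ^ 2 := pow_le_pow_left₀ (by positivity) hηn 2
      exact_mod_cast h3
    have h3 := H N hN1 h hh hhN n Y hNn hnY
    rw [← hCc] at h3
    obtain ⟨l, hl⟩ : ∃ l, l = Real.log n := ⟨_, rfl⟩
    rw [← hl] at h3
    have hll : |l - L| ≤ ε2 * L := by
      rw [abs_le]
      constructor
      · have h4 : Real.log η + L ≤ l := by
          rw [hL, hl, ← Real.log_mul hη.ne' hN0.ne']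
          exact Real.log_le_log (by positivity) hηn
        rw [div_le_iff₀ h2] at hLη
        linarith
      · have h4 : l ≤ L + A₀ * Real.log L := by
          rw [hl]
          refine (Real.log_le_log hn0 hn).trans (le_of_eq ?_)
          rw [Real.log_mul hN0.ne' (by positivity), Real.log_pow, ← hL]
        have h5 : A₀ * Real.log L ≤ ε2 * L := by
          rw [div_mul_eq_mul_div, div_le_iff₀ h2] at f2
          linarith
        linarith
    have hl0 : 0 ≤ l := by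
      rw [hl]
      exact Real.log_natCast_nonneg n
    have hl2 : l ≤ 2 * L := by
      have := (abs_le.1 hll).2
      nlinarith
    have h4 := pow_close l L (2 * L) (ε2 * L) r hl0 (by linarith) hl2 (by linarith) hll
    have h5 : l ^ (r + 1) ≤ 2 ^ (r + 1) * L ^ (r + 1) := by
      rw [← mul_pow]
      exact pow_le_pow_left₀ hl0 hl2 _
    have e : WW (r + 1) (sh h) n - Cc * L ^ (r + 1) / (r + 1).factorial =
        (WW (r + 1) (sh h) n - Cc * l ^ (r + 1) / (r + 1).factorial) +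
        Cc / (r + 1).factorial * (l ^ (r + 1) - L ^ (r + 1)) := by ring
    rw [e]
    refine (abs_add_le _ _).trans ?_
    have k1 : |Cc / (r + 1).factorial * (l ^ (r + 1) - L ^ (r + 1))| ≤ Cc * ((r + 1) * (ε2 * L * (2 * L) ^ r)) := by
      rw [abs_mul, abs_of_nonneg (by positivity)]
      exact mul_le_mul (div_le_self hCp.le hf1) h4 (abs_nonneg _) hCp.le
    have k2 : ε1 * (Cc * l ^ (r + 1)) ≤ ε1 * (Cc * (2 ^ (r + 1) * L ^ (r + 1))) := by
      apply mul_le_mul_of_nonneg_left _ h1.le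
      exact mul_le_mul_of_nonneg_left h5 hCp.le
    have k3 : Cc * ((r + 1) * (ε2 * L * (2 * L) ^ r)) = (r + 1) * 2 ^ r * ε2 * (Cc * L ^ (r + 1)) := by
      rw [mul_pow]
      ring
    rw [k3] at k1
    have k4 : (ε1 * 2 ^ (r + 1) + (r + 1) * 2 ^ r * ε2) * (Cc * L ^ (r + 1)) =
      ε1 * (Cc * (2 ^ (r + 1) * L ^ (r + 1))) + (r + 1) * 2 ^ r * ε2 * (Cc * L ^ (r + 1)) := by ring
    rw [k4]
    linarith
  · intro hnN
    have h3 := H N hN1 h hh hhN N Y (by nlinarith [show 1 ≤ N from by exact_mod_cast f5]) (by nlinarith [show 1 ≤ N from by exact_mod_cast f5])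
    rw [← hCc, ← hL] at h3
    have h4 := WW_mono (r + 1) (by omega) h n N hnN
    have h5 := WW_nn (r + 1) (by omega) h n
    have h6 : Cc * L ^ (r + 1) / (r + 1).factorial ≤ Cc * L ^ (r + 1) := div_le_self (by positivity) hf1
    have h7 : 0 ≤ Cc * L ^ (r + 1) / (r + 1).factorial := by positivity
    have h8 := (abs_le.1 h3).2
    have h9 : ε1 * (Cc * L ^ (r + 1)) ≤ 1 * (Cc * L ^ (r + 1)) := mul_le_mul_of_nonneg_right h1' (by positivity)
    rw [abs_le]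
    constructor
    · linarith
    · linarith

/-- few primes with small values -/
theorem few_small (δ : ℝ) (hδ : 0 < δ) (hδ1 : δ ≤ 1) : ∃ N0 : ℕ, ∀ N : ℕ, N0 ≤ N → ∀ (y t : ℕ) (v : ℕ → ℕ), y ≤ N →
    Unim N v → (((PP y).filter (fun p => v p < t)).card : ℝ) * Real.log N ≤ 2 * t + 2 * δ * N ∧
    |((PP y).card : ℝ) * Real.log N - y| ≤ δ * N := by
  obtain ⟨N0, H⟩ := pi_unif δ hδ hδ1
  refine ⟨N0, fun N hN y t v hy hU => ⟨?_, H N hN y hy⟩⟩
  obtain ⟨A, B, hAB, hB2, hv⟩ := hU t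
  have hL : 0 ≤ Real.log N := Real.log_natCast_nonneg N
  have h1 : (PP y).filter (fun p => v p < t) ⊆ PP (min y B) \ PP (min y A) := by
    intro p hp
    rw [mem_filter, mem_PP] at hp
    have h2 := (hv p hp.1.1 (hp.1.2.trans hy)).1 hp.2
    rw [Finset.mem_sdiff, mem_PP, mem_PP]
    refine ⟨⟨hp.1.1, le_min hp.1.2 h2.2⟩, ?_⟩
    rintro ⟨_, h3⟩
    have := h3.trans (min_le_right _ _)
    omega
  have h2 := card_le_card h1
  have h3 := card_sdiff_add_card_eq_card (PP_mono (min_le_min (le_refl y) hAB))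
  have h4 : (((PP y).filter (fun p => v p < t)).card : ℝ) ≤ (PP (min y B)).card - (PP (min y A)).card := by
    have h5 : ((PP y).filter (fun p => v p < t)).card + (PP (min y A)).card ≤ (PP (min y B)).card := by omega
    have h6 : (((PP y).filter (fun p => v p < t)).card : ℝ) + (PP (min y A)).card ≤ (PP (min y B)).card := by
      exact_mod_cast h5
    linarith
  have g1 := abs_le.1 (H N hN (min y B) ((min_le_left _ _).trans hy))
  have g2 := abs_le.1 (H N hN (min y A) ((min_le_left _ _).trans hy))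
  have h5 : ((min y B : ℕ) : ℝ) ≤ ((min y A : ℕ) : ℝ) + 2 * t := by
    have : min y B ≤ min y A + 2 * t := by omega
    exact_mod_cast this
  have h6 := mul_le_mul_of_nonneg_right h4 hL
  rw [sub_mul] at h6
  linarith [g1.2, g2.1]

/-- **the asymptotic formula for one sequence** -/
theorem asym_one (r A₀ : ℕ) (ε : ℝ) (hε : 0 < ε) (hε1 : ε ≤ 1) : ∃ N0 : ℕ, ∀ N : ℕ, N0 ≤ N → ∀ (y h Y : ℕ) (v : ℕ → ℕ),
    y ≤ N → 1 ≤ h → h ≤ N ^ 2 → N ^ 2 ≤ Y → (∀ p : ℕ, p.Prime → p ≤ N → (v p : ℝ) ≤ N * Real.log N ^ A₀) → Unim N v →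
    |∑ p ∈ PP y, (tauk (r + 2) (v p) : ℝ) - ∑ p ∈ PP y, WW (r + 1) (sh h) (v p)| ≤ N / Real.log N ^ 2 →
    |∑ p ∈ PP y, (tauk (r + 2) (v p) : ℝ) - CC (r + 1) h Y / (r + 1).factorial * (y * Real.log N ^ r)| ≤
      ε * (CC (r + 1) h Y * (N * Real.log N ^ r)) := by
  obtain ⟨ε1, hε1d⟩ : ∃ e : ℝ, e = ε / (16 * 2 ^ (r + 1)) := ⟨_, rfl⟩
  obtain ⟨ε2, hε2d⟩ : ∃ e : ℝ, e = ε / (16 * ((r + 1) * 2 ^ r)) := ⟨_, rfl⟩
  obtain ⟨η, hηd⟩ : ∃ e : ℝ, e = ε / 32 := ⟨_, rfl⟩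
  obtain ⟨δ, hδd⟩ : ∃ e : ℝ, e = ε / 40 := ⟨_, rfl⟩
  have p1 : (1 : ℝ) ≤ 2 ^ (r + 1) := one_le_pow₀ (by norm_num)
  have p2 : (1 : ℝ) ≤ (r + 1) * 2 ^ r := by
    have : (1 : ℝ) ≤ 2 ^ r := one_le_pow₀ (by norm_num)
    have hr : (0 : ℝ) ≤ r := Nat.cast_nonneg r
    nlinarith
  have a1 : 0 < ε1 := by rw [hε1d]; positivity
  have a1' : ε1 ≤ 1 := by rw [hε1d, div_le_one (by positivity)]; linarith
  have a2 : 0 < ε2 := by rw [hε2d]; positivity
  have a2' : ε2 ≤ 1 := by rw [hε2d, div_le_one (by positivity)]; linarith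
  have a3 : 0 < η := by rw [hηd]; positivity
  have a3' : η ≤ 1 := by rw [hηd]; linarith
  have a4 : 0 < δ := by rw [hδd]; positivity
  have a4' : δ ≤ 1 := by rw [hδd]; linarith
  have hε3 : ε1 * 2 ^ (r + 1) + (r + 1) * 2 ^ r * ε2 = ε / 8 := by
    rw [hε1d, hε2d]
    field_simp
    ring
  obtain ⟨N1, H1⟩ := near r A₀ ε1 ε2 η a1 a1' a2 a2' a3 a3'
  obtain ⟨N2, H2⟩ := few_small δ a4 a4'
  obtain ⟨N3, H3⟩ := CC_low (r + 1)
  have e1 := Real.tendsto_log_atTop.eventually_ge_atTop (8 / ε)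
  have e2 := eventually_ge_atTop (32 / ε)
  obtain ⟨N4, HN4⟩ := eventually_atTop.1 ((tendsto_natCast_atTop_atTop (R := ℝ)).eventually (e1.and e2))
  refine ⟨max N1 (max N2 (max N3 N4)), fun N hN y h Y v hy hh hhN hNY hv hU hT => ?_⟩
  have hN1 : N1 ≤ N := (le_max_left _ _).trans hN
  have hN2 : N2 ≤ N := (le_max_left _ _).trans ((le_max_right _ _).trans hN)
  have hN3 : N3 ≤ N := (le_max_left _ _).trans ((le_max_right _ _).trans ((le_max_right _ _).trans hN))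
  have hN4 : N4 ≤ N := (le_max_right _ _).trans ((le_max_right _ _).trans ((le_max_right _ _).trans hN))
  obtain ⟨f1, f2⟩ := HN4 N hN4
  have hC1 := H3 N hN3 h Y hh hhN
  obtain ⟨t, ht⟩ : ∃ t : ℕ, t = ⌈η * N⌉₊ := ⟨_, rfl⟩
  obtain ⟨g1, g2⟩ := H2 N hN2 y t v hy hU
  obtain ⟨L, hL⟩ : ∃ L, L = Real.log N := ⟨_, rfl⟩
  obtain ⟨Cc, hCc⟩ : ∃ Cc, Cc = CC (r + 1) h Y := ⟨_, rfl⟩
  obtain ⟨F, hF⟩ : ∃ F : ℝ, F = ((r + 1).factorial : ℝ) := ⟨_, rfl⟩
  have hF1 : 1 ≤ F := by rw [hF]; exact_mod_cast Nat.factorial_pos (r + 1)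
  have hCp : 0 < Cc := by rw [hCc]; exact (CC_pos (r + 1) h Y hh).2
  have h8 : 8 ≤ 8 / ε := by
    rw [le_div_iff₀ hε]
    linarith
  have h32 : 32 ≤ 32 / ε := by
    rw [le_div_iff₀ hε]
    linarith
  have hnear := H1 N hN1 h
  rw [← hL] at f1 g1 g2 hC1 hT hv hnear
  rw [← hCc] at hC1
  rw [← hL, ← hCc, ← hF]
  have hL8 : 8 ≤ L := by linarith
  have hN0 : (0 : ℝ) < N := by linarith
  have ht2 : (t : ℝ) ≤ η * N + 1 := by
    have : (t : ℝ) < η * N + 1 := by rw [ht]; exact Nat.ceil_lt_add_one (by positivity)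
    linarith
  have htN : t ≤ N := by
    rw [ht]
    apply Nat.ceil_le.2
    calc η * N ≤ 1 * N := mul_le_mul_of_nonneg_right a3' hN0.le
      _ = N := one_mul _
  -- the sum of the expected values
  obtain ⟨Gv, hGv⟩ : ∃ Gv : ℝ, Gv = Cc * L ^ (r + 1) / F := ⟨_, rfl⟩
  obtain ⟨M, hM⟩ : ∃ M : ℝ, M = Cc * L ^ (r + 1) := ⟨_, rfl⟩
  have hM0 : 0 < M := by rw [hM]; positivity
  have hsum : |∑ p ∈ PP y, WW (r + 1) (sh h) (v p) - (PP y).card * Gv| ≤
      (PP y).card * (ε / 8 * M) + (((PP y).filter (fun p => v p < t)).card : ℝ) * (2 * M) := by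
    have h1 : ∑ p ∈ PP y, WW (r + 1) (sh h) (v p) - (PP y).card * Gv = ∑ p ∈ PP y, (WW (r + 1) (sh h) (v p) - Gv) := by
      rw [sum_sub_distrib, sum_const, nsmul_eq_mul]
    rw [h1]
    refine (abs_sum_le_sum_abs _ _).trans ?_
    have h2 : ∀ p ∈ PP y, |WW (r + 1) (sh h) (v p) - Gv| ≤ ε / 8 * M + if v p < t then 2 * M else 0 := by
      intro p hp
      rw [mem_PP] at hp
      have h3 := hnear (v p) Y hh hhN hNY (hv p hp.1 (hp.2.trans hy))
      rw [← hCc, hε3, ← hF, ← hM] at h3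
      rw [← hM] at hGv
      rw [← hGv] at h3
      split_ifs with h4
      · have := h3.2 (by omega)
        have h5 : 0 ≤ ε / 8 * M := by positivity
        linarith
      · have h5 : η * N ≤ v p := by
          have h6 : η * N ≤ t := by rw [ht]; exact Nat.le_ceil _
          have h7 : (t : ℝ) ≤ v p := by exact_mod_cast not_lt.1 h4
          linarith
        have := h3.1 h5
        linarith
    refine (sum_le_sum h2).trans (le_of_eq ?_)
    rw [sum_add_distrib, sum_const, nsmul_eq_mul, ← sum_filter, sum_const, nsmul_eq_mul]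
  -- the sizes
  obtain ⟨Pc, hPc⟩ : ∃ Pc : ℝ, Pc = ((PP y).card : ℝ) := ⟨_, rfl⟩
  obtain ⟨s, hs⟩ : ∃ s : ℝ, s = (((PP y).filter (fun p => v p < t)).card : ℝ) := ⟨_, rfl⟩
  rw [← hPc] at hsum g2
  rw [← hs] at hsum g1
  obtain ⟨q, hq⟩ : ∃ q : ℝ, q = Cc * (N * L ^ r) := ⟨_, rfl⟩
  have hq0 : 0 < q := by rw [hq]; positivity
  have hyN : (y : ℝ) ≤ N := by exact_mod_cast hy
  have hPc0 : 0 ≤ Pc := by rw [hPc]; exact Nat.cast_nonneg _
  have hs0 : 0 ≤ s := by rw [hs]; exact Nat.cast_nonneg _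
  have g2' := abs_le.1 g2
  have k1 : Pc * (ε / 8 * M) ≤ ε / 4 * q := by
    have h1 : Pc * L ≤ 2 * N := by
      have : δ * N ≤ 1 * N := mul_le_mul_of_nonneg_right a4' hN0.le
      linarith
    calc Pc * (ε / 8 * M) = (Pc * L) * (ε / 8 * (Cc * L ^ r)) := by rw [hM, pow_succ]; ring
      _ ≤ (2 * N) * (ε / 8 * (Cc * L ^ r)) := mul_le_mul_of_nonneg_right h1 (by positivity)
      _ = _ := by rw [hq]; ring
  have k2 : s * (2 * M) ≤ (ε / 8 + ε / 8 + ε / 10) * q := by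
    have h1 : s * L ≤ (ε / 16 + ε / 16 + ε / 20) * N := by
      have h2 : 2 * (t : ℝ) ≤ ε / 16 * N + 2 := by
        rw [hηd] at ht2
        linarith
      have h3 : 2 ≤ ε / 16 * N := by
        rw [div_le_iff₀ hε] at f2
        linarith
      have h4 : 2 * δ * N = ε / 20 * N := by rw [hδd]; ring
      have h5 : (ε / 16 + ε / 16 + ε / 20) * N = ε / 16 * N + ε / 16 * N + ε / 20 * N := by ring
      rw [h5]
      linarith
    calc s * (2 * M) = (s * L) * (2 * (Cc * L ^ r)) := by rw [hM, pow_succ]; ring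
      _ ≤ ((ε / 16 + ε / 16 + ε / 20) * N) * (2 * (Cc * L ^ r)) := mul_le_mul_of_nonneg_right h1 (by positivity)
      _ = _ := by rw [hq]; ring
  have k3 : |Pc * Gv - Cc / F * (y * L ^ r)| ≤ ε / 40 * q := by
    have e : Pc * Gv - Cc / F * (y * L ^ r) = Cc / F * L ^ r * (Pc * L - y) := by
      rw [hGv, pow_succ]
      ring
    rw [e, abs_mul, abs_of_nonneg (by positivity)]
    calc Cc / F * L ^ r * |Pc * L - y| ≤ Cc * L ^ r * (δ * N) := by
          apply mul_le_mul _ g2 (abs_nonneg _) (by positivity)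
          apply mul_le_mul_of_nonneg_right _ (by positivity)
          exact div_le_self hCp.le hF1
      _ = _ := by rw [hq, hδd]; ring
  have k4 : N / L ^ 2 ≤ ε / 8 * q := by
    have h1 : 1 / L ≤ ε / 8 := by
      rw [div_le_iff₀ hε] at f1
      rw [div_le_div_iff₀ (by linarith) (by norm_num)]
      linarith
    have h2 : 1 ≤ L ^ r := one_le_pow₀ (by linarith)
    calc (N : ℝ) / L ^ 2 = (1 / L) * ((1 / L) * N) := by field_simp
      _ ≤ (ε / 8) * (Cc * (N * L ^ r)) := by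
          apply mul_le_mul h1 _ (by positivity) (by positivity)
          apply mul_le_mul hC1 _ hN0.le hCp.le
          exact le_mul_of_one_le_right hN0.le h2
      _ = _ := by rw [hq]
  obtain ⟨T1, hT1⟩ : ∃ T1 : ℝ, T1 = ∑ p ∈ PP y, (tauk (r + 2) (v p) : ℝ) := ⟨_, rfl⟩
  obtain ⟨T2, hT2⟩ : ∃ T2 : ℝ, T2 = ∑ p ∈ PP y, WW (r + 1) (sh h) (v p) := ⟨_, rfl⟩
  rw [← hT1, ← hT2] at hT
  rw [← hT2] at hsum
  rw [← hT1, ← hq]
  have m1 := abs_sub_le T1 T2 (Cc / F * (y * L ^ r))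
  have m2 := abs_sub_le T2 (Pc * Gv) (Cc / F * (y * L ^ r))
  have : (ε / 8 + ε / 8 + ε / 10) * q = ε * q * (7 / 20) := by ring
  rw [this] at k2
  have hεq : 0 < ε * q := by positivity
  linarith

end Pool.Agent.Q148.TD
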