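import Pool.Agent.Q148.TD.Fv
import Pool.Agent.Q148.BA.Seqs

/-! The linear forms. -/

set_option autoImplicit false

namespace Pool.Agent.Q148.TD

open Finset Filter
open Pool.Agent.Q148.BA (PP mem_PP PP_mono gh gh_nn Seq seq_add seq_dif dif exists_inv)
open Pool.Agent.Y882.EHF (S few_affine)

theorem unim_add (N a b : ℕ) (ha : 1 ≤ a) : Unim N (fun p => a * p + b) := by
  intro t
  rcases Nat.lt_or_ge b t with h | h
  · refine ⟨0, (t - 1 - b) / a, Nat.zero_le _, ?_, fun p hp _ => ?_⟩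
    · have := Nat.div_le_self (t - 1 - b) a
      omega
    · have hp0 := hp.pos
      rw [Nat.le_div_iff_mul_le ha, mul_comm p a]
      constructor
      · intro h1
        simp only at h1
        omega
      · intro h1
        simp only
        omega
  · refine ⟨0, 0, le_rfl, by omega, fun p hp _ => ?_⟩
    have hp0 := hp.pos
    constructor
    · intro h1
      simp only at h1
      omega
    · intro h1
      omega

theorem unim_dif (N a b : ℕ) (ha : 1 ≤ a) : Unim N (dif a b) := by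
  intro t
  rcases Nat.eq_zero_or_pos t with h | h
  · refine ⟨0, 0, le_rfl, by omega, fun p hp _ => ?_⟩
    have hp0 := hp.pos
    constructor
    · intro h1
      omega
    · intro h1
      omega
  · refine ⟨(b - t) / a, (b + t - 1) / a, Nat.div_le_div_right (by omega), ?_, fun p hp _ => ?_⟩
    · have h1 : b + t - 1 ≤ (b - t) + (2 * t) * a := by
        have h2 : 2 * t ≤ (2 * t) * a := Nat.le_mul_of_pos_right _ ha
        obtain ⟨w, hw⟩ : ∃ w, w = (2 * t) * a := ⟨_, rfl⟩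
        rw [← hw] at h2 ⊢
        omega
      calc (b + t - 1) / a ≤ ((b - t) + (2 * t) * a) / a := Nat.div_le_div_right h1
        _ = (b - t) / a + 2 * t := Nat.add_mul_div_right _ _ ha
    · have hp0 := hp.pos
      have hap : 0 < a * p := Nat.mul_pos ha hp0
      rw [Nat.div_lt_iff_lt_mul ha, Nat.le_div_iff_mul_le ha, mul_comm p a]
      unfold dif
      omega

theorem forms_td (r A₀ : ℕ) (ε : ℝ) (hε : 0 < ε) : ∃ B N0 : ℕ, ∀ N : ℕ, N0 ≤ N →
    ∃ Ex : Finset ℕ, (Ex.card : ℝ) ≤ (N : ℝ) ^ (2 * θ (r + 1) - 1) * Real.log N ^ B ∧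
    ∀ b : ℕ, 1 ≤ b → (b : ℝ) ≤ N * Real.log N ^ A₀ → b ∉ Ex → ∀ a : ℕ, 1 ≤ a → (a : ℝ) ≤ Real.log N ^ A₀ →
      a.Coprime b → ∀ y Y : ℕ, y ≤ N → N ^ 2 ≤ Y →
      |∑ p ∈ PP y, (tauk (r + 2) (a * p + b) : ℝ) -
        CC (r + 1) (a * b) Y / (r + 1).factorial * (y * Real.log N ^ r)| ≤
        ε * (CC (r + 1) (a * b) Y * (N * Real.log N ^ r)) ∧
      |∑ p ∈ PP y, (tauk (r + 2) (dif a b p) : ℝ) -
        CC (r + 1) (a * b) Y / (r + 1).factorial * (y * Real.log N ^ r)| ≤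
        ε * (CC (r + 1) (a * b) Y * (N * Real.log N ^ r)) := by
  classical
  obtain ⟨U, V, N1, H1⟩ := err_small r (A₀ + 1) 2
  obtain ⟨B, N2, H2⟩ := exc_grid (r + 1) U V (A₀ + 1)
  obtain ⟨N3, H3⟩ := asym_one r (A₀ + 1) (min ε 1) (lt_min hε one_pos) (min_le_right _ _)
  refine ⟨B + A₀ + 1, ?_⟩
  have e2 := Real.tendsto_log_atTop.eventually_ge_atTop 2
  have e3 := Pool.Agent.H398R2.BV.ev_log 1 (A₀ + A₀) 1 (by norm_num)
  obtain ⟨N4, HN4⟩ := eventually_atTop.1 ((tendsto_natCast_atTop_atTop (R := ℝ)).eventually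
    (e2.and (e3.and (eventually_ge_atTop 1))))
  refine ⟨max N1 (max N2 (max N3 N4)), fun N hN => ?_⟩
  have hN1 : N1 ≤ N := (le_max_left _ _).trans hN
  have hN2 : N2 ≤ N := (le_max_left _ _).trans ((le_max_right _ _).trans hN)
  have hN3 : N3 ≤ N := (le_max_left _ _).trans ((le_max_right _ _).trans ((le_max_right _ _).trans hN))
  have hN4 : N4 ≤ N := (le_max_right _ _).trans ((le_max_right _ _).trans ((le_max_right _ _).trans hN))
  obtain ⟨f2, f3, f4⟩ := HN4 N hN4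
  have hN0 : (0 : ℝ) < N := by linarith
  rw [Real.rpow_one, one_mul] at f3
  have hLA : 1 ≤ Real.log N ^ A₀ := one_le_pow₀ (by linarith)
  obtain ⟨M, hM⟩ : ∃ M : ℕ, M = ⌊Real.log N ^ A₀⌋₊ := ⟨_, rfl⟩
  obtain ⟨I, hI⟩ : ∃ I : Finset ℕ, I = Icc 1 ⌊(N : ℝ) * Real.log N ^ A₀⌋₊ := ⟨_, rfl⟩
  have hNN2 : (N : ℝ) * Real.log N ^ A₀ ≤ (N : ℝ) ^ (2 : ℝ) := by
    rw [Real.rpow_two, pow_two]
    apply mul_le_mul_of_nonneg_left _ hN0.le
    refine le_trans ?_ f3
    rw [pow_add]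
    exact le_mul_of_one_le_right (by linarith) hLA
  have hIb : ∀ b ∈ I, (b : ℝ) ≤ (N : ℝ) ^ (2 : ℝ) := by
    intro b hb
    rw [hI, mem_Icc] at hb
    exact (Nat.le_floor_iff (by positivity)).1 hb.2 |>.trans hNN2
  have hinv : ∀ a : ℕ, ∃ u : ℕ → ℕ, (∀ q, 1 ≤ q → (u q).Coprime q) ∧
    ∀ q, 1 ≤ q → a.Coprime q → a * u q ≡ 1 [MOD q] := exists_inv
  choose u hu1 hu2 using hinv
  have hneg : ∀ a q : ℕ, 1 ≤ q → (u a q * (q - 1)).Coprime q := by
    intro a q hq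
    refine (hu1 a q hq).mul_left ?_
    have h1 : (q - 1).Coprime (q - 1 + 1) := by simp
    rwa [Nat.sub_add_cancel hq] at h1
  have hex1 := fun a : ℕ => H2 N hN2 (u a) (hu1 a) I hIb
  have hex2 := fun a : ℕ => H2 N hN2 (fun q => u a q * (q - 1)) (hneg a) I hIb
  choose E1 hE1 hF1 using hex1
  choose E2 hE2 hF2 using hex2
  refine ⟨(Icc 1 M).biUnion (fun a => E1 a ∪ E2 a), ?_, ?_⟩
  · have h1 : (((Icc 1 M).biUnion (fun a => E1 a ∪ E2 a)).card : ℝ) ≤
        ∑ a ∈ Icc 1 M, (((E1 a ∪ E2 a).card : ℕ) : ℝ) := by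
      exact_mod_cast card_biUnion_le
    obtain ⟨G, hG⟩ : ∃ G : ℝ, G = (N : ℝ) ^ (2 * θ (r + 1) - 1) * Real.log N ^ B := ⟨_, rfl⟩
    have hG0 : 0 ≤ G := by rw [hG]; positivity
    have h2 : ∀ a ∈ Icc 1 M, (((E1 a ∪ E2 a).card : ℕ) : ℝ) ≤ 2 * G := by
      intro a _
      have h3 : (((E1 a ∪ E2 a).card : ℕ) : ℝ) ≤ (E1 a).card + (E2 a).card := by
        exact_mod_cast card_union_le _ _
      have h4 := hE1 a
      have h5 := hE2 a
      rw [← hG] at h4 h5
      linarith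
    have h3 : (M : ℝ) ≤ Real.log N ^ A₀ := by rw [hM]; exact Nat.floor_le (by positivity)
    calc (((Icc 1 M).biUnion (fun a => E1 a ∪ E2 a)).card : ℝ) ≤ ∑ a ∈ Icc 1 M, 2 * G :=
          h1.trans (sum_le_sum h2)
      _ = M * (2 * G) := by
          rw [sum_const, Nat.card_Icc, nsmul_eq_mul, Nat.add_sub_cancel]
      _ ≤ Real.log N ^ A₀ * (Real.log N * G) := by
          apply mul_le_mul h3 _ (by positivity) (by positivity)
          exact mul_le_mul_of_nonneg_right f2 hG0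
      _ = _ := by rw [hG, pow_succ, pow_add]; ring
  · intro b hb1 hb2 hbE a ha1 ha2 hab y Y hy hY
    have haM : a ∈ Icc 1 M := by
      rw [mem_Icc, hM]
      exact ⟨ha1, Nat.le_floor ha2⟩
    have hbI : b ∈ I := by
      rw [hI, mem_Icc]
      exact ⟨hb1, Nat.le_floor hb2⟩
    have hbE1 : b ∉ E1 a := fun h => hbE (mem_biUnion.2 ⟨a, haM, mem_union_left _ h⟩)
    have hbE2 : b ∉ E2 a := fun h => hbE (mem_biUnion.2 ⟨a, haM, mem_union_right _ h⟩)
    have hh1 : 1 ≤ a * b := Nat.mul_pos ha1 hb1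
    have hh2 : a * b ≤ N ^ 2 := by
      have : ((a * b : ℕ) : ℝ) ≤ (N : ℝ) ^ 2 := by
        push_cast
        calc (a : ℝ) * b ≤ Real.log N ^ A₀ * (N * Real.log N ^ A₀) := mul_le_mul ha2 hb2 (Nat.cast_nonneg b) (by positivity)
          _ = N * Real.log N ^ (A₀ + A₀) := by rw [pow_add]; ring
          _ ≤ N * N := mul_le_mul_of_nonneg_left f3 hN0.le
          _ = _ := by rw [pow_two]
      exact_mod_cast this
    have hL2 : 2 * (N * Real.log N ^ A₀) ≤ N * Real.log N ^ (A₀ + 1) := by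
      rw [pow_succ]
      have : 0 ≤ (N : ℝ) * Real.log N ^ A₀ := by positivity
      nlinarith
    have haN : (a : ℝ) * N ≤ N * Real.log N ^ A₀ := by
      rw [mul_comm]
      exact mul_le_mul_of_nonneg_left ha2 hN0.le
    have hp0 : 0 ≤ (N : ℝ) * Real.log N ^ A₀ := by positivity
    have hmin : ∀ w : ℝ, 0 ≤ w → min ε 1 * w ≤ ε * w := fun w hw => mul_le_mul_of_nonneg_right (min_le_left _ _) hw
    have hw0 : 0 ≤ CC (r + 1) (a * b) Y * (N * Real.log N ^ r) := by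
      have := (CC_pos (r + 1) (a * b) Y hh1).2
      positivity
    constructor
    · have hs := seq_add N (A₀ + 1) a b ha1 hab (by linarith) (u a) (hu1 a) (hu2 a)
      have hU := unim_add N a b ha1
      refine (H3 N hN3 y (a * b) Y (fun p => a * p + b) hy hh1 hh2 hY hs.le hU ?_).trans (hmin _ hw0)
      exact H1 N hN1 y (a * b) _ _ hy hs hU (hF2 a b hbI hbE2)
    · have hs := seq_dif N (A₀ + 1) a b ha1 hab (by linarith) (by linarith) (u a) (hu1 a) (hu2 a)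
      have hU := unim_dif N a b ha1
      refine (H3 N hN3 y (a * b) Y (dif a b) hy hh1 hh2 hY hs.le hU ?_).trans (hmin _ hw0)
      exact H1 N hN1 y (a * b) _ _ hy hs hU (hF1 a b hbI hbE1)

end Pool.Agent.Q148.TD
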