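import Pool.Agent.Q148.TD.Eu

/-! The main term. -/

set_option autoImplicit false

namespace Pool.Agent.Q148.TD

open Finset Filter
open Pool.Agent.Q148.BA (PP mem_PP V1 V1_pos mertens gh card_pf)

/-- `h / φ(h)` and a similar sum -/
theorem rr_bd : ∃ C : ℝ, 1 ≤ C ∧ ∃ N0 : ℕ, ∀ N : ℕ, N0 ≤ N → ∀ h : ℕ, 1 ≤ h → h ≤ N ^ 2 →
    RR h ≤ C * Real.log (2 * Real.log N) ∧
    1 + ∑ p ∈ h.primeFactors, Real.log p / p ≤ C * Real.log (2 * Real.log N) ^ 2 := by
  classical
  obtain ⟨c, C, z1, hc, hC, hz1, H⟩ := mertens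
  have e1 := Real.tendsto_log_atTop.eventually_ge_atTop (max (z1 : ℝ) 3)
  obtain ⟨N0, HN⟩ := eventually_atTop.1 ((tendsto_natCast_atTop_atTop (R := ℝ)).eventually e1)
  refine ⟨max (Real.exp 8 / c) 7, (by norm_num : (1 : ℝ) ≤ 7).trans (le_max_right _ _), N0, fun N hN h hh hhN => ?_⟩
  have f1 := HN N hN
  obtain ⟨L, hL⟩ : ∃ L, L = Real.log N := ⟨_, rfl⟩
  rw [← hL] at f1 ⊢
  have hL3 : 3 ≤ L := (le_max_right _ _).trans f1
  have hLz : (z1 : ℝ) ≤ L := (le_max_left _ _).trans f1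
  obtain ⟨y, hy⟩ : ∃ y : ℕ, y = ⌈L⌉₊ := ⟨_, rfl⟩
  have hy1 : L ≤ y := by rw [hy]; exact Nat.le_ceil L
  have hy2 : (y : ℝ) < L + 1 := by rw [hy]; exact Nat.ceil_lt_add_one (by linarith)
  have hy3 : (3 : ℝ) ≤ y := by linarith
  have hy0 : (0 : ℝ) < y := by linarith
  have hyz : z1 ≤ y := by exact_mod_cast hLz.trans hy1
  have hly : Real.log y ≤ Real.log (2 * L) := Real.log_le_log hy0 (by linarith)
  have hly1 : 1 ≤ Real.log y := by
    rw [Real.le_log_iff_exp_le hy0]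
    have := Real.exp_one_lt_d9
    linarith
  obtain ⟨l, hl⟩ : ∃ l, l = Real.log y := ⟨_, rfl⟩
  obtain ⟨l2, hl2⟩ : ∃ l2, l2 = Real.log (2 * L) := ⟨_, rfl⟩
  rw [← hl, ← hl2] at hly
  rw [← hl] at hly1
  rw [← hl2]
  have hω : (h.primeFactors.card : ℝ) ≤ 4 * y := by
    have h1 := card_pf h (N ^ 2) hh hhN
    push_cast at h1
    rw [Real.log_pow, ← hL] at h1
    push_cast at h1
    linarith
  have hbig : ((h.primeFactors.filter (fun p => ¬ p ≤ y)).card : ℝ) ≤ 4 * y := by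
    have : ((h.primeFactors.filter (fun p => ¬ p ≤ y)).card : ℝ) ≤ h.primeFactors.card := by
      exact_mod_cast card_le_card (filter_subset _ _)
    linarith
  have hsmall : h.primeFactors.filter (fun p => p ≤ y) ⊆ PP y := by
    intro p hp
    rw [mem_filter] at hp
    rw [mem_PP]
    exact ⟨Nat.prime_of_mem_primeFactors hp.1, hp.2⟩
  constructor
  · unfold RR
    rw [← prod_filter_mul_prod_filter_not _ (fun p => p ≤ y)]
    have h1 : ∏ p ∈ h.primeFactors.filter (fun p => p ≤ y), (1 - 1 / (p : ℝ))⁻¹ ≤ l / c := by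
      refine (prod_sub_le _ _ _ hsmall fun p hp => (fac_inv p (mem_PP.1 hp).1).1).trans ?_
      have h2 : ∏ p ∈ PP y, (1 - 1 / (p : ℝ))⁻¹ = (V1 y)⁻¹ := by
        unfold V1
        rw [prod_inv_distrib]
      rw [h2]
      have h3 := (H y hyz).1
      rw [← hl] at h3
      have h4 : 0 < c / l := by positivity
      calc (V1 y)⁻¹ ≤ (c / l)⁻¹ := inv_anti₀ h4 h3
        _ = l / c := by rw [inv_div]
    have h2 : ∏ p ∈ h.primeFactors.filter (fun p => ¬ p ≤ y), (1 - 1 / (p : ℝ))⁻¹ ≤ Real.exp 8 := by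
      have h3 : ∏ p ∈ h.primeFactors.filter (fun p => ¬ p ≤ y), (1 - 1 / (p : ℝ))⁻¹ ≤
          ∏ _p ∈ h.primeFactors.filter (fun p => ¬ p ≤ y), Real.exp (2 / y) := by
        apply Finset.prod_le_prod
        · intro p hp
          rw [mem_filter] at hp
          linarith [(fac_inv p (Nat.prime_of_mem_primeFactors hp.1)).1]
        · intro p hp
          rw [mem_filter] at hp
          have hyp : (y : ℝ) ≤ p := by exact_mod_cast (not_le.1 hp.2).le
          have h4 : 1 / (p : ℝ) ≤ 1 / y := one_div_le_one_div_of_le hy0 hyp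
          have h5 : 0 < 1 - 1 / (y : ℝ) := by
            rw [sub_pos, div_lt_one hy0]
            linarith
          calc (1 - 1 / (p : ℝ))⁻¹ ≤ (1 - 1 / (y : ℝ))⁻¹ := inv_anti₀ h5 (by linarith)
            _ ≤ 1 + 2 / y := by
              rw [inv_le_iff_one_le_mul₀ h5]
              have e : (1 + 2 / (y : ℝ)) * (1 - 1 / y) = 1 + (y - 2) / y ^ 2 := by
                field_simp
                ring
              rw [e]
              have : 0 ≤ ((y : ℝ) - 2) / y ^ 2 := div_nonneg (by linarith) (by positivity)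
              linarith
            _ ≤ _ := by
              have := Real.add_one_le_exp (2 / (y : ℝ))
              linarith
      refine h3.trans ?_
      rw [prod_const, ← Real.exp_nat_mul]
      apply Real.exp_le_exp.2
      rw [mul_div_assoc', div_le_iff₀ hy0]
      linarith
    have h3 : 0 ≤ ∏ p ∈ h.primeFactors.filter (fun p => ¬ p ≤ y), (1 - 1 / (p : ℝ))⁻¹ := by
      apply prod_nonneg
      intro p hp
      rw [mem_filter] at hp
      linarith [(fac_inv p (Nat.prime_of_mem_primeFactors hp.1)).1]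
    calc _ ≤ (l / c) * Real.exp 8 := mul_le_mul h1 h2 h3 (by positivity)
      _ = (Real.exp 8 / c) * l := by ring
      _ ≤ max (Real.exp 8 / c) 7 * l2 := mul_le_mul (le_max_left _ _) hly (by linarith) (by positivity)
  · have h1 : ∑ p ∈ h.primeFactors, Real.log p / p ≤ l * (1 + l) + 4 * l := by
      rw [← sum_filter_add_sum_filter_not _ (fun p => p ≤ y)]
      apply add_le_add
      · have h2 : ∑ p ∈ h.primeFactors.filter (fun p => p ≤ y), Real.log p / p ≤ ∑ p ∈ Icc 1 y, l * (1 / (p : ℝ)) := by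
          refine le_trans (b := ∑ p ∈ h.primeFactors.filter (fun p => p ≤ y), l * (1 / (p : ℝ))) ?_ ?_
          · apply sum_le_sum
            intro p hp
            rw [mem_filter] at hp
            have hp' := (Nat.prime_of_mem_primeFactors hp.1).pos
            have hp0 : (0 : ℝ) < p := by exact_mod_cast hp'
            rw [mul_one_div]
            apply div_le_div_of_nonneg_right _ hp0.le
            rw [hl]
            exact Real.log_le_log hp0 (by exact_mod_cast hp.2)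
          · apply sum_le_sum_of_subset_of_nonneg
            · intro p hp
              rw [mem_filter] at hp
              rw [mem_Icc]
              exact ⟨(Nat.prime_of_mem_primeFactors hp.1).one_le, hp.2⟩
            · intro _ _ _
              positivity
        rw [← mul_sum] at h2
        refine h2.trans (mul_le_mul_of_nonneg_left ?_ (by linarith))
        rw [hl]
        exact harm0 y
      · have h2 : ∀ p ∈ h.primeFactors.filter (fun p => ¬ p ≤ y), Real.log p / p ≤ l / y := by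
          intro p hp
          rw [mem_filter] at hp
          have hyp : (y : ℝ) ≤ p := by exact_mod_cast (not_le.1 hp.2).le
          have he : Real.exp 1 ≤ y := by
            have := Real.exp_one_lt_d9
            linarith
          rw [hl]
          exact Real.log_div_self_antitoneOn (show (y : ℝ) ∈ {x : ℝ | Real.exp 1 ≤ x} from he)
            (show (p : ℝ) ∈ {x : ℝ | Real.exp 1 ≤ x} from he.trans hyp) hyp
        refine (sum_le_sum h2).trans ?_
        rw [sum_const, nsmul_eq_mul]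
        calc _ ≤ 4 * (y : ℝ) * (l / y) := mul_le_mul_of_nonneg_right hbig (by positivity)
          _ = 4 * l := by field_simp
    have h2 : 1 + (l * (1 + l) + 4 * l) ≤ 7 * l ^ 2 := by nlinarith
    calc 1 + ∑ p ∈ h.primeFactors, Real.log p / (p : ℝ) ≤ 7 * l ^ 2 := by linarith
      _ ≤ max (Real.exp 8 / c) 7 * l2 ^ 2 :=
        mul_le_mul (le_max_right _ _) (pow_le_pow_left₀ (by linarith) hly 2) (by positivity) (by positivity)

theorem main_aux (W Cc Z A F err e1 e2 ε : ℝ) (hC : 0 < Cc) (h1 : |W - Cc * Z| ≤ err) (h2 : |Z - A / F| ≤ e2)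
    (h3 : err ≤ ε / 2 * (Cc * A)) (h4 : e2 ≤ ε / 2 * A) (h5 : e1 = Cc * A / F) : |W - e1| ≤ ε * (Cc * A) := by
  have e : W - e1 = (W - Cc * Z) + Cc * (Z - A / F) := by
    rw [h5]
    ring
  rw [e]
  have k1 : |Cc * (Z - A / F)| ≤ Cc * (ε / 2 * A) := by
    rw [abs_mul, abs_of_pos hC]
    exact mul_le_mul_of_nonneg_left (h2.trans h4) hC.le
  have k2 := abs_add_le (W - Cc * Z) (Cc * (Z - A / F))
  linarith

/-- **the main term** -/
theorem WW_asym (r : ℕ) (ε : ℝ) (hε : 0 < ε) : ∃ N0 : ℕ, ∀ N : ℕ, N0 ≤ N → ∀ h : ℕ, 1 ≤ h → h ≤ N ^ 2 →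
    ∀ n Y : ℕ, N ≤ n ^ 2 → n ≤ Y →
    |WW (r + 1) (sh h) n - CC (r + 1) h Y * Real.log n ^ (r + 1) / (r + 1).factorial| ≤
      ε * (CC (r + 1) h Y * Real.log n ^ (r + 1)) := by
  obtain ⟨C1, hC1, H1⟩ := WW_bd r
  obtain ⟨C2, hC2, H2⟩ := err_bd (r + 1)
  obtain ⟨C3, hC3, N1, H3⟩ := rr_bd
  obtain ⟨C4, hC4, H4⟩ := ZZ_asym r
  obtain ⟨M, hM⟩ : ∃ M : ℕ, M = 2 ^ (r + 1) + (r + 1) + 2 := ⟨_, rfl⟩
  obtain ⟨D, hD⟩ : ∃ D : ℝ, D = C1 * 2 ^ r * C2 * C3 ^ M * 4 / ε := ⟨_, rfl⟩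
  have e1 := Real.tendsto_log_atTop.eventually_ge_atTop (max 2 (4 * C4 * 2 ^ r / ε))
  have e2' := Pool.Agent.H398R2.BV.ev_log (2 * D) M 1 (by norm_num)
  have e2 : ∀ᶠ X : ℝ in atTop, 2 * D * Real.log (2 * Real.log X) ^ M ≤ (2 * Real.log X) ^ (1 : ℝ) :=
    (Real.tendsto_log_atTop.const_mul_atTop (show (0 : ℝ) < 2 by norm_num)).eventually e2'
  obtain ⟨N2, HN2⟩ := eventually_atTop.1 ((tendsto_natCast_atTop_atTop (R := ℝ)).eventually (e1.and e2))
  refine ⟨max N1 N2, fun N hN h hh hhN n Y hNn hnY => ?_⟩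
  obtain ⟨f1, f2⟩ := HN2 N ((le_max_right _ _).trans hN)
  rw [Real.rpow_one] at f2
  obtain ⟨g1, g2⟩ := H3 N ((le_max_left _ _).trans hN) h hh hhN
  have hNpos : 0 < N := by
    rcases Nat.eq_zero_or_pos N with h0 | h0
    · rw [h0] at f1
      simp at f1
      linarith [f1.1]
    · exact h0
  have hN0 : (0 : ℝ) < N := by exact_mod_cast hNpos
  have hn : 1 ≤ n := by
    rcases Nat.eq_zero_or_pos n with h0 | h0
    · rw [h0] at hNn
      simp at hNn
      omega
    · exact h0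
  have hn0 : (0 : ℝ) < n := by exact_mod_cast hn
  obtain ⟨L, hL⟩ : ∃ L, L = Real.log N := ⟨_, rfl⟩
  obtain ⟨l, hl⟩ : ∃ l, l = Real.log n := ⟨_, rfl⟩
  have hLl : L ≤ 2 * l := by
    have h1 : Real.log N ≤ Real.log ((n : ℝ) ^ 2) := Real.log_le_log hN0 (by exact_mod_cast hNn)
    rw [Real.log_pow] at h1
    push_cast at h1
    rw [hL, hl]
    exact h1
  rw [← hL] at f1 f2 g1 g2
  have hL2 : 2 ≤ L := (le_max_left _ _).trans f1
  have hL4 : 4 * C4 * 2 ^ r / ε ≤ L := (le_max_right _ _).trans f1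
  have hl1 : 1 ≤ l := by linarith
  have hpow : (1 + l) ^ r ≤ 2 ^ r * l ^ r := by
    rw [← mul_pow]
    exact pow_le_pow_left₀ (by linarith) (by linarith) r
  obtain ⟨c1, c2⟩ := CC_pos (r + 1) h Y hh
  have w1 := H1 (sh h) n Y hn hnY
  have w2 := H2 h Y hh
  have w3 := H4 n hn
  rw [← hl] at w1 w3 ⊢
  obtain ⟨Cc, hCc⟩ : ∃ Cc, Cc = CC (r + 1) h Y := ⟨_, rfl⟩
  have hCe : ∏ p ∈ PP Y, (1 + sh h p * rho (r + 1) p) = Cc := by rw [hCc]; rfl
  rw [hCe] at w1
  rw [← hCc] at c1 c2 ⊢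
  obtain ⟨E, hE⟩ : ∃ E, E = (∏ p ∈ PP Y, (1 + |sh h p| * bb (r + 1) p)) *
      (1 + ∑ p ∈ PP Y, |sh h p| * bb (r + 1) p * ((r + 2) * Real.log p)) := ⟨_, rfl⟩
  rw [← hE] at w1
  have w2' : E ≤ C2 * RR h ^ 2 ^ (r + 1) * (1 + ∑ p ∈ h.primeFactors, Real.log p / p) := by
    rw [hE]
    have : ((r + 1 : ℕ) : ℝ) + 1 = r + 2 := by push_cast; ring
    rw [this] at w2
    exact w2
  obtain ⟨R, hR⟩ : ∃ R, R = RR h := ⟨_, rfl⟩
  obtain ⟨Sg, hSg⟩ : ∃ Sg, Sg = 1 + ∑ p ∈ h.primeFactors, Real.log p / (p : ℝ) := ⟨_, rfl⟩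
  obtain ⟨t, ht⟩ : ∃ t, t = Real.log (2 * L) := ⟨_, rfl⟩
  have hR1 : 1 ≤ R := by rw [hR]; exact RR_ge h
  rw [← hR, ← hSg] at w2'
  rw [← hR] at c1
  rw [← hR, ← ht] at g1
  rw [← hSg, ← ht] at g2
  rw [← ht] at f2
  have hSg1 : 1 ≤ Sg := by
    rw [hSg]
    have : 0 ≤ ∑ p ∈ h.primeFactors, Real.log p / (p : ℝ) := by
      apply sum_nonneg
      intro p _
      have := Real.log_natCast_nonneg p
      positivity
    linarith
  have ht1 : 1 ≤ t := by
    rw [ht, Real.le_log_iff_exp_le (by linarith)]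
    have := Real.exp_one_lt_d9
    linarith
  have hC3p : 0 < C3 := by linarith
  -- the total error
  have hCt : 1 ≤ C3 * t := one_le_mul_of_one_le_of_one_le hC3 ht1
  have k1 : E ≤ C2 * (C3 ^ M * t ^ M) * Cc := by
    have k2 : R ^ 2 ^ (r + 1) * Sg ≤ R ^ 2 ^ (r + 1) * Sg * (R ^ (r + 1) * Cc) :=
      le_mul_of_one_le_right (by positivity) c1
    have k3 : R ^ (2 ^ (r + 1) + (r + 1)) ≤ (C3 * t) ^ (2 ^ (r + 1) + (r + 1)) := pow_le_pow_left₀ (by linarith) g1 _
    have k4 : Sg ≤ (C3 * t) ^ 2 := by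
      refine g2.trans ?_
      rw [mul_pow]
      apply mul_le_mul_of_nonneg_right _ (by positivity)
      exact le_self_pow₀ hC3 (by norm_num)
    have k5 : R ^ (2 ^ (r + 1) + (r + 1)) * Sg ≤ C3 ^ M * t ^ M := by
      calc R ^ (2 ^ (r + 1) + (r + 1)) * Sg ≤ (C3 * t) ^ (2 ^ (r + 1) + (r + 1)) * (C3 * t) ^ 2 :=
            mul_le_mul k3 k4 (by linarith) (by positivity)
        _ = C3 ^ M * t ^ M := by rw [hM, ← pow_add, mul_pow]
    calc E ≤ C2 * R ^ 2 ^ (r + 1) * Sg := w2'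
      _ = C2 * (R ^ 2 ^ (r + 1) * Sg) := by ring
      _ ≤ C2 * (R ^ 2 ^ (r + 1) * Sg * (R ^ (r + 1) * Cc)) := mul_le_mul_of_nonneg_left k2 (by linarith)
      _ = C2 * (R ^ (2 ^ (r + 1) + (r + 1)) * Sg) * Cc := by ring
      _ ≤ C2 * (C3 ^ M * t ^ M) * Cc := by
          apply mul_le_mul_of_nonneg_right _ c2.le
          exact mul_le_mul_of_nonneg_left k5 (by linarith)
  have k6 : C1 * (1 + l) ^ r * E ≤ ε / 2 * (Cc * l ^ (r + 1)) := by
    have hE0 : 0 ≤ C2 * (C3 ^ M * t ^ M) * Cc := by positivity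
    have k7 : C1 * 2 ^ r * C2 * C3 ^ M * t ^ M ≤ ε / 2 * l := by
      have k8 : D * t ^ M ≤ L := by linarith
      rw [hD] at k8
      have k9 : C1 * 2 ^ r * C2 * C3 ^ M * t ^ M = ε / 4 * (C1 * 2 ^ r * C2 * C3 ^ M * 4 / ε * t ^ M) := by
        field_simp
      rw [k9]
      calc ε / 4 * (C1 * 2 ^ r * C2 * C3 ^ M * 4 / ε * t ^ M) ≤ ε / 4 * L :=
            mul_le_mul_of_nonneg_left k8 (by positivity)
        _ ≤ ε / 4 * (2 * l) := mul_le_mul_of_nonneg_left hLl (by positivity)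
        _ = _ := by ring
    calc C1 * (1 + l) ^ r * E ≤ C1 * (2 ^ r * l ^ r) * (C2 * (C3 ^ M * t ^ M) * Cc) := by
          apply mul_le_mul (mul_le_mul_of_nonneg_left hpow (by linarith)) k1
          · rw [hE]
            apply mul_nonneg
            · apply prod_nonneg
              intro p hp
              have := mul_nonneg (abs_nonneg (sh h p)) (bb_le (r + 1) p (mem_PP.1 hp).1.one_le).1
              linarith
            · have : 0 ≤ ∑ p ∈ PP Y, |sh h p| * bb (r + 1) p * ((r + 2) * Real.log p) := by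
                apply sum_nonneg
                intro p hp
                have h1 := mul_nonneg (abs_nonneg (sh h p)) (bb_le (r + 1) p (mem_PP.1 hp).1.one_le).1
                have := Real.log_natCast_nonneg p
                positivity
              linarith
          · positivity
      _ = (C1 * 2 ^ r * C2 * C3 ^ M * t ^ M) * (Cc * l ^ r) := by ring
      _ ≤ (ε / 2 * l) * (Cc * l ^ r) := mul_le_mul_of_nonneg_right k7 (by positivity)
      _ = _ := by ring
  have k10 : C4 * (1 + l) ^ r ≤ ε / 2 * l ^ (r + 1) := by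
    have k11 : C4 * 2 ^ r ≤ ε / 2 * l := by
      rw [div_le_iff₀ hε] at hL4
      nlinarith
    calc C4 * (1 + l) ^ r ≤ C4 * (2 ^ r * l ^ r) := mul_le_mul_of_nonneg_left hpow hC4
      _ = C4 * 2 ^ r * l ^ r := by ring
      _ ≤ ε / 2 * l * l ^ r := mul_le_mul_of_nonneg_right k11 (by positivity)
      _ = _ := by ring
  exact main_aux _ Cc _ (l ^ (r + 1)) _ _ _ _ ε c2 w1 w3 k6 k10 rfl

end Pool.Agent.Q148.TD
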