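import Pool.Agent.Q148.TD.Tup

/-! The number of the tuples with bounded product. -/

set_option autoImplicit false

namespace Pool.Agent.Q148.TD

open Finset

/-- the number of the `k`-tuples of positive integers with product at most `N` -/
def cnt (k N : ℕ) : ℕ := ((box k N).filter (fun f => ∏ x, f x ≤ N)).card

theorem cnt_zero (N : ℕ) (hN : 1 ≤ N) : cnt 0 N = 1 := by
  unfold cnt
  rw [filter_true_of_mem]
  · unfold box
    rw [Fintype.card_piFinset]
    simp
  · intro f _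
    simpa using hN

theorem cnt_succ (k N : ℕ) : cnt (k + 1) N = ∑ m ∈ Icc 1 N, cnt k (N / m) := by
  classical
  have h1 : cnt (k + 1) N = ∑ m ∈ Icc 1 N, (((box (k + 1) N).filter (fun f => ∏ x, f x ≤ N)).filter
      (fun f => f 0 = m)).card := by
    unfold cnt
    apply card_eq_sum_card_fiberwise
    intro f hf
    rw [mem_coe, mem_filter, mem_box] at hf
    rw [mem_coe, mem_Icc]
    exact hf.1 0
  rw [h1]
  apply sum_congr rfl
  intro m hm
  rw [mem_Icc] at hm
  unfold cnt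
  refine card_bij' (fun f _ => fun x => f x.succ) (fun g _ => Fin.cons m g) ?_ ?_ ?_ ?_
  · intro f hf
    rw [mem_filter, mem_filter, mem_box, Fin.prod_univ_succ] at hf
    obtain ⟨⟨h2, h3⟩, h4⟩ := hf
    rw [h4, mul_comm] at h3
    have h5 := (Nat.le_div_iff_mul_le (by omega : 0 < m)).2 h3
    rw [mem_filter, mem_box]
    refine ⟨fun x => ⟨(h2 x.succ).1, ?_⟩, h5⟩
    refine le_trans ?_ h5
    apply Nat.le_of_dvd
    · exact prod_pos fun y _ => (h2 y.succ).1
    · exact dvd_prod_of_mem (fun y : Fin k => f y.succ) (mem_univ x)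
  · intro g hg
    rw [mem_filter, mem_box] at hg
    rw [mem_filter, mem_filter, mem_box, Fin.prod_univ_succ]
    refine ⟨⟨fun x => ?_, ?_⟩, ?_⟩
    · refine Fin.cases ?_ (fun y => ?_) x
      · rw [Fin.cons_zero]
        exact hm
      · rw [Fin.cons_succ]
        exact ⟨(hg.1 y).1, (hg.1 y).2.trans (Nat.div_le_self _ _)⟩
    · simp only [Fin.cons_zero, Fin.cons_succ]
      rw [mul_comm]
      exact (Nat.le_div_iff_mul_le (by omega : 0 < m)).1 hg.2
    · rw [Fin.cons_zero]
  · intro f hf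
    rw [mem_filter] at hf
    funext x
    refine Fin.cases ?_ (fun y => ?_) x
    · rw [Fin.cons_zero, hf.2]
    · rw [Fin.cons_succ]
  · intro g _
    funext x
    rw [Fin.cons_succ]

theorem cnt_one (N : ℕ) : cnt 1 N = N := by
  rw [cnt_succ]
  have h1 : ∀ m ∈ Icc 1 N, cnt 0 (N / m) = 1 := by
    intro m hm
    rw [mem_Icc] at hm
    exact cnt_zero _ (Nat.div_pos hm.2 hm.1)
  rw [sum_congr rfl h1, sum_const, Nat.card_Icc]
  simp

theorem sum_tauk (k N : ℕ) (hk : 1 ≤ k) : ∑ n ∈ Icc 1 N, tauk k n = cnt k N := by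
  classical
  unfold cnt
  rw [card_eq_sum_card_fiberwise (f := fun f : Fin k → ℕ => ∏ x, f x) (t := Icc 1 N)]
  · apply sum_congr rfl
    intro n hn
    rw [mem_Icc] at hn
    unfold tauk
    congr 1
    ext f
    rw [Nat.mem_finMulAntidiag, mem_filter, mem_filter, mem_box]
    constructor
    · rintro ⟨h1, h2⟩
      refine ⟨⟨fun x => ?_, by omega⟩, h1⟩
      have h3 : f x ∣ n := by
        rw [← h1]
        exact dvd_prod_of_mem _ (mem_univ x)
      have h4 := Nat.le_of_dvd (by omega) h3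
      exact ⟨Nat.pos_of_dvd_of_pos h3 (by omega), by omega⟩
    · rintro ⟨_, h2⟩
      exact ⟨h2, by omega⟩
  · intro f hf
    rw [mem_coe, mem_filter, mem_box] at hf
    rw [mem_coe, mem_Icc]
    have h1 : 0 < ∏ x, f x := prod_pos fun y _ => (hf.1 y).1
    exact ⟨h1, hf.2⟩

/-- powers -/
theorem pow_sub_le {a b : ℝ} (hb : 0 ≤ b) (hab : b ≤ a) (r : ℕ) :
    (r + 1) * ((a - b) * b ^ r) ≤ a ^ (r + 1) - b ^ (r + 1) ∧
      a ^ (r + 1) - b ^ (r + 1) ≤ (r + 1) * ((a - b) * a ^ r) := by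
  induction r with
  | zero => norm_num
  | succ r ih =>
    have ha : 0 ≤ a := hb.trans hab
    have h0 : 0 ≤ a - b := by linarith
    have e : a ^ (r + 2) - b ^ (r + 2) = a * (a ^ (r + 1) - b ^ (r + 1)) + (a - b) * b ^ (r + 1) := by ring
    have hp : b ^ (r + 1) ≤ a ^ (r + 1) := pow_le_pow_left₀ hb hab _
    push_cast
    constructor
    · have e2 : a ^ (r + 1 + 1) - b ^ (r + 1 + 1) = b * (a ^ (r + 1) - b ^ (r + 1)) + (a - b) * a ^ (r + 1) := by ring
      rw [e2]
      have h1 := mul_le_mul_of_nonneg_left ih.1 hb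
      have h2 := mul_le_mul_of_nonneg_left hp h0
      have e3 : b * ((r + 1) * ((a - b) * b ^ r)) = (r + 1) * ((a - b) * b ^ (r + 1)) := by ring
      rw [e3] at h1
      have e4 : ((r : ℝ) + 1 + 1) * ((a - b) * b ^ (r + 1)) =
        (r + 1) * ((a - b) * b ^ (r + 1)) + (a - b) * b ^ (r + 1) := by ring
      rw [e4]
      linarith
    · have e1 : a ^ (r + 1 + 1) - b ^ (r + 1 + 1) = a * (a ^ (r + 1) - b ^ (r + 1)) + (a - b) * b ^ (r + 1) := by ring
      rw [e1]
      have h1 := mul_le_mul_of_nonneg_left ih.2 ha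
      have h2 := mul_le_mul_of_nonneg_left hp h0
      have e3 : a * ((r + 1) * ((a - b) * a ^ r)) = (r + 1) * ((a - b) * a ^ (r + 1)) := by ring
      rw [e3] at h1
      have e4 : ((r : ℝ) + 1 + 1) * ((a - b) * a ^ (r + 1)) =
        (r + 1) * ((a - b) * a ^ (r + 1)) + (a - b) * a ^ (r + 1) := by ring
      rw [e4]
      linarith

/-- the logarithms of consecutive integers -/
theorem log_diff (m : ℕ) (hm : 1 ≤ m) : 1 / ((m : ℝ) + 1) ≤ Real.log (m + 1) - Real.log m ∧
    Real.log (m + 1) - Real.log m ≤ 1 / m := by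
  have hm0 : (0 : ℝ) < m := by exact_mod_cast hm
  rw [← Real.log_div (by positivity) hm0.ne']
  constructor
  · have h := Real.one_sub_inv_le_log_of_pos (show (0 : ℝ) < (m + 1) / m by positivity)
    have e : 1 - (((m : ℝ) + 1) / m)⁻¹ = 1 / (m + 1) := by
      field_simp
      ring
    rwa [e] at h
  · have h := Real.log_le_sub_one_of_pos (show (0 : ℝ) < (m + 1) / m by positivity)
    have e : ((m : ℝ) + 1) / m - 1 = 1 / m := by
      field_simp
      ring
    rwa [e] at h

theorem Tsum (r N : ℕ) (hN : 1 ≤ N) :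
    Real.log N ^ (r + 1) / (r + 1) ≤ ∑ m ∈ Icc 1 N, Real.log ((N : ℝ) / m) ^ r / m ∧
      ∑ m ∈ Icc 1 N, Real.log ((N : ℝ) / m) ^ r / m ≤ Real.log N ^ (r + 1) / (r + 1) + Real.log N ^ r := by
  have hN0 : (0 : ℝ) < N := by exact_mod_cast hN
  obtain ⟨ℓ, hℓ⟩ : ∃ ℓ : ℕ → ℝ, ℓ = fun m : ℕ => Real.log N - Real.log m := ⟨_, rfl⟩
  have e1 : ∀ m ∈ Icc 1 N, Real.log ((N : ℝ) / m) ^ r / m = ℓ m ^ r / m := by
    intro m hm
    rw [mem_Icc] at hm
    have : (m : ℝ) ≠ 0 := by
      have : m ≠ 0 := by omega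
      exact_mod_cast this
    rw [Real.log_div hN0.ne' this, hℓ]
  rw [sum_congr rfl e1]
  have hr : (0 : ℝ) < r + 1 := by positivity
  -- partial sums
  have key : ∀ M : ℕ, 1 ≤ M → M ≤ N →
      ℓ 1 ^ (r + 1) - ℓ M ^ (r + 1) ≤ (r + 1) * ∑ m ∈ Ico 1 M, ℓ m ^ r / m ∧
      (r + 1) * ∑ m ∈ Ico 1 M, ℓ (m + 1) ^ r / (m + 1) ≤ ℓ 1 ^ (r + 1) - ℓ M ^ (r + 1) := by
    intro M hM
    induction M, hM using Nat.le_induction with
    | base => intro _; simp
    | succ M hM ih =>
      intro hMN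
      obtain ⟨ih1, ih2⟩ := ih (by omega)
      have hM0 : (0 : ℝ) < M := by exact_mod_cast hM
      have hb : 0 ≤ ℓ (M + 1) := by
        rw [hℓ]
        simp only
        rw [sub_nonneg]
        exact Real.log_le_log (by positivity) (by exact_mod_cast hMN)
      obtain ⟨d1, d2⟩ := log_diff M hM
      have hab : ℓ M - ℓ (M + 1) = Real.log (M + 1) - Real.log M := by
        rw [hℓ]
        push_cast
        ring
      have hle : ℓ (M + 1) ≤ ℓ M := by
        have : 0 ≤ 1 / ((M : ℝ) + 1) := by positivity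
        linarith
      obtain ⟨p1, p2⟩ := pow_sub_le hb hle r
      rw [hab] at p1 p2
      rw [sum_Ico_succ_top hM, sum_Ico_succ_top hM]
      constructor
      · have h1 : (r + 1) * ((Real.log (M + 1) - Real.log M) * ℓ M ^ r) ≤ (r + 1) * (ℓ M ^ r / M) := by
          apply mul_le_mul_of_nonneg_left _ hr.le
          have h2 := mul_le_mul_of_nonneg_right d2 (pow_nonneg (hb.trans hle) r)
          calc (Real.log (M + 1) - Real.log M) * ℓ M ^ r ≤ 1 / M * ℓ M ^ r := h2
            _ = _ := by ring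
        rw [mul_add]
        linarith
      · have h1 : ((r : ℝ) + 1) * (ℓ (M + 1) ^ r / (M + 1)) ≤
            (r + 1) * ((Real.log (M + 1) - Real.log M) * ℓ (M + 1) ^ r) := by
          apply mul_le_mul_of_nonneg_left _ hr.le
          have h2 := mul_le_mul_of_nonneg_right d1 (pow_nonneg hb r)
          calc ℓ (M + 1) ^ r / (M + 1) = 1 / ((M : ℝ) + 1) * ℓ (M + 1) ^ r := by ring
            _ ≤ _ := h2
        rw [mul_add]
        linarith
  obtain ⟨k1, k2⟩ := key N hN le_rfl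
  have hℓ1 : ℓ 1 = Real.log N := by rw [hℓ]; simp
  have hℓN : ℓ N = 0 := by rw [hℓ]; simp
  rw [hℓ1, hℓN, zero_pow (Nat.succ_ne_zero r), sub_zero] at k1 k2
  have hnn : ∀ m ∈ Icc 1 N, 0 ≤ ℓ m ^ r / m := by
    intro m hm
    rw [mem_Icc] at hm
    apply div_nonneg _ (Nat.cast_nonneg _)
    apply pow_nonneg
    rw [hℓ]
    simp only
    rw [sub_nonneg]
    exact Real.log_le_log (by exact_mod_cast (by omega : 0 < m)) (by exact_mod_cast hm.2)
  constructor
  · rw [div_le_iff₀ hr, mul_comm]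
    refine k1.trans (mul_le_mul_of_nonneg_left ?_ hr.le)
    apply sum_le_sum_of_subset_of_nonneg
    · intro m hm
      rw [mem_Ico] at hm
      rw [mem_Icc]
      omega
    · intro m hm _
      exact hnn m hm
  · have e2 : ∑ m ∈ Icc 1 N, ℓ m ^ r / m = ℓ 1 ^ r / 1 + ∑ m ∈ Ico 1 N, ℓ (m + 1) ^ r / (m + 1) := by
      have h3 : Icc 1 N = Ico 1 (N + 1) := by
        ext m
        rw [mem_Icc, mem_Ico]
        omega
      rw [h3, sum_Ico_eq_sum_range, sum_Ico_eq_sum_range, Nat.add_sub_cancel]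
      have h4 : N = (N - 1) + 1 := by omega
      conv_lhs => rw [h4, sum_range_succ']
      rw [add_comm]
      congr 1
      · norm_num
      · apply sum_congr rfl
        intro m _
        push_cast
        rw [show 1 + (m + 1) = 1 + m + 1 by ring, show (1 : ℝ) + (m + 1) = 1 + m + 1 by ring]
    rw [e2, hℓ1]
    have h5 : ∑ m ∈ Ico 1 N, ℓ (m + 1) ^ r / ((m : ℝ) + 1) ≤ Real.log N ^ (r + 1) / (r + 1) := by
      rw [le_div_iff₀ hr]
      linarith
    have h6 : Real.log N ^ r / 1 = Real.log N ^ r := div_one _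
    rw [h6]
    linarith

end Pool.Agent.Q148.TD
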