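import Pool.Agent.Q148.TD.Sk

/-! The asymptotic formula for the number of the tuples with bounded product. -/

set_option autoImplicit false

namespace Pool.Agent.Q148.TD

open Finset

theorem floor_aux (j : ℕ) (x : ℝ) (hx : 1 ≤ x) :
    |(⌊x⌋₊ : ℝ) * Real.log ⌊x⌋₊ ^ j - x * Real.log x ^ j| ≤ (j + 1) * (1 + Real.log x) ^ j := by
  obtain ⟨y, hy⟩ : ∃ y : ℝ, y = (⌊x⌋₊ : ℝ) := ⟨_, rfl⟩
  have hyx : y ≤ x := by rw [hy]; exact Nat.floor_le (by linarith)
  have hxy : x < y + 1 := by rw [hy]; exact Nat.lt_floor_add_one x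
  have hy1 : 1 ≤ y := by
    rw [hy]
    exact_mod_cast (Nat.le_floor (by exact_mod_cast hx) : 1 ≤ ⌊x⌋₊)
  rw [← hy]
  have hlx : 0 ≤ Real.log x := Real.log_nonneg hx
  have hly : 0 ≤ Real.log y := Real.log_nonneg hy1
  have hlyx : Real.log y ≤ Real.log x := Real.log_le_log (by linarith) hyx
  have h1 : (1 + Real.log x) ^ j ≥ Real.log x ^ j := pow_le_pow_left₀ hlx (by linarith) j
  have h1' : 1 ≤ (1 + Real.log x) ^ j := one_le_pow₀ (by linarith)
  rw [abs_sub_comm, abs_of_nonneg]
  · have e : x * Real.log x ^ j - y * Real.log y ^ j =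
        (x - y) * Real.log x ^ j + y * (Real.log x ^ j - Real.log y ^ j) := by ring
    rw [e]
    have h2 : (x - y) * Real.log x ^ j ≤ (1 + Real.log x) ^ j := by
      have : (x - y) * Real.log x ^ j ≤ 1 * Real.log x ^ j :=
        mul_le_mul_of_nonneg_right (by linarith) (pow_nonneg hlx j)
      linarith
    have h3 : y * (Real.log x ^ j - Real.log y ^ j) ≤ j * (1 + Real.log x) ^ j := by
      rcases Nat.eq_zero_or_pos j with rfl | hj
      · simp
      · obtain ⟨r, rfl⟩ : ∃ r, j = r + 1 := ⟨j - 1, by omega⟩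
        have h4 := (pow_sub_le hly hlyx r).2
        have h5 : y * (Real.log x - Real.log y) ≤ 1 := by
          rw [← Real.log_div (by linarith) (by linarith)]
          have := Real.log_le_sub_one_of_pos (show 0 < x / y by positivity)
          calc y * Real.log (x / y) ≤ y * (x / y - 1) := mul_le_mul_of_nonneg_left this (by linarith)
            _ = x - y := by field_simp
            _ ≤ 1 := by linarith
        have h6 : Real.log x ^ r ≤ (1 + Real.log x) ^ (r + 1) := by
          calc Real.log x ^ r ≤ (1 + Real.log x) ^ r := pow_le_pow_left₀ hlx (by linarith) r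
            _ ≤ _ := pow_le_pow_right₀ (by linarith) (by omega)
        calc y * (Real.log x ^ (r + 1) - Real.log y ^ (r + 1)) ≤
            y * ((r + 1) * ((Real.log x - Real.log y) * Real.log x ^ r)) :=
              mul_le_mul_of_nonneg_left h4 (by linarith)
          _ = (r + 1) * (y * (Real.log x - Real.log y)) * Real.log x ^ r := by ring
          _ ≤ (r + 1) * 1 * Real.log x ^ r := by
              apply mul_le_mul_of_nonneg_right _ (pow_nonneg hlx r)
              exact mul_le_mul_of_nonneg_left h5 (by positivity)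
          _ ≤ ((r + 1 : ℕ) : ℝ) * (1 + Real.log x) ^ (r + 1) := by
              push_cast
              rw [mul_one]
              exact mul_le_mul_of_nonneg_left h6 (by positivity)
    linarith
  · have := mul_le_mul hyx (pow_le_pow_left₀ hly hlyx j) (pow_nonneg hly j) (by linarith)
    linarith

theorem harm0 (N : ℕ) : ∑ q ∈ Icc 1 N, (1 : ℝ) / q ≤ 1 + Real.log N := by
  have h := harmonic_le_one_add_log N
  rw [harmonic_eq_sum_Icc] at h
  push_cast at h
  simpa [one_div] using h

/-- the error term -/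
noncomputable def er : ℕ → ℝ → ℝ
  | 0, _ => 0
  | (j + 1), L => (1 + L) ^ j

theorem er_le (j : ℕ) (L : ℝ) (hL : 0 ≤ L) : (1 + L) * er j L ≤ (1 + L) ^ j := by
  cases j with
  | zero => simp [er]
  | succ j => rw [er, pow_succ, mul_comm]

theorem er_nn (j : ℕ) (L : ℝ) (hL : 0 ≤ L) : 0 ≤ er j L := by
  cases j with
  | zero => simp [er]
  | succ j => rw [er]; positivity

theorem er_mono (j : ℕ) (L L' : ℝ) (hL : 0 ≤ L) (h : L ≤ L') : er j L ≤ er j L' := by
  cases j with
  | zero => simp [er]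
  | succ j => rw [er, er]; exact pow_le_pow_left₀ (by linarith) (by linarith) j

theorem cnt_asym (j : ℕ) : ∃ C : ℝ, 0 ≤ C ∧ ∀ N : ℕ, 1 ≤ N →
    |(cnt (j + 1) N : ℝ) - N * Real.log N ^ j / j.factorial| ≤ C * N * er j (Real.log N) := by
  induction j with
  | zero =>
    refine ⟨0, le_rfl, fun N hN => ?_⟩
    rw [zero_add, cnt_one]
    simp
  | succ j ih =>
    obtain ⟨C, hC, H⟩ := ih
    refine ⟨C + (j + 1) + 1, by positivity, fun N hN => ?_⟩
    have hN0 : (0 : ℝ) < N := by exact_mod_cast hN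
    have hL : 0 ≤ Real.log N := Real.log_nonneg (by exact_mod_cast hN)
    obtain ⟨L, hLd⟩ : ∃ L, L = Real.log N := ⟨_, rfl⟩
    have hj : (0 : ℝ) < (j.factorial : ℝ) := by exact_mod_cast Nat.factorial_pos j
    have hj1 : (1 : ℝ) ≤ (j.factorial : ℝ) := by exact_mod_cast Nat.factorial_pos j
    rw [cnt_succ]
    push_cast
    have h1 : ∀ m ∈ Icc 1 N, |(cnt (j + 1) (N / m) : ℝ) - N / j.factorial * (Real.log ((N : ℝ) / m) ^ j / m)| ≤
        C * N * er j L * (1 / m) + (j + 1) * (1 + L) ^ j := by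
      intro m hm
      rw [mem_Icc] at hm
      have hm0 : (0 : ℝ) < m := by exact_mod_cast (by omega : 0 < m)
      have hd : 1 ≤ N / m := Nat.div_pos hm.2 (by omega)
      have hx : (1 : ℝ) ≤ (N : ℝ) / m := by
        rw [le_div_iff₀ hm0, one_mul]
        exact_mod_cast hm.2
      have hfl : ⌊(N : ℝ) / m⌋₊ = N / m := Nat.floor_div_eq_div N m
      have h2 := H (N / m) hd
      have h3 := floor_aux j ((N : ℝ) / m) hx
      rw [hfl] at h3
      have hxN : (N : ℝ) / m ≤ N := div_le_self hN0.le (by exact_mod_cast hm.1)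
      have hlx : Real.log ((N : ℝ) / m) ≤ L := by
        rw [hLd]
        exact Real.log_le_log (by linarith) hxN
      have hdN : ((N / m : ℕ) : ℝ) ≤ (N : ℝ) / m := Nat.cast_div_le
      have hd0 : (0 : ℝ) < ((N / m : ℕ) : ℝ) := by exact_mod_cast hd
      have hld : Real.log ((N / m : ℕ) : ℝ) ≤ L := (Real.log_le_log hd0 hdN).trans hlx
      have hld0 : 0 ≤ Real.log ((N / m : ℕ) : ℝ) := Real.log_natCast_nonneg _
      have h4 : C * ((N / m : ℕ) : ℝ) * er j (Real.log ((N / m : ℕ) : ℝ)) ≤ C * N * er j L * (1 / m) := by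
        calc C * ((N / m : ℕ) : ℝ) * er j (Real.log ((N / m : ℕ) : ℝ)) ≤ C * ((N : ℝ) / m) * er j L := by
              apply mul_le_mul (mul_le_mul_of_nonneg_left hdN hC) (er_mono j _ _ hld0 hld) (er_nn j _ hld0)
              positivity
          _ = _ := by ring
      have h5 : |((N / m : ℕ) : ℝ) * Real.log ((N / m : ℕ) : ℝ) ^ j / j.factorial -
          N / j.factorial * (Real.log ((N : ℝ) / m) ^ j / m)| ≤ (j + 1) * (1 + L) ^ j := by
        have e : ((N / m : ℕ) : ℝ) * Real.log ((N / m : ℕ) : ℝ) ^ j / j.factorial -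
          N / j.factorial * (Real.log ((N : ℝ) / m) ^ j / m) =
          (((N / m : ℕ) : ℝ) * Real.log ((N / m : ℕ) : ℝ) ^ j - (N : ℝ) / m * Real.log ((N : ℝ) / m) ^ j) / j.factorial := by
          field_simp
        rw [e, abs_div, abs_of_pos hj]
        refine (div_le_self (abs_nonneg _) hj1).trans (h3.trans ?_)
        apply mul_le_mul_of_nonneg_left _ (by positivity)
        apply pow_le_pow_left₀ _ (by linarith)
        have := Real.log_nonneg hx
        linarith
      have h6 := abs_sub_le (cnt (j + 1) (N / m) : ℝ) (((N / m : ℕ) : ℝ) * Real.log ((N / m : ℕ) : ℝ) ^ j / j.factorial)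
        (N / j.factorial * (Real.log ((N : ℝ) / m) ^ j / m))
      linarith
    have h2 : |∑ m ∈ Icc 1 N, (cnt (j + 1) (N / m) : ℝ) -
        N / j.factorial * ∑ m ∈ Icc 1 N, Real.log ((N : ℝ) / m) ^ j / m| ≤
        (C + (j + 1)) * N * (1 + L) ^ j := by
      rw [mul_sum, ← sum_sub_distrib]
      refine (abs_sum_le_sum_abs _ _).trans ((sum_le_sum h1).trans ?_)
      rw [sum_add_distrib, ← mul_sum, sum_const, Nat.card_Icc, nsmul_eq_mul, Nat.add_sub_cancel]
      have h3 := harm0 N
      rw [← hLd] at h3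
      have hL0 : 0 ≤ L := by rw [hLd]; exact hL
      have h4 : C * N * er j L * ∑ q ∈ Icc 1 N, (1 : ℝ) / q ≤ C * N * (1 + L) ^ j := by
        have h5 : C * N * er j L * ∑ q ∈ Icc 1 N, (1 : ℝ) / q ≤ C * N * er j L * (1 + L) := by
          apply mul_le_mul_of_nonneg_left h3
          have := er_nn j L hL0
          positivity
        have h6 : C * N * ((1 + L) * er j L) ≤ C * N * (1 + L) ^ j :=
          mul_le_mul_of_nonneg_left (er_le j L hL0) (by positivity)
        linarith
      have e : (C + (j + 1)) * N * (1 + L) ^ j = C * N * (1 + L) ^ j + N * ((j + 1) * (1 + L) ^ j) := by ring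
      rw [e]
      linarith
    obtain ⟨t1, t2⟩ := Tsum j N hN
    rw [← hLd] at t1 t2 ⊢
    have hL0 : 0 ≤ L := by rw [hLd]; exact hL
    have h3 : |N / j.factorial * ∑ m ∈ Icc 1 N, Real.log ((N : ℝ) / m) ^ j / m -
        N * L ^ (j + 1) / ((j + 1).factorial : ℝ)| ≤ N * (1 + L) ^ j := by
      have e : N * L ^ (j + 1) / ((j + 1).factorial : ℝ) = N / j.factorial * (L ^ (j + 1) / (j + 1)) := by
        rw [Nat.factorial_succ]
        push_cast
        field_simp
      rw [e, ← mul_sub, abs_mul, abs_of_nonneg (by positivity)]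
      have h4 : |∑ m ∈ Icc 1 N, Real.log ((N : ℝ) / m) ^ j / m - L ^ (j + 1) / (j + 1)| ≤ (1 + L) ^ j := by
        rw [abs_le]
        have h5 : L ^ j ≤ (1 + L) ^ j := pow_le_pow_left₀ hL0 (by linarith) j
        have h6 : 0 ≤ (1 + L) ^ j := by positivity
        constructor
        · linarith
        · linarith
      exact mul_le_mul (div_le_self hN0.le hj1) h4 (abs_nonneg _) hN0.le
    have h4 := abs_sub_le (∑ m ∈ Icc 1 N, (cnt (j + 1) (N / m) : ℝ))
      (N / j.factorial * ∑ m ∈ Icc 1 N, Real.log ((N : ℝ) / m) ^ j / m) (N * L ^ (j + 1) / ((j + 1).factorial : ℝ))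
    rw [er.eq_2]
    have e : (C + (j + 1) + 1) * N * (1 + L) ^ j = (C + (j + 1)) * N * (1 + L) ^ j + N * (1 + L) ^ j := by ring
    rw [e]
    linarith

/-- the upper bound -/
theorem cnt_le (j : ℕ) : ∃ C : ℝ, 1 ≤ C ∧ ∀ N : ℕ, (cnt (j + 1) N : ℝ) ≤ C * N * (1 + Real.log N) ^ j := by
  obtain ⟨C, hC, H⟩ := cnt_asym j
  refine ⟨C + 1, by linarith, fun N => ?_⟩
  rcases Nat.eq_zero_or_pos N with rfl | hN
  · rw [cnt_succ]
    simp
  · have hN0 : (0 : ℝ) < N := by exact_mod_cast hN
    have h1 := (abs_le.1 (H N hN)).2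
    obtain ⟨L, hLd⟩ : ∃ L, L = Real.log N := ⟨_, rfl⟩
    have hL0 : 0 ≤ L := by rw [hLd]; exact Real.log_natCast_nonneg N
    rw [← hLd] at h1 ⊢
    have hj1 : (1 : ℝ) ≤ (j.factorial : ℝ) := by exact_mod_cast Nat.factorial_pos j
    have h2 : N * L ^ j / j.factorial ≤ N * (1 + L) ^ j :=
      (div_le_self (by positivity) hj1).trans (mul_le_mul_of_nonneg_left (pow_le_pow_left₀ hL0 (by linarith) j) hN0.le)
    have h3 : C * N * er j L ≤ C * N * (1 + L) ^ j := by
      apply mul_le_mul_of_nonneg_left _ (by positivity)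
      have h4 := er_le j L hL0
      have h5 : er j L ≤ (1 + L) * er j L := le_mul_of_one_le_left (er_nn j L hL0) (by linarith)
      linarith
    have e : (C + 1) * N * (1 + L) ^ j = C * N * (1 + L) ^ j + N * (1 + L) ^ j := by ring
    rw [e]
    linarith

end Pool.Agent.Q148.TD
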