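import Mathlib

/-! Ordered factorizations and the position of the first largest factor. -/

set_option autoImplicit false

namespace Pool.Agent.Q148.TD

open Finset

/-- the number of the ordered factorizations of `n` into `k` positive factors -/
def tauk (k n : ℕ) : ℕ := (Nat.finMulAntidiag k n).card

/-- the tuples with entries in `[1, X]` -/
def box (j X : ℕ) : Finset (Fin j → ℕ) := Fintype.piFinset (fun _ => Icc 1 X)

theorem mem_box {j X : ℕ} {g : Fin j → ℕ} : g ∈ box j X ↔ ∀ x, 1 ≤ g x ∧ g x ≤ X := by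
  unfold box
  rw [Fintype.mem_piFinset]
  simp only [mem_Icc]

/-- one for the places before `i` -/
def eps {j : ℕ} (i : Fin (j + 1)) (x : Fin j) : ℕ := if i.succAbove x < i then 1 else 0

/-- the least integer `n` for which `n / ∏ g` is the first largest factor at the place `i` -/
def thr {j : ℕ} (i : Fin (j + 1)) (g : Fin j → ℕ) : ℕ := (∏ x, g x) * (univ.sup fun x => g x + eps i x)

/-- `i` is the place of the first largest entry -/
def Mx {j : ℕ} (i : Fin (j + 1)) (f : Fin (j + 1) → ℕ) : Prop :=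
  (∀ y, y < i → f y < f i) ∧ ∀ y, i < y → f y ≤ f i

theorem exists_Mx {j : ℕ} (f : Fin (j + 1) → ℕ) : ∃ i, Mx i f := by
  classical
  obtain ⟨i0, _, hi0⟩ := exists_max_image univ f ⟨0, mem_univ _⟩
  obtain ⟨i, hi, hmin⟩ := exists_min_image (univ.filter fun i => f i = f i0) (fun i => i)
    ⟨i0, mem_filter.2 ⟨mem_univ _, rfl⟩⟩
  rw [mem_filter] at hi
  refine ⟨i, fun y hy => ?_, fun y _ => ?_⟩
  · have h1 := hi0 y (mem_univ _)
    rw [hi.2]
    rcases Nat.lt_or_eq_of_le h1 with h2 | h2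
    · exact h2
    · have := hmin y (mem_filter.2 ⟨mem_univ _, h2⟩)
      omega
  · rw [hi.2]
    exact hi0 y (mem_univ _)

theorem Mx_unique {j : ℕ} (f : Fin (j + 1) → ℕ) (i i' : Fin (j + 1)) (h : Mx i f) (h' : Mx i' f) : i = i' := by
  rcases lt_trichotomy i i' with h1 | h1 | h1
  · have h2 := h'.1 i h1
    have h3 := h.2 i' h1
    omega
  · exact h1
  · have h2 := h.1 i' h1
    have h3 := h'.2 i h1
    omega

theorem Mx_iff {j : ℕ} (i : Fin (j + 1)) (f : Fin (j + 1) → ℕ) :
    Mx i f ↔ ∀ x, f (i.succAbove x) + eps i x ≤ f i := by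
  constructor
  · rintro ⟨h1, h2⟩ x
    unfold eps
    split_ifs with h
    · exact h1 _ h
    · have h3 : i.succAbove x ≠ i := Fin.succAbove_ne i x
      have h4 : i < i.succAbove x := lt_of_le_of_ne (not_lt.1 h) (Ne.symm h3)
      have := h2 _ h4
      omega
  · intro h
    constructor
    · intro y hy
      obtain ⟨x, rfl⟩ := Fin.exists_succAbove_eq (ne_of_lt hy)
      have := h x
      unfold eps at this
      rw [if_pos hy] at this
      omega
    · intro y hy
      obtain ⟨x, rfl⟩ := Fin.exists_succAbove_eq (ne_of_gt hy)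
      have := h x
      omega

theorem thr_le_iff {j : ℕ} (i : Fin (j + 1)) (g : Fin j → ℕ) (n : ℕ) (hm : 0 < ∏ x, g x) :
    thr i g ≤ n ↔ ∀ x, g x + eps i x ≤ n / ∏ x, g x := by
  unfold thr
  rw [mul_comm, ← Nat.le_div_iff_mul_le hm, Finset.sup_le_iff]
  simp

open Classical in
theorem tau_decomp (j X n : ℕ) (hn : 1 ≤ n) (hX : n ≤ X) :
    tauk (j + 1) n = ∑ i : Fin (j + 1), ((box j X).filter (fun g => ∏ x, g x ∣ n ∧ thr i g ≤ n)).card := by
  have h1 : tauk (j + 1) n = ∑ i : Fin (j + 1), ((Nat.finMulAntidiag (j + 1) n).filter (Mx i)).card := by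
    unfold tauk
    rw [card_eq_sum_ones]
    have h2 : ∀ f ∈ Nat.finMulAntidiag (j + 1) n, (1 : ℕ) = ∑ i : Fin (j + 1), if Mx i f then 1 else 0 := by
      intro f _
      obtain ⟨i, hi⟩ := exists_Mx f
      rw [sum_eq_single i]
      · rw [if_pos hi]
      · intro i' _ hne
        rw [if_neg]
        intro h
        exact hne (Mx_unique f i' i h hi)
      · intro h
        exact absurd (mem_univ _) h
    rw [sum_congr rfl h2, sum_comm]
    apply sum_congr rfl
    intro i _
    rw [card_filter]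
  rw [h1]
  apply sum_congr rfl
  intro i _
  refine card_bij' (fun f _ => fun x => f (i.succAbove x)) (fun g _ => i.insertNth (n / ∏ x, g x) g) ?_ ?_ ?_ ?_
  · -- maps to
    intro f hf
    rw [mem_filter, Nat.mem_finMulAntidiag] at hf
    obtain ⟨⟨hf1, hf2⟩, hf3⟩ := hf
    rw [Fin.prod_univ_succAbove f i] at hf1
    have hm : 0 < ∏ x, f (i.succAbove x) := by
      apply Nat.pos_of_ne_zero
      intro h
      rw [h, mul_zero] at hf1
      exact hf2 hf1.symm
    have hdiv : n / ∏ x, f (i.succAbove x) = f i := by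
      rw [← hf1, Nat.mul_div_cancel _ hm]
    rw [mem_filter, mem_box]
    refine ⟨fun x => ?_, ⟨f i, by rw [← hf1, mul_comm]⟩, ?_⟩
    · have hx : 0 < f (i.succAbove x) := Nat.pos_of_ne_zero ((prod_ne_zero_iff.1 hm.ne') x (mem_univ x))
      refine ⟨hx, ?_⟩
      have h3 : f (i.succAbove x) ∣ ∏ x, f (i.succAbove x) := dvd_prod_of_mem _ (mem_univ x)
      have h4 : f (i.succAbove x) ∣ n := h3.trans ⟨f i, by rw [← hf1, mul_comm]⟩
      exact (Nat.le_of_dvd (by omega) h4).trans hX
    · rw [thr_le_iff i _ n hm, hdiv]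
      exact (Mx_iff i f).1 hf3
  · intro g hg
    rw [mem_filter, mem_box] at hg
    obtain ⟨hg1, hg2, hg3⟩ := hg
    have hm : 0 < ∏ x, g x := prod_pos fun x _ => (hg1 x).1
    rw [mem_filter, Nat.mem_finMulAntidiag]
    refine ⟨⟨?_, by omega⟩, ?_⟩
    · rw [Fin.prod_univ_succAbove _ i]
      simp only [Fin.insertNth_apply_same, Fin.insertNth_apply_succAbove]
      exact Nat.div_mul_cancel hg2
    · rw [Mx_iff]
      intro x
      simp only [Fin.insertNth_apply_same, Fin.insertNth_apply_succAbove]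
      exact (thr_le_iff i g n hm).1 hg3 x
  · intro f hf
    rw [mem_filter, Nat.mem_finMulAntidiag] at hf
    obtain ⟨⟨hf1, hf2⟩, hf3⟩ := hf
    rw [Fin.prod_univ_succAbove f i] at hf1
    have hm : 0 < ∏ x, f (i.succAbove x) := by
      apply Nat.pos_of_ne_zero
      intro h
      rw [h, mul_zero] at hf1
      exact hf2 hf1.symm
    have hdiv : n / ∏ x, f (i.succAbove x) = f i := by
      rw [← hf1, Nat.mul_div_cancel _ hm]
    funext y
    rcases eq_or_ne y i with rfl | hy
    · rw [Fin.insertNth_apply_same, hdiv]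
    · obtain ⟨x, rfl⟩ := Fin.exists_succAbove_eq hy
      rw [Fin.insertNth_apply_succAbove]
  · intro g hg
    funext x
    exact Fin.insertNth_apply_succAbove (α := fun _ => ℕ) i _ g x

theorem thr_pos {j X : ℕ} (hj : 1 ≤ j) (i : Fin (j + 1)) (g : Fin j → ℕ) (hg : g ∈ box j X) :
    ∏ x, g x ≤ thr i g ∧ 1 ≤ ∏ x, g x := by
  rw [mem_box] at hg
  have hm : 0 < ∏ x, g x := prod_pos fun x _ => (hg x).1
  refine ⟨?_, hm⟩
  unfold thr
  apply Nat.le_mul_of_pos_right
  have h1 := Finset.le_sup (f := fun x => g x + eps i x) (mem_univ (⟨0, hj⟩ : Fin j))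
  have h2 := (hg ⟨0, hj⟩).1
  omega

/-- `(∏ g) ^ (j + 1) ≤ X ^ j` if the threshold is at most `X` -/
theorem prod_pow_le {j X : ℕ} (i : Fin (j + 1)) (g : Fin j → ℕ) (n : ℕ) (hg : g ∈ box j X) (h : thr i g ≤ n) :
    (∏ x, g x) ^ (j + 1) ≤ n ^ j := by
  have hg' := mem_box.1 hg
  have hm : 0 < ∏ x, g x := prod_pos fun x _ => (hg' x).1
  have h1 : ∀ x, g x * (∏ x, g x) ≤ n := by
    intro x
    have := (thr_le_iff i g n hm).1 h x
    rw [← Nat.le_div_iff_mul_le hm]
    omega
  calc (∏ x, g x) ^ (j + 1) = (∏ x, g x) * ∏ _x : Fin j, ∏ x, g x := by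
        rw [prod_const, card_univ, Fintype.card_fin, pow_succ, mul_comm]
    _ = ∏ x, (g x * ∏ x, g x) := by rw [← prod_mul_distrib]
    _ ≤ ∏ _x : Fin j, n := prod_le_prod' fun x _ => h1 x
    _ = n ^ j := by rw [prod_const, card_univ, Fintype.card_fin]

end Pool.Agent.Q148.TD
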