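import Pool.Agent.Q148.TD.Zp
import Pool.Agent.Q148.BA.Sums

/-! The weighted sums. -/

set_option autoImplicit false

namespace Pool.Agent.Q148.TD

open Finset
open Pool.Agent.Q148.BA (PP mem_PP)

/-- the sum of `f(∏ g) / ∏ g` with `f(m) = ∏ (1 + s p)` over the primes `p ∣ m` -/
noncomputable def Wi (j : ℕ) (i : Fin (j + 1)) (s : ℕ → ℝ) (n : ℕ) : ℝ :=
  ∑ g ∈ TT j i n, (∏ p ∈ (∏ x, g x).primeFactors, (1 + s p)) * (1 / ((∏ x, g x : ℕ) : ℝ))

noncomputable def WW (j : ℕ) (s : ℕ → ℝ) (n : ℕ) : ℝ := ∑ i : Fin (j + 1), Wi j i s n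

theorem Wi_eq (j : ℕ) (hj : 1 ≤ j) (i : Fin (j + 1)) (s : ℕ → ℝ) (n Y : ℕ) (hY : n ≤ Y) :
    Wi j i s n = ∑ P ∈ (PP Y).powerset, (∏ p ∈ P, s p) * Zp i P (fun _ => 1) n := by
  classical
  have h1 : ∀ g ∈ TT j i n, (∏ p ∈ (∏ x, g x).primeFactors, (1 + s p)) * (1 / ((∏ x, g x : ℕ) : ℝ)) =
      ∑ P ∈ (PP Y).powerset, (∏ p ∈ P, s p) * (if ∀ p ∈ P, p ∣ ∏ x, g x then 1 / ((∏ x, g x : ℕ) : ℝ) else 0) := by
    intro g hg
    have hg' := (mem_TT hj i g).1 hg
    have hm1 : ∏ x, g x ≤ n := by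
      unfold TT at hg
      rw [mem_filter] at hg
      exact (thr_pos hj i g hg.1).1.trans hg.2
    have hm0 : 0 < ∏ x, g x := prod_pos fun x _ => hg'.1 x
    have h2 : ∏ p ∈ (∏ x, g x).primeFactors, (1 + s p) = ∏ p ∈ PP Y, (1 + if p ∣ ∏ x, g x then s p else 0) := by
      rw [← prod_subset (s₁ := (∏ x, g x).primeFactors) (s₂ := PP Y)]
      · apply prod_congr rfl
        intro p hp
        rw [if_pos (Nat.dvd_of_mem_primeFactors hp)]
      · intro p hp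
        rw [Nat.mem_primeFactors] at hp
        rw [mem_PP]
        have := Nat.le_of_dvd hm0 hp.2.1
        exact ⟨hp.1, by omega⟩
      · intro p hp hnp
        rw [mem_PP] at hp
        rw [if_neg, add_zero]
        intro hd
        exact hnp (Nat.mem_primeFactors.2 ⟨hp.1, hd, hm0.ne'⟩)
    rw [h2, Finset.prod_one_add, sum_mul]
    apply sum_congr rfl
    intro P _
    by_cases h : ∀ p ∈ P, p ∣ ∏ x, g x
    · rw [if_pos h, prod_congr rfl (fun p hp => if_pos (h p hp))]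
    · rw [if_neg h, mul_zero]
      push Not at h
      obtain ⟨p, hp, hpd⟩ := h
      rw [prod_eq_zero hp (if_neg hpd), zero_mul]
  unfold Wi
  rw [sum_congr rfl h1, sum_comm]
  apply sum_congr rfl
  intro P _
  rw [← mul_sum]
  congr 1
  unfold Zp
  rw [← sum_filter]
  apply sum_congr _ (fun _ _ => rfl)
  ext g
  rw [mem_filter, mem_TT hj, mem_BB hj i _ (fun _ => le_rfl)]
  simp only [one_mul]
  tauto

theorem Wi_bd (j : ℕ) (hj : 1 ≤ j) (i : Fin (j + 1)) (s : ℕ → ℝ) (n Y : ℕ) (hY : n ≤ Y) :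
    |Wi j i s n - (∏ p ∈ PP Y, (1 + s p * rho j p)) * Zi j i n| ≤
      ∑ P ∈ (PP Y).powerset, (∏ p ∈ P, (|s p| * bb j p)) * (Zi j i n - Zi j i (n / ∏ p ∈ P, p ^ (j + 1))) := by
  have h1 : Wi j i s n - (∏ p ∈ PP Y, (1 + s p * rho j p)) * Zi j i n =
      ∑ P ∈ (PP Y).powerset, (∏ p ∈ P, s p) * (Zp i P (fun _ => 1) n - (∏ p ∈ P, rho j p) * Zi j i n) := by
    rw [Wi_eq j hj i s n Y hY, Finset.prod_one_add, sum_mul, ← sum_sub_distrib]
    apply sum_congr rfl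
    intro P _
    rw [prod_mul_distrib]
    ring
  rw [h1]
  refine (abs_sum_le_sum_abs _ _).trans (sum_le_sum ?_)
  intro P hP
  rw [mem_powerset] at hP
  rw [abs_mul, prod_mul_distrib, mul_assoc, Finset.abs_prod]
  apply mul_le_mul_of_nonneg_left _ (prod_nonneg fun _ _ => abs_nonneg _)
  have h2 := Zp_bd hj i n P (fun q hq => (mem_PP.1 (hP hq)).1) (fun _ => 1) 1 (fun _ => le_rfl) le_rfl (by
    intro g
    simp)
  rw [one_mul] at h2
  exact h2

theorem ZZ_diff (r : ℕ) : ∃ C : ℝ, 1 ≤ C ∧ ∀ n D : ℕ, 1 ≤ n → 1 ≤ D →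
    ZZ (r + 1) n - ZZ (r + 1) (n / D) ≤ C * (1 + Real.log n) ^ r * (1 + Real.log D) := by
  obtain ⟨C, hC, H⟩ := ZZ_asym r
  refine ⟨2 * C + 2 * (r + 1), by linarith [show (0 : ℝ) ≤ r from Nat.cast_nonneg r], fun n D hn hD => ?_⟩
  have hn0 : (0 : ℝ) < n := by exact_mod_cast hn
  have hD0 : (0 : ℝ) < D := by exact_mod_cast hD
  have hf1 : (1 : ℝ) ≤ ((r + 1).factorial : ℝ) := by exact_mod_cast Nat.factorial_pos (r + 1)
  have hf0 : (0 : ℝ) < ((r + 1).factorial : ℝ) := by linarith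
  obtain ⟨L, hL⟩ : ∃ L, L = Real.log n := ⟨_, rfl⟩
  obtain ⟨l, hl⟩ : ∃ l, l = Real.log D := ⟨_, rfl⟩
  have hL0 : 0 ≤ L := by rw [hL]; exact Real.log_natCast_nonneg n
  have hl0 : 0 ≤ l := by rw [hl]; exact Real.log_natCast_nonneg D
  have h1 := (abs_le.1 (H n hn)).2
  rw [← hL] at h1 ⊢
  rw [← hl]
  have hp : 0 ≤ (1 + L) ^ r := by positivity
  have hLr : L ^ r ≤ (1 + L) ^ r := pow_le_pow_left₀ hL0 (by linarith) r
  have hr0 : (0 : ℝ) ≤ r := Nat.cast_nonneg r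
  have hCp : 0 ≤ C * (1 + L) ^ r * l := by positivity
  have e : (2 * C + 2 * (r + 1)) * (1 + L) ^ r * (1 + l) =
      2 * (C * (1 + L) ^ r) + 2 * (C * (1 + L) ^ r * l) + 2 * ((r + 1) * ((1 + l) * (1 + L) ^ r)) := by ring
  rw [e]
  have hq0 : 0 ≤ (r + 1) * ((1 + l) * (1 + L) ^ r) := by positivity
  rcases Nat.eq_zero_or_pos (n / D) with h0 | h0
  · have hnD : n < D := by
      rcases Nat.lt_or_ge n D with h | h
      · exact h
      · have := Nat.div_pos h hD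
        omega
    have h2 : 0 ≤ ZZ (r + 1) (n / D) := sum_nonneg fun i _ => Zi_nn i _
    have hLl : L ≤ l := by
      rw [hL, hl]
      exact Real.log_le_log hn0 (by exact_mod_cast hnD.le)
    have h3 : L ^ (r + 1) / (r + 1).factorial ≤ (r + 1) * ((1 + l) * (1 + L) ^ r) := by
      refine (div_le_self (by positivity) hf1).trans ?_
      rw [pow_succ]
      calc L ^ r * L ≤ (1 + L) ^ r * (1 + l) := mul_le_mul hLr (by linarith) hL0 hp
        _ = 1 * ((1 + l) * (1 + L) ^ r) := by ring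
        _ ≤ _ := mul_le_mul_of_nonneg_right (by linarith) (by positivity)
    have h4 : 0 ≤ C * (1 + L) ^ r := by positivity
    linarith
  · have h2 := (abs_le.1 (H (n / D) h0)).1
    obtain ⟨M, hM⟩ : ∃ M, M = Real.log ((n / D : ℕ) : ℝ) := ⟨_, rfl⟩
    rw [← hM] at h2
    have hd0 : (0 : ℝ) < ((n / D : ℕ) : ℝ) := by exact_mod_cast h0
    have hM0 : 0 ≤ M := by rw [hM]; exact Real.log_natCast_nonneg _
    have hML : M ≤ L := by
      rw [hM, hL]
      exact Real.log_le_log hd0 (by exact_mod_cast Nat.div_le_self n D)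
    have hLM : L - M ≤ 1 + l := by
      rw [hM, hL, ← Real.log_div hn0.ne' hd0.ne', hl]
      have h3 : (n : ℝ) / ((n / D : ℕ) : ℝ) ≤ 2 * D := by
        rw [div_le_iff₀ hd0]
        have h4 := Nat.lt_div_mul_add (a := n) (b := D) hD
        have h5 : n ≤ 2 * D * (n / D) := by nlinarith
        exact_mod_cast h5
      have h4 : Real.log ((n : ℝ) / ((n / D : ℕ) : ℝ)) ≤ Real.log (2 * D) := Real.log_le_log (by positivity) h3
      rw [Real.log_mul (by norm_num) hD0.ne'] at h4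
      have := Real.log_two_lt_d9
      linarith
    have h3 := (pow_sub_le hM0 hML r).2
    have h4 : (L - M) * L ^ r ≤ (1 + l) * (1 + L) ^ r :=
      mul_le_mul hLM hLr (by positivity) (by linarith)
    have h5 : L ^ (r + 1) - M ^ (r + 1) ≤ (r + 1) * ((1 + l) * (1 + L) ^ r) :=
      h3.trans (mul_le_mul_of_nonneg_left h4 (by positivity))
    have h5' : 0 ≤ L ^ (r + 1) - M ^ (r + 1) := by
      have := pow_le_pow_left₀ hM0 hML (r + 1)
      linarith
    have h6 : L ^ (r + 1) / (r + 1).factorial - M ^ (r + 1) / (r + 1).factorial ≤ (r + 1) * ((1 + l) * (1 + L) ^ r) := by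
      rw [← sub_div]
      exact (div_le_self h5' hf1).trans h5
    have h7 : C * (1 + M) ^ r ≤ C * (1 + L) ^ r :=
      mul_le_mul_of_nonneg_left (pow_le_pow_left₀ (by linarith) (by linarith) r) hC
    linarith

theorem subset_sum (s : Finset ℕ) (a lam : ℕ → ℝ) (ha : ∀ p ∈ s, 0 ≤ a p) (hl : ∀ p ∈ s, 0 ≤ lam p) :
    ∑ P ∈ s.powerset, (∏ p ∈ P, a p) * (1 + ∑ p ∈ P, lam p) ≤
      (∏ p ∈ s, (1 + a p)) * (1 + ∑ p ∈ s, a p * lam p) := by
  classical
  induction s using Finset.induction_on with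
  | empty => simp
  | insert p s hps ih =>
    have ih' := ih (fun q hq => ha q (mem_insert_of_mem hq)) (fun q hq => hl q (mem_insert_of_mem hq))
    have hap := ha p (mem_insert_self _ _)
    have hlp := hl p (mem_insert_self _ _)
    rw [sum_powerset_insert hps, prod_insert hps, sum_insert hps]
    have h1 : ∀ P ∈ s.powerset, (∏ q ∈ insert p P, a q) * (1 + ∑ q ∈ insert p P, lam q) =
        a p * ((∏ q ∈ P, a q) * (1 + ∑ q ∈ P, lam q)) + a p * lam p * ∏ q ∈ P, a q := by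
      intro P hP
      rw [mem_powerset] at hP
      have : p ∉ P := fun h => hps (hP h)
      rw [prod_insert this, sum_insert this]
      ring
    rw [sum_congr rfl h1, sum_add_distrib, ← mul_sum, ← mul_sum, ← Finset.prod_one_add]
    obtain ⟨A, hA⟩ : ∃ A, A = ∑ P ∈ s.powerset, (∏ p ∈ P, a p) * (1 + ∑ p ∈ P, lam p) := ⟨_, rfl⟩
    obtain ⟨B, hB⟩ : ∃ B, B = ∏ p ∈ s, (1 + a p) := ⟨_, rfl⟩
    obtain ⟨D, hD⟩ : ∃ D, D = ∑ p ∈ s, a p * lam p := ⟨_, rfl⟩
    rw [← hA, ← hB, ← hD] at ih'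
    rw [← hA, ← hB, ← hD]
    have hB0 : 0 ≤ B := by
      rw [hB]
      apply prod_nonneg
      intro q hq
      have := ha q (mem_insert_of_mem hq)
      linarith
    have h2 : (1 + a p) * A ≤ (1 + a p) * (B * (1 + D)) := mul_le_mul_of_nonneg_left ih' (by linarith)
    have h3 : 0 ≤ a p * (a p * lam p * B) := by positivity
    nlinarith

/-- **the weighted sums** -/
theorem WW_bd (r : ℕ) : ∃ C : ℝ, 1 ≤ C ∧ ∀ (s : ℕ → ℝ) (n Y : ℕ), 1 ≤ n → n ≤ Y →
    |WW (r + 1) s n - (∏ p ∈ PP Y, (1 + s p * rho (r + 1) p)) * ZZ (r + 1) n| ≤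
      C * (1 + Real.log n) ^ r * ((∏ p ∈ PP Y, (1 + |s p| * bb (r + 1) p)) *
        (1 + ∑ p ∈ PP Y, |s p| * bb (r + 1) p * ((r + 2) * Real.log p))) := by
  classical
  obtain ⟨C, hC, H⟩ := ZZ_diff r
  refine ⟨C, hC, fun s n Y hn hY => ?_⟩
  have h1 : WW (r + 1) s n - (∏ p ∈ PP Y, (1 + s p * rho (r + 1) p)) * ZZ (r + 1) n =
      ∑ i : Fin (r + 1 + 1), (Wi (r + 1) i s n - (∏ p ∈ PP Y, (1 + s p * rho (r + 1) p)) * Zi (r + 1) i n) := by
    unfold WW ZZ
    rw [mul_sum, ← sum_sub_distrib]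
  rw [h1]
  refine (abs_sum_le_sum_abs _ _).trans ?_
  refine (sum_le_sum fun i _ => Wi_bd (r + 1) (by omega) i s n Y hY).trans ?_
  rw [sum_comm]
  have ha : ∀ p ∈ PP Y, 0 ≤ |s p| * bb (r + 1) p := by
    intro p _
    apply mul_nonneg (abs_nonneg _)
    unfold bb
    have : (1 : ℝ) ≤ (1 + 1 / (p : ℝ)) ^ (r + 1) := one_le_pow₀ (by
      have : 0 ≤ 1 / (p : ℝ) := by positivity
      linarith)
    linarith
  have h2 : ∀ P ∈ (PP Y).powerset, ∑ i : Fin (r + 1 + 1), (∏ p ∈ P, (|s p| * bb (r + 1) p)) *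
      (Zi (r + 1) i n - Zi (r + 1) i (n / ∏ p ∈ P, p ^ (r + 1 + 1))) ≤
      C * (1 + Real.log n) ^ r * ((∏ p ∈ P, (|s p| * bb (r + 1) p)) * (1 + ∑ p ∈ P, (r + 2) * Real.log p)) := by
    intro P hP
    rw [mem_powerset] at hP
    rw [← mul_sum, sum_sub_distrib]
    have h3 : 1 ≤ ∏ p ∈ P, p ^ (r + 1 + 1) := by
      apply Nat.one_le_iff_ne_zero.2
      rw [prod_ne_zero_iff]
      intro p hp
      exact pow_ne_zero _ (mem_PP.1 (hP hp)).1.ne_zero
    have h4 := H n (∏ p ∈ P, p ^ (r + 1 + 1)) hn h3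
    have h5 : Real.log ((∏ p ∈ P, p ^ (r + 1 + 1) : ℕ) : ℝ) = ∑ p ∈ P, (r + 2) * Real.log p := by
      push_cast
      rw [Real.log_prod]
      · apply sum_congr rfl
        intro p _
        rw [Real.log_pow]
        push_cast
        ring
      · intro p hp
        have := (mem_PP.1 (hP hp)).1.ne_zero
        positivity
    rw [h5] at h4
    have h6 : 0 ≤ ∏ p ∈ P, (|s p| * bb (r + 1) p) := prod_nonneg fun p hp => ha p (hP hp)
    calc (∏ p ∈ P, (|s p| * bb (r + 1) p)) * (∑ i, Zi (r + 1) i n - ∑ i, Zi (r + 1) i (n / ∏ p ∈ P, p ^ (r + 1 + 1))) ≤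
        (∏ p ∈ P, (|s p| * bb (r + 1) p)) * (C * (1 + Real.log n) ^ r * (1 + ∑ p ∈ P, (r + 2) * Real.log p)) :=
          mul_le_mul_of_nonneg_left h4 h6
      _ = _ := by ring
  refine (sum_le_sum h2).trans ?_
  rw [← mul_sum]
  apply mul_le_mul_of_nonneg_left
  · exact subset_sum (PP Y) _ (fun p => (r + 2) * Real.log p) ha (fun p _ => by
      have := Real.log_natCast_nonneg p
      positivity)
  · have := Real.log_natCast_nonneg n
    positivity

end Pool.Agent.Q148.TD
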