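import Pool.Agent.Q148.TD.Sk2

/-! The sums of `1 / ∏ g` over the tuples with bounded threshold. -/

set_option autoImplicit false

namespace Pool.Agent.Q148.TD

open Finset

/-- the tuples with threshold at most `n` -/
def TT (j : ℕ) (i : Fin (j + 1)) (n : ℕ) : Finset (Fin j → ℕ) := (box j n).filter (fun g => thr i g ≤ n)

theorem box_TT {j X n : ℕ} (hj : 1 ≤ j) (i : Fin (j + 1)) (hn : n ≤ X) :
    (box j X).filter (fun g => thr i g ≤ n) = TT j i n := by
  ext g
  unfold TT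
  rw [mem_filter, mem_filter, mem_box, mem_box]
  constructor
  · rintro ⟨h1, h2⟩
    have h3 := thr_pos hj i g (mem_box.2 h1)
    refine ⟨fun x => ⟨(h1 x).1, ?_⟩, h2⟩
    have h4 := Nat.le_of_dvd h3.2 (dvd_prod_of_mem g (mem_univ x))
    omega
  · rintro ⟨h1, h2⟩
    exact ⟨fun x => ⟨(h1 x).1, (h1 x).2.trans hn⟩, h2⟩

theorem mem_TT {j n : ℕ} (hj : 1 ≤ j) (i : Fin (j + 1)) (g : Fin j → ℕ) :
    g ∈ TT j i n ↔ (∀ x, 1 ≤ g x) ∧ thr i g ≤ n := by
  unfold TT
  rw [mem_filter, mem_box]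
  constructor
  · rintro ⟨h1, h2⟩
    exact ⟨fun x => (h1 x).1, h2⟩
  · rintro ⟨h1, h2⟩
    refine ⟨fun x => ⟨h1 x, ?_⟩, h2⟩
    have hg : g ∈ box j (∏ x, g x) := by
      rw [mem_box]
      intro x
      exact ⟨h1 x, Nat.le_of_dvd (prod_pos fun y _ => h1 y) (dvd_prod_of_mem g (mem_univ x))⟩
    have h3 := thr_pos hj i g hg
    have h4 := Nat.le_of_dvd h3.2 (dvd_prod_of_mem g (mem_univ x))
    omega

theorem card_TT {j n : ℕ} (hj : 1 ≤ j) (i : Fin (j + 1)) : (TT j i n).card ≤ cnt j n := by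
  apply card_le_card
  intro g hg
  have h1 := (mem_TT hj i g).1 hg
  unfold TT at hg
  rw [mem_filter] at hg
  rw [mem_filter]
  exact ⟨hg.1, (thr_pos hj i g hg.1).1.trans hg.2⟩

/-- the sum of `1 / ∏ g` -/
noncomputable def Zi (j : ℕ) (i : Fin (j + 1)) (n : ℕ) : ℝ := ∑ g ∈ TT j i n, 1 / ((∏ x, g x : ℕ) : ℝ)

noncomputable def ZZ (j n : ℕ) : ℝ := ∑ i : Fin (j + 1), Zi j i n

theorem TT_mono {j : ℕ} (hj : 1 ≤ j) (i : Fin (j + 1)) {n n' : ℕ} (h : n ≤ n') : TT j i n ⊆ TT j i n' := by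
  intro g hg
  rw [mem_TT hj] at hg ⊢
  exact ⟨hg.1, hg.2.trans h⟩

theorem Zi_mono {j : ℕ} (hj : 1 ≤ j) (i : Fin (j + 1)) {n n' : ℕ} (h : n ≤ n') : Zi j i n ≤ Zi j i n' :=
  sum_le_sum_of_subset_of_nonneg (TT_mono hj i h) (fun _ _ _ => by positivity)

theorem Zi_nn {j : ℕ} (i : Fin (j + 1)) (n : ℕ) : 0 ≤ Zi j i n := sum_nonneg fun _ _ => by positivity

theorem ZZ_mono {j : ℕ} (hj : 1 ≤ j) {n n' : ℕ} (h : n ≤ n') : ZZ j n ≤ ZZ j n' :=
  sum_le_sum fun i _ => Zi_mono hj i h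

/-- the number of the multiples in an interval -/
theorem mult_bd (N m : ℕ) (hm : 1 ≤ m) : (N : ℝ) / m - 1 ≤ (((Ioc N (2 * N)).filter (fun n => m ∣ n)).card : ℝ) ∧
    (((Ioc N (2 * N)).filter (fun n => m ∣ n)).card : ℝ) ≤ (N : ℝ) / m + 1 := by
  have h1 : ((Ioc N (2 * N)).filter (fun n => m ∣ n)).card = 2 * N / m - N / m := by
    have h2 := Nat.Ioc_filter_dvd_card_eq_div (2 * N) m
    have h3 := Nat.Ioc_filter_dvd_card_eq_div N m
    have h4 : (Ioc 0 (2 * N)).filter (fun n => m ∣ n) =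
        (Ioc 0 N).filter (fun n => m ∣ n) ∪ (Ioc N (2 * N)).filter (fun n => m ∣ n) := by
      rw [← filter_union, Ioc_union_Ioc_eq_Ioc (Nat.zero_le _) (by omega)]
    rw [h4, card_union_of_disjoint, h3] at h2
    · omega
    · apply disjoint_filter_filter
      rw [disjoint_left]
      intro x hx hx'
      rw [mem_Ioc] at hx hx'
      omega
  have hm0 : (0 : ℝ) < m := by exact_mod_cast hm
  have hle : N / m ≤ 2 * N / m := Nat.div_le_div_right (by omega)
  rw [h1, Nat.cast_sub hle]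
  have a1 := Nat.cast_div_le (α := ℝ) (m := N) (n := m)
  have a2 := Nat.cast_div_le (α := ℝ) (m := 2 * N) (n := m)
  have a3 : (N : ℝ) / m ≤ ((N / m : ℕ) : ℝ) + 1 := by
    rw [div_le_iff₀ hm0]
    have := Nat.lt_div_mul_add (a := N) (b := m) hm
    have h4 : N ≤ (N / m + 1) * m := by nlinarith
    exact_mod_cast h4
  have a4 : ((2 * N : ℕ) : ℝ) / m ≤ ((2 * N / m : ℕ) : ℝ) + 1 := by
    rw [div_le_iff₀ hm0]
    have := Nat.lt_div_mul_add (a := 2 * N) (b := m) hm
    have h4 : 2 * N ≤ (2 * N / m + 1) * m := by nlinarith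
    exact_mod_cast h4
  have a5 : ((2 * N : ℕ) : ℝ) / m = (N : ℝ) / m + (N : ℝ) / m := by
    push_cast
    ring
  constructor
  · linarith
  · linarith

theorem cnt_diff (j N : ℕ) : ((cnt (j + 1) (2 * N) : ℕ) : ℝ) - (cnt (j + 1) N : ℝ) =
    ∑ n ∈ Ioc N (2 * N), (tauk (j + 1) n : ℝ) := by
  rw [← sum_tauk (j + 1) (2 * N) (by omega), ← sum_tauk (j + 1) N (by omega)]
  have h : Icc 1 (2 * N) = Icc 1 N ∪ Ioc N (2 * N) := by
    ext x
    rw [mem_union, mem_Icc, mem_Icc, mem_Ioc]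
    omega
  rw [h, sum_union]
  · push_cast
    ring
  · rw [disjoint_left]
    intro x hx hx'
    rw [mem_Icc] at hx
    rw [mem_Ioc] at hx'
    omega

theorem diff_bd (j N : ℕ) (hj : 1 ≤ j) :
    N * ZZ j N - (j + 1) * cnt j N ≤ ((cnt (j + 1) (2 * N) : ℕ) : ℝ) - (cnt (j + 1) N : ℝ) ∧
    ((cnt (j + 1) (2 * N) : ℕ) : ℝ) - (cnt (j + 1) N : ℝ) ≤ N * ZZ j (2 * N) + (j + 1) * cnt j (2 * N) := by
  classical
  rw [cnt_diff]
  have h1 : ∑ n ∈ Ioc N (2 * N), (tauk (j + 1) n : ℝ) = ∑ i : Fin (j + 1), ∑ g ∈ box j (2 * N),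
      (((Ioc N (2 * N)).filter (fun n => ∏ x, g x ∣ n ∧ thr i g ≤ n)).card : ℝ) := by
    have h2 : ∀ n ∈ Ioc N (2 * N), (tauk (j + 1) n : ℝ) = ∑ i : Fin (j + 1), ∑ g ∈ box j (2 * N),
        if ∏ x, g x ∣ n ∧ thr i g ≤ n then (1 : ℝ) else 0 := by
      intro n hn
      rw [mem_Ioc] at hn
      rw [tau_decomp j (2 * N) n (by omega) hn.2]
      push_cast
      apply sum_congr rfl
      intro i _
      rw [card_filter]
      push_cast
      rfl
    rw [sum_congr rfl h2, sum_comm]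
    apply sum_congr rfl
    intro i _
    rw [sum_comm]
    apply sum_congr rfl
    intro g _
    rw [card_filter]
    push_cast
    rfl
  rw [h1]
  constructor
  · have h2 : ∀ i : Fin (j + 1), N * Zi j i N - cnt j N ≤ ∑ g ∈ box j (2 * N),
        (((Ioc N (2 * N)).filter (fun n => ∏ x, g x ∣ n ∧ thr i g ≤ n)).card : ℝ) := by
      intro i
      have h3 : ∑ g ∈ TT j i N, ((N : ℝ) * (1 / ((∏ x, g x : ℕ) : ℝ)) - 1) ≤ ∑ g ∈ box j (2 * N),
        (((Ioc N (2 * N)).filter (fun n => ∏ x, g x ∣ n ∧ thr i g ≤ n)).card : ℝ) := by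
        rw [← box_TT hj i (show N ≤ 2 * N by omega)]
        refine le_trans ?_ (sum_le_sum_of_subset_of_nonneg (filter_subset (fun g => thr i g ≤ N) _)
          (fun _ _ _ => Nat.cast_nonneg _))
        apply sum_le_sum
        intro g hg
        rw [mem_filter] at hg
        have h4 := thr_pos hj i g hg.1
        have h5 := (mult_bd N (∏ x, g x) h4.2).1
        rw [mul_one_div]
        refine h5.trans ?_
        apply Nat.cast_le.2
        apply card_le_card
        intro n hn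
        rw [mem_filter, mem_Ioc] at hn ⊢
        exact ⟨hn.1, hn.2, by omega⟩
      refine le_trans ?_ h3
      rw [sum_sub_distrib, ← mul_sum, sum_const, nsmul_eq_mul, mul_one]
      have h4 : ((TT j i N).card : ℝ) ≤ cnt j N := by exact_mod_cast card_TT hj i
      unfold Zi
      linarith
    have h3 := sum_le_sum (s := (univ : Finset (Fin (j + 1)))) (fun i _ => h2 i)
    rw [sum_sub_distrib, ← mul_sum, sum_const, card_univ, Fintype.card_fin, nsmul_eq_mul] at h3
    push_cast at h3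
    exact h3
  · have h2 : ∀ i : Fin (j + 1), ∑ g ∈ box j (2 * N),
        (((Ioc N (2 * N)).filter (fun n => ∏ x, g x ∣ n ∧ thr i g ≤ n)).card : ℝ) ≤
        N * Zi j i (2 * N) + cnt j (2 * N) := by
      intro i
      have h3 : ∑ g ∈ box j (2 * N),
          (((Ioc N (2 * N)).filter (fun n => ∏ x, g x ∣ n ∧ thr i g ≤ n)).card : ℝ) ≤
          ∑ g ∈ TT j i (2 * N), ((N : ℝ) * (1 / ((∏ x, g x : ℕ) : ℝ)) + 1) := by
        rw [← box_TT hj i (le_refl (2 * N)), sum_filter]
        apply sum_le_sum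
        intro g hg
        have h4 := thr_pos hj i g hg
        split_ifs with h5
        · have h6 := (mult_bd N (∏ x, g x) h4.2).2
          rw [mul_one_div]
          refine le_trans ?_ h6
          apply Nat.cast_le.2
          apply card_le_card
          intro n hn
          rw [mem_filter] at hn ⊢
          exact ⟨hn.1, hn.2.1⟩
        · have : (Ioc N (2 * N)).filter (fun n => ∏ x, g x ∣ n ∧ thr i g ≤ n) = ∅ := by
            rw [filter_eq_empty_iff]
            intro n hn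
            rw [mem_Ioc] at hn
            omega
          rw [this, card_empty, Nat.cast_zero]
      refine h3.trans ?_
      rw [sum_add_distrib, ← mul_sum, sum_const, nsmul_eq_mul, mul_one]
      have h4 : ((TT j i (2 * N)).card : ℝ) ≤ cnt j (2 * N) := by exact_mod_cast card_TT hj i
      unfold Zi
      linarith
    have h3 := sum_le_sum (s := (univ : Finset (Fin (j + 1)))) (fun i _ => h2 i)
    rw [sum_add_distrib, ← mul_sum, sum_const, card_univ, Fintype.card_fin, nsmul_eq_mul] at h3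
    push_cast at h3
    exact h3

/-- the asymptotic formula -/
theorem ZZ_asym (r : ℕ) : ∃ C : ℝ, 0 ≤ C ∧ ∀ n : ℕ, 1 ≤ n →
    |ZZ (r + 1) n - Real.log n ^ (r + 1) / (r + 1).factorial| ≤ C * (1 + Real.log n) ^ r := by
  obtain ⟨C, hC, H⟩ := cnt_asym (r + 1)
  obtain ⟨C', hC', H'⟩ := cnt_le r
  have hf1 : (1 : ℝ) ≤ ((r + 1).factorial : ℝ) := by exact_mod_cast Nat.factorial_pos (r + 1)
  have hf0 : (0 : ℝ) < ((r + 1).factorial : ℝ) := by linarith
  -- the differences
  obtain ⟨C1, hC1d⟩ : ∃ C1 : ℝ, C1 = 2 * (r + 1) + C * 2 * 2 ^ r + C + (r + 2) * C' * 2 * 2 ^ r := ⟨_, rfl⟩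
  have hC1 : 0 ≤ C1 := by rw [hC1d]; positivity
  have key : ∀ N : ℕ, 1 ≤ N → ZZ (r + 1) N ≤ Real.log N ^ (r + 1) / (r + 1).factorial + C1 * (1 + Real.log N) ^ r ∧
      Real.log N ^ (r + 1) / (r + 1).factorial - C1 * (1 + Real.log N) ^ r ≤ ZZ (r + 1) (2 * N) := by
    intro N hN
    have hN0 : (0 : ℝ) < N := by exact_mod_cast hN
    obtain ⟨L, hL⟩ : ∃ L, L = Real.log N := ⟨_, rfl⟩
    obtain ⟨M, hM⟩ : ∃ M, M = Real.log ((2 * N : ℕ) : ℝ) := ⟨_, rfl⟩
    have hL0 : 0 ≤ L := by rw [hL]; exact Real.log_natCast_nonneg N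
    have hML : M = Real.log 2 + L := by
      rw [hM, hL]
      push_cast
      rw [Real.log_mul (by norm_num) hN0.ne']
    have hlog2 : Real.log 2 < 1 := by
      have := Real.log_two_lt_d9
      linarith
    have hlog2p : 0 < Real.log 2 := Real.log_pos (by norm_num)
    have hM0 : 0 ≤ M := by linarith
    obtain ⟨b1, b2⟩ := diff_bd (r + 1) N (by omega)
    have h1 := abs_le.1 (H N hN)
    have h2 := abs_le.1 (H (2 * N) (by omega))
    have h3 := H' N
    have h4 := H' (2 * N)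
    rw [← hL] at h1 h3 ⊢
    rw [← hM] at h2 h4
    rw [er.eq_2] at h1 h2
    have hLp : 0 ≤ (1 + L) ^ r := by positivity
    have h1M : (1 + M) ^ r ≤ 2 ^ r * (1 + L) ^ r := by
      rw [← mul_pow]
      exact pow_le_pow_left₀ (by linarith) (by linarith) r
    -- the powers of the logarithms
    have h5 : M ^ (r + 1) - L ^ (r + 1) ≤ (r + 1) * (1 + L) ^ r := by
      have h6 := (pow_sub_le hL0 (show L ≤ M by linarith) r).2
      have h7 : (M - L) * M ^ r ≤ 1 * (1 + L) ^ r :=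
        mul_le_mul (by linarith) (pow_le_pow_left₀ hM0 (by linarith) r) (by positivity) (by norm_num)
      rw [one_mul] at h7
      exact h6.trans (mul_le_mul_of_nonneg_left h7 (by positivity))
    have h5' : 0 ≤ M ^ (r + 1) - L ^ (r + 1) := by
      have := pow_le_pow_left₀ hL0 (show L ≤ M by linarith) (r + 1)
      linarith
    obtain ⟨D, hD⟩ : ∃ D : ℝ, D = M ^ (r + 1) / (r + 1).factorial - L ^ (r + 1) / (r + 1).factorial := ⟨_, rfl⟩
    have hD1 : 0 ≤ D ∧ D ≤ (r + 1) * (1 + L) ^ r := by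
      rw [hD, ← sub_div]
      exact ⟨div_nonneg h5' hf0.le, (div_le_self h5' hf1).trans h5⟩
    have e1 : ((2 * N : ℕ) : ℝ) * M ^ (r + 1) / (r + 1).factorial - N * L ^ (r + 1) / (r + 1).factorial =
        N * (L ^ (r + 1) / (r + 1).factorial) + 2 * N * D := by
      rw [hD]
      push_cast
      ring
    have g1 : 2 * N * D ≤ N * (2 * (r + 1) * (1 + L) ^ r) := by
      calc 2 * N * D ≤ 2 * N * ((r + 1) * (1 + L) ^ r) := mul_le_mul_of_nonneg_left hD1.2 (by positivity)
        _ = _ := by ring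
    have g1' : 0 ≤ 2 * N * D := mul_nonneg (by positivity) hD1.1
    have g2 : C * ((2 * N : ℕ) : ℝ) * (1 + M) ^ r ≤ N * (C * 2 * 2 ^ r * (1 + L) ^ r) := by
      push_cast
      calc C * (2 * N) * (1 + M) ^ r ≤ C * (2 * N) * (2 ^ r * (1 + L) ^ r) :=
            mul_le_mul_of_nonneg_left h1M (by positivity)
        _ = _ := by ring
    have g3 : ((r : ℝ) + 2) * cnt (r + 1) (2 * N) ≤ N * ((r + 2) * C' * 2 * 2 ^ r * (1 + L) ^ r) := by
      push_cast at h4
      calc ((r : ℝ) + 2) * cnt (r + 1) (2 * N) ≤ (r + 2) * (C' * (2 * N) * (1 + M) ^ r) :=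
            mul_le_mul_of_nonneg_left h4 (by positivity)
        _ ≤ (r + 2) * (C' * (2 * N) * (2 ^ r * (1 + L) ^ r)) := by
            apply mul_le_mul_of_nonneg_left _ (by positivity)
            exact mul_le_mul_of_nonneg_left h1M (by positivity)
        _ = _ := by ring
    have g4 : ((r : ℝ) + 2) * cnt (r + 1) N ≤ N * ((r + 2) * C' * 2 * 2 ^ r * (1 + L) ^ r) := by
      calc ((r : ℝ) + 2) * cnt (r + 1) N ≤ (r + 2) * (C' * N * (1 + L) ^ r) :=
            mul_le_mul_of_nonneg_left h3 (by positivity)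
        _ = N * ((r + 2) * C' * 1 * (1 + L) ^ r) := by ring
        _ ≤ _ := by
            apply mul_le_mul_of_nonneg_left _ hN0.le
            apply mul_le_mul_of_nonneg_right _ hLp
            rw [mul_assoc ((((r : ℝ) + 2)) * C')]
            apply mul_le_mul_of_nonneg_left _ (by positivity)
            have : (1 : ℝ) ≤ 2 ^ r := one_le_pow₀ (by norm_num)
            linarith
    have g5 : C * N * (1 + L) ^ r = N * (C * (1 + L) ^ r) := by ring
    push_cast at b1 b2
    have e2 : N * (C1 * (1 + L) ^ r) = N * (2 * (r + 1) * (1 + L) ^ r) + N * (C * 2 * 2 ^ r * (1 + L) ^ r) +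
        N * (C * (1 + L) ^ r) + N * ((r + 2) * C' * 2 * 2 ^ r * (1 + L) ^ r) := by
      rw [hC1d]
      ring
    have c1 : (r : ℝ) + 1 + 1 = r + 2 := by ring
    rw [c1] at b1 b2
    constructor
    · have h8 : N * ZZ (r + 1) N ≤ N * (L ^ (r + 1) / (r + 1).factorial + C1 * (1 + L) ^ r) := by
        rw [mul_add, e2]
        linarith [h1.1, h2.2]
      exact le_of_mul_le_mul_left h8 hN0
    · have g6 : 0 ≤ N * (2 * ((r : ℝ) + 1) * (1 + L) ^ r) := by positivity
      have h8 : N * (L ^ (r + 1) / (r + 1).factorial - C1 * (1 + L) ^ r) ≤ N * ZZ (r + 1) (2 * N) := by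
        rw [mul_sub, e2]
        linarith [h1.2, h2.1]
      exact le_of_mul_le_mul_left h8 hN0
  refine ⟨C1 + 2 * (r + 1), by positivity, fun n hn => ?_⟩
  have hn0 : (0 : ℝ) < n := by exact_mod_cast hn
  obtain ⟨L, hL⟩ : ∃ L, L = Real.log n := ⟨_, rfl⟩
  have hL0 : 0 ≤ L := by rw [hL]; exact Real.log_natCast_nonneg n
  have hLp : 0 ≤ (1 + L) ^ r := by positivity
  have hr0 : (0 : ℝ) ≤ 2 * (r + 1) * (1 + L) ^ r := by positivity
  rw [← hL, abs_le]
  constructor
  · rcases Nat.lt_or_ge n 2 with h2 | h2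
    · have : n = 1 := by omega
      subst this
      have hL1 : L = 0 := by rw [hL]; simp
      rw [hL1]
      have h3 : 0 ≤ ZZ (r + 1) 1 := sum_nonneg fun i _ => Zi_nn i 1
      rw [zero_pow (Nat.succ_ne_zero r), zero_div]
      have : 0 ≤ (C1 + 2 * (r + 1)) * (1 + (0 : ℝ)) ^ r := by positivity
      linarith
    · obtain ⟨N, hN⟩ : ∃ N, N = n / 2 := ⟨_, rfl⟩
      have hN1 : 1 ≤ N := by omega
      have hN0 : (0 : ℝ) < N := by exact_mod_cast hN1
      have h3 := (key N hN1).2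
      have h4 := ZZ_mono (j := r + 1) (by omega) (show 2 * N ≤ n by omega)
      obtain ⟨M, hM⟩ : ∃ M, M = Real.log N := ⟨_, rfl⟩
      rw [← hM] at h3
      have hM0 : 0 ≤ M := by rw [hM]; exact Real.log_natCast_nonneg N
      have hML : M ≤ L := by
        rw [hM, hL]
        exact Real.log_le_log hN0 (by exact_mod_cast (by omega : N ≤ n))
      have hLM : L - M ≤ 2 := by
        rw [hM, hL, ← Real.log_div hn0.ne' hN0.ne']
        have h5 : (n : ℝ) / N ≤ 3 := by
          rw [div_le_iff₀ hN0]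
          exact_mod_cast (by omega : n ≤ 3 * N)
        have h6 : Real.log ((n : ℝ) / N) ≤ n / N - 1 := Real.log_le_sub_one_of_pos (by positivity)
        linarith
      have h5 := (pow_sub_le hM0 hML r).2
      have h6 : (L - M) * L ^ r ≤ 2 * (1 + L) ^ r :=
        mul_le_mul hLM (pow_le_pow_left₀ hL0 (by linarith) r) (by positivity) (by norm_num)
      have h7 : L ^ (r + 1) - M ^ (r + 1) ≤ 2 * (r + 1) * (1 + L) ^ r := by
        refine h5.trans ?_
        calc ((r : ℝ) + 1) * ((L - M) * L ^ r) ≤ (r + 1) * (2 * (1 + L) ^ r) :=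
              mul_le_mul_of_nonneg_left h6 (by positivity)
          _ = _ := by ring
      have h7' : 0 ≤ L ^ (r + 1) - M ^ (r + 1) := by
        have := pow_le_pow_left₀ hM0 hML (r + 1)
        linarith
      have h8 : L ^ (r + 1) / (r + 1).factorial - M ^ (r + 1) / (r + 1).factorial ≤ 2 * (r + 1) * (1 + L) ^ r := by
        rw [← sub_div]
        exact (div_le_self h7' hf1).trans h7
      have h9 : C1 * (1 + M) ^ r ≤ C1 * (1 + L) ^ r :=
        mul_le_mul_of_nonneg_left (pow_le_pow_left₀ (by linarith) (by linarith) r) hC1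
      have e : (C1 + 2 * (r + 1)) * (1 + L) ^ r = C1 * (1 + L) ^ r + 2 * (r + 1) * (1 + L) ^ r := by ring
      rw [e]
      linarith
  · have h3 := (key n hn).1
    rw [← hL] at h3
    have e : (C1 + 2 * (r + 1)) * (1 + L) ^ r = C1 * (1 + L) ^ r + 2 * (r + 1) * (1 + L) ^ r := by ring
    rw [e]
    linarith

end Pool.Agent.Q148.TD
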