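import Pool.Agent.Q148.TD.Zn

/-! Multiplicative weights. -/

set_option autoImplicit false

namespace Pool.Agent.Q148.TD

open Finset

/-- the tuples `g` with bounded threshold of `c g` and `p ∣ ∏ g` for all `p ∈ P` -/
def BB {j : ℕ} (i : Fin (j + 1)) (c : Fin j → ℕ) (P : Finset ℕ) (n : ℕ) : Finset (Fin j → ℕ) :=
  (box j n).filter (fun g => thr i (fun x => c x * g x) ≤ n ∧ ∀ p ∈ P, p ∣ ∏ x, g x)

/-- `p` on the places of `S`, one elsewhere -/
def pS {j : ℕ} (p : ℕ) (S : Finset (Fin j)) (x : Fin j) : ℕ := if x ∈ S then p else 1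

theorem thr_mono {j : ℕ} (i : Fin (j + 1)) (g g' : Fin j → ℕ) (h : ∀ x, g x ≤ g' x) : thr i g ≤ thr i g' := by
  unfold thr
  apply Nat.mul_le_mul (prod_le_prod' fun x _ => h x)
  apply Finset.sup_mono_fun
  intro x _
  have := h x
  omega

theorem mem_BB {j : ℕ} (hj : 1 ≤ j) (i : Fin (j + 1)) (c : Fin j → ℕ) (hc : ∀ x, 1 ≤ c x) (P : Finset ℕ) (n : ℕ)
    (g : Fin j → ℕ) : g ∈ BB i c P n ↔ (∀ x, 1 ≤ g x) ∧ thr i (fun x => c x * g x) ≤ n ∧ ∀ p ∈ P, p ∣ ∏ x, g x := by
  unfold BB
  rw [mem_filter, mem_box]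
  constructor
  · rintro ⟨h1, h2, h3⟩
    exact ⟨fun x => (h1 x).1, h2, h3⟩
  · rintro ⟨h1, h2, h3⟩
    refine ⟨fun x => ⟨h1 x, ?_⟩, h2, h3⟩
    have h4 : thr i g ≤ n := (thr_mono i _ _ fun x => Nat.le_mul_of_pos_left _ (hc x)).trans h2
    have h5 := (mem_TT hj i g).2 ⟨h1, h4⟩
    unfold TT at h5
    rw [mem_filter, mem_box] at h5
    exact (h5.1 x).2

/-- the sum over these tuples -/
noncomputable def Zp {j : ℕ} (i : Fin (j + 1)) (P : Finset ℕ) (c : Fin j → ℕ) (n : ℕ) : ℝ :=
  ∑ g ∈ BB i c P n, 1 / ((∏ x, g x : ℕ) : ℝ)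

theorem thr_pS {j : ℕ} (i : Fin (j + 1)) (p : ℕ) (hp : 1 ≤ p) (S : Finset (Fin j)) (g : Fin j → ℕ) :
    thr i (fun x => pS p S x * g x) ≤ p ^ (j + 1) * thr i g := by
  unfold thr
  have h1 : ∏ x, pS p S x * g x ≤ p ^ j * ∏ x, g x := by
    rw [prod_mul_distrib]
    apply Nat.mul_le_mul_right
    calc ∏ x, pS p S x ≤ ∏ _x : Fin j, p := by
          apply prod_le_prod'
          intro x _
          unfold pS
          split_ifs <;> omega
      _ = p ^ j := by rw [prod_const, card_univ, Fintype.card_fin]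
  have h2 : (univ.sup fun x => pS p S x * g x + eps i x) ≤ p * (univ.sup fun x => g x + eps i x) := by
    apply Finset.sup_le
    intro x _
    have h3 := Finset.le_sup (f := fun x => g x + eps i x) (mem_univ x)
    have h4 : pS p S x ≤ p := by
      unfold pS
      split_ifs <;> omega
    calc pS p S x * g x + eps i x ≤ p * g x + p * eps i x :=
          Nat.add_le_add (Nat.mul_le_mul_right _ h4) (Nat.le_mul_of_pos_left _ hp)
      _ = p * (g x + eps i x) := by ring
      _ ≤ _ := Nat.mul_le_mul_left p h3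
  calc (∏ x, pS p S x * g x) * (univ.sup fun x => pS p S x * g x + eps i x) ≤
      (p ^ j * ∏ x, g x) * (p * (univ.sup fun x => g x + eps i x)) := Nat.mul_le_mul h1 h2
    _ = _ := by ring

theorem prod_pS {j : ℕ} (p : ℕ) (S : Finset (Fin j)) : ∏ x, pS p S x = p ^ S.card := by
  unfold pS
  rw [prod_ite_mem, univ_inter, prod_const]

/-- the substitution `g = p_S g'` -/
theorem subst_sum {j : ℕ} (hj : 1 ≤ j) (i : Fin (j + 1)) (c : Fin j → ℕ) (hc : ∀ x, 1 ≤ c x) (P : Finset ℕ) (n p : ℕ)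
    (hP : ∀ q ∈ P, q.Prime) (hp : p.Prime) (hpP : p ∉ P) (S : Finset (Fin j)) :
    ∑ g ∈ (BB i c P n).filter (fun g => ∀ x ∈ S, p ∣ g x), 1 / ((∏ x, g x : ℕ) : ℝ) =
      (1 / (p : ℝ)) ^ S.card * Zp i P (fun x => c x * pS p S x) n := by
  have hp0 : 0 < p := hp.pos
  have hpS1 : ∀ x, 1 ≤ pS p S x := by
    intro x
    unfold pS
    split_ifs <;> omega
  have hc' : ∀ x, 1 ≤ c x * pS p S x := fun x => Nat.mul_pos (hc x) (hpS1 x)
  have hcop : ∀ q ∈ P, ∀ g : Fin j → ℕ, (q ∣ ∏ x, (pS p S x * g x) ↔ q ∣ ∏ x, g x) := by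
    intro q hq g
    rw [prod_mul_distrib, prod_pS]
    have h1 : q.Coprime (p ^ S.card) := by
      apply Nat.Coprime.pow_right
      apply (Nat.coprime_primes (hP q hq) hp).2
      rintro rfl
      exact hpP hq
    exact h1.dvd_mul_left
  unfold Zp
  rw [mul_sum]
  refine sum_bij' (fun g _ => fun x => g x / pS p S x) (fun g _ => fun x => pS p S x * g x) ?_ ?_ ?_ ?_ ?_
  · intro g hg
    rw [mem_filter, mem_BB hj i c hc] at hg
    obtain ⟨⟨h1, h2, h3⟩, h4⟩ := hg
    have hdvd : ∀ x, pS p S x ∣ g x := by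
      intro x
      unfold pS
      split_ifs with h
      · exact h4 x h
      · exact one_dvd _
    have hback : ∀ x, pS p S x * (g x / pS p S x) = g x := fun x => Nat.mul_div_cancel' (hdvd x)
    rw [mem_BB hj i _ hc']
    refine ⟨fun x => Nat.div_pos (Nat.le_of_dvd (h1 x) (hdvd x)) (hpS1 x), ?_, ?_⟩
    · have : (fun x => c x * pS p S x * (g x / pS p S x)) = fun x => c x * g x := by
        funext x
        rw [mul_assoc, hback]
      rw [this]
      exact h2
    · intro q hq
      rw [← hcop q hq]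
      have : ∏ x, (pS p S x * (g x / pS p S x)) = ∏ x, g x := prod_congr rfl fun x _ => hback x
      rw [this]
      exact h3 q hq
  · intro g hg
    rw [mem_BB hj i _ hc'] at hg
    obtain ⟨h1, h2, h3⟩ := hg
    rw [mem_filter, mem_BB hj i c hc]
    refine ⟨⟨fun x => Nat.mul_pos (hpS1 x) (h1 x), ?_, ?_⟩, ?_⟩
    · have : (fun x => c x * (pS p S x * g x)) = fun x => c x * pS p S x * g x := by
        funext x
        rw [mul_assoc]
      rw [this]
      exact h2
    · intro q hq
      rw [hcop q hq]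
      exact h3 q hq
    · intro x hx
      have : pS p S x = p := by
        unfold pS
        rw [if_pos hx]
      simp only [this]
      exact dvd_mul_right _ _
  · intro g hg
    rw [mem_filter] at hg
    funext x
    apply Nat.mul_div_cancel'
    unfold pS
    split_ifs with h
    · exact hg.2 x h
    · exact one_dvd _
  · intro g _
    funext x
    exact Nat.mul_div_cancel_left _ (hpS1 x)
  · intro g hg
    rw [mem_filter] at hg
    have hdvd : ∀ x, pS p S x ∣ g x := by
      intro x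
      unfold pS
      split_ifs with h
      · exact hg.2 x h
      · exact one_dvd _
    have h1 : ∏ x, g x = p ^ S.card * ∏ x, (g x / pS p S x) := by
      rw [← prod_pS, ← prod_mul_distrib]
      exact prod_congr rfl fun x _ => (Nat.mul_div_cancel' (hdvd x)).symm
    rw [h1]
    push_cast
    rw [one_div_pow, one_div_mul_one_div]

/-- the densities -/
noncomputable def rho (j p : ℕ) : ℝ := 1 - (1 - 1 / (p : ℝ)) ^ j
noncomputable def bb (j p : ℕ) : ℝ := (1 + 1 / (p : ℝ)) ^ j - 1

theorem one_add_pow_sum (j : ℕ) (t : ℝ) : (1 + t) ^ j = ∑ S : Finset (Fin j), t ^ S.card := by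
  have h := Finset.prod_one_add (f := fun _ : Fin j => t) (s := univ)
  rw [prod_const, card_univ, Fintype.card_fin, powerset_univ] at h
  rw [h]
  apply sum_congr rfl
  intro S _
  rw [prod_const]

theorem rho_sum (j p : ℕ) : rho j p = ∑ S ∈ (univ : Finset (Finset (Fin j))).erase ∅, -(-(1 / (p : ℝ))) ^ S.card := by
  have h1 := one_add_pow_sum j (-(1 / (p : ℝ)))
  rw [← add_sum_erase _ _ (mem_univ (∅ : Finset (Fin j)))] at h1
  rw [card_empty, pow_zero] at h1
  unfold rho
  rw [sum_neg_distrib, sub_eq_add_neg (1 : ℝ) (1 / p), h1]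
  ring

theorem bb_sum (j p : ℕ) : bb j p = ∑ S ∈ (univ : Finset (Finset (Fin j))).erase ∅, (1 / (p : ℝ)) ^ S.card := by
  have h1 := one_add_pow_sum j (1 / (p : ℝ))
  rw [← add_sum_erase _ _ (mem_univ (∅ : Finset (Fin j)))] at h1
  rw [card_empty, pow_zero] at h1
  unfold bb
  rw [h1]
  ring

open Classical in
/-- inclusion and exclusion -/
theorem Zp_insert {j : ℕ} (hj : 1 ≤ j) (i : Fin (j + 1)) (c : Fin j → ℕ) (hc : ∀ x, 1 ≤ c x) (P : Finset ℕ) (n p : ℕ)
    (hP : ∀ q ∈ P, q.Prime) (hp : p.Prime) (hpP : p ∉ P) :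
    Zp i (insert p P) c n = ∑ S ∈ (univ : Finset (Finset (Fin j))).erase ∅,
      -(-(1 / (p : ℝ))) ^ S.card * Zp i P (fun x => c x * pS p S x) n := by
  have h1 : Zp i (insert p P) c n = ∑ g ∈ BB i c P n, (if p ∣ ∏ x, g x then 1 else 0) * (1 / ((∏ x, g x : ℕ) : ℝ)) := by
    unfold Zp
    have h2 : BB i c (insert p P) n = (BB i c P n).filter (fun g => p ∣ ∏ x, g x) := by
      ext g
      rw [mem_filter, mem_BB hj i c hc, mem_BB hj i c hc, forall_mem_insert]
      tauto
    rw [h2, sum_filter]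
    apply sum_congr rfl
    intro g _
    split_ifs
    · rw [one_mul]
    · rw [zero_mul]
  have h2 : ∀ g : Fin j → ℕ, (if p ∣ ∏ x, g x then (1 : ℝ) else 0) =
      ∑ S ∈ (univ : Finset (Finset (Fin j))).erase ∅, -(-1) ^ S.card * (if ∀ x ∈ S, p ∣ g x then 1 else 0) := by
    intro g
    have h3 := Finset.prod_one_add (f := fun x : Fin j => -(if p ∣ g x then (1 : ℝ) else 0)) (s := univ)
    rw [powerset_univ, ← add_sum_erase _ _ (mem_univ (∅ : Finset (Fin j))), prod_empty] at h3
    have h4 : ∏ x : Fin j, (1 + -(if p ∣ g x then (1 : ℝ) else 0)) = 1 - (if p ∣ ∏ x, g x then (1 : ℝ) else 0) := by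
      by_cases h : p ∣ ∏ x, g x
      · obtain ⟨x, _, hx⟩ := (hp.prime.dvd_finsetProd_iff _).1 h
        rw [if_pos h, sub_self]
        apply prod_eq_zero (mem_univ x)
        rw [if_pos hx]
        norm_num
      · rw [if_neg h, sub_zero]
        apply prod_eq_one
        intro x _
        rw [if_neg]
        · norm_num
        · intro hx
          exact h (hx.trans (dvd_prod_of_mem g (mem_univ x)))
    rw [h4] at h3
    have h5 : ∀ S ∈ (univ : Finset (Finset (Fin j))).erase ∅,
        -(-1 : ℝ) ^ S.card * (if ∀ x ∈ S, p ∣ g x then 1 else 0) = -∏ x ∈ S, -(if p ∣ g x then (1 : ℝ) else 0) := by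
      intro S _
      have h6 : ∏ x ∈ S, -(if p ∣ g x then (1 : ℝ) else 0) = (-1) ^ S.card * ∏ x ∈ S, (if p ∣ g x then (1 : ℝ) else 0) := by
        rw [← prod_const, ← prod_mul_distrib]
        apply prod_congr rfl
        intro x _
        ring
      rw [h6]
      by_cases h : ∀ x ∈ S, p ∣ g x
      · rw [if_pos h, prod_congr rfl (fun x hx => if_pos (h x hx)), prod_const_one]
        ring
      · rw [if_neg h]
        push Not at h
        obtain ⟨x, hx, hxp⟩ := h
        rw [prod_eq_zero hx (if_neg hxp)]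
        ring
    rw [sum_congr rfl h5, sum_neg_distrib]
    linarith
  rw [h1]
  have h3 : ∀ g ∈ BB i c P n, (if p ∣ ∏ x, g x then 1 else 0) * (1 / ((∏ x, g x : ℕ) : ℝ)) =
      ∑ S ∈ (univ : Finset (Finset (Fin j))).erase ∅,
        -(-1) ^ S.card * (if ∀ x ∈ S, p ∣ g x then 1 / ((∏ x, g x : ℕ) : ℝ) else 0) := by
    intro g _
    rw [h2 g, sum_mul]
    apply sum_congr rfl
    intro S _
    split_ifs <;> ring
  rw [sum_congr rfl h3, sum_comm]
  apply sum_congr rfl
  intro S _
  rw [← mul_sum, ← sum_filter, subst_sum hj i c hc P n p hP hp hpP S]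
  have : (-(1 / (p : ℝ))) ^ S.card = (-1) ^ S.card * (1 / (p : ℝ)) ^ S.card := by
    rw [← mul_pow]
    ring
  rw [this]
  ring

/-- the weights of the primes of `P` -/
theorem Zp_bd {j : ℕ} (hj : 1 ≤ j) (i : Fin (j + 1)) (n : ℕ) (P : Finset ℕ) (hP : ∀ q ∈ P, q.Prime) :
    ∀ (c : Fin j → ℕ) (K : ℕ), (∀ x, 1 ≤ c x) → 1 ≤ K →
    (∀ g : Fin j → ℕ, thr i (fun x => c x * g x) ≤ K * thr i g) →
    |Zp i P c n - (∏ p ∈ P, rho j p) * Zi j i n| ≤
      (∏ p ∈ P, bb j p) * (Zi j i n - Zi j i (n / (K * ∏ p ∈ P, p ^ (j + 1)))) := by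
  classical
  induction P using Finset.induction_on with
  | empty =>
    intro c K hc hK1 hK
    rw [prod_empty, prod_empty, prod_empty, one_mul, one_mul, mul_one]
    have h1 : Zp i ∅ c n ≤ Zi j i n := by
      apply sum_le_sum_of_subset_of_nonneg _ (fun _ _ _ => by positivity)
      intro g hg
      rw [mem_BB hj i c hc] at hg
      rw [mem_TT hj]
      exact ⟨hg.1, (thr_mono i _ _ fun x => Nat.le_mul_of_pos_left _ (hc x)).trans hg.2.1⟩
    have h2 : Zi j i (n / K) ≤ Zp i ∅ c n := by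
      apply sum_le_sum_of_subset_of_nonneg _ (fun _ _ _ => by positivity)
      intro g hg
      rw [mem_TT hj] at hg
      rw [mem_BB hj i c hc]
      refine ⟨hg.1, (hK g).trans ((Nat.mul_le_mul_left K hg.2).trans (Nat.mul_div_le n K)), ?_⟩
      simp
    rw [abs_le]
    constructor
    · linarith
    · have h3 := Zi_mono hj i (Nat.div_le_self n K)
      linarith
  | insert p P hpP ih =>
    intro c K hc hK1 hK
    have hp := hP p (mem_insert_self _ _)
    have hP' : ∀ q ∈ P, q.Prime := fun q hq => hP q (mem_insert_of_mem hq)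
    have hp0 : (0 : ℝ) < p := by exact_mod_cast hp.pos
    rw [Zp_insert hj i c hc P n p hP' hp hpP, prod_insert hpP, prod_insert hpP, prod_insert hpP]
    have h1 : ∑ S ∈ (univ : Finset (Finset (Fin j))).erase ∅,
        -(-(1 / (p : ℝ))) ^ S.card * Zp i P (fun x => c x * pS p S x) n -
        rho j p * (∏ p ∈ P, rho j p) * Zi j i n = ∑ S ∈ (univ : Finset (Finset (Fin j))).erase ∅,
        -(-(1 / (p : ℝ))) ^ S.card * (Zp i P (fun x => c x * pS p S x) n - (∏ p ∈ P, rho j p) * Zi j i n) := by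
      rw [rho_sum, mul_assoc, sum_mul, ← sum_sub_distrib]
      apply sum_congr rfl
      intro S _
      ring
    rw [h1]
    refine (abs_sum_le_sum_abs _ _).trans ?_
    have h2 : ∀ S ∈ (univ : Finset (Finset (Fin j))).erase ∅,
        |-(-(1 / (p : ℝ))) ^ S.card * (Zp i P (fun x => c x * pS p S x) n - (∏ p ∈ P, rho j p) * Zi j i n)| ≤
        (1 / (p : ℝ)) ^ S.card * ((∏ p ∈ P, bb j p) *
          (Zi j i n - Zi j i (n / (K * (p ^ (j + 1) * ∏ p ∈ P, p ^ (j + 1)))))) := by
      intro S _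
      rw [abs_mul, abs_neg, abs_pow, abs_neg, abs_of_nonneg (by positivity : 0 ≤ 1 / (p : ℝ))]
      apply mul_le_mul_of_nonneg_left _ (by positivity)
      have h3 := ih hP' (fun x => c x * pS p S x) (K * p ^ (j + 1)) (by
        intro x
        apply Nat.mul_pos (hc x)
        unfold pS
        have := hp.pos
        split_ifs <;> omega) (Nat.mul_pos hK1 (by have := hp.pos; positivity)) (by
        intro g
        have h4 := hK (fun x => pS p S x * g x)
        have h5 := thr_pS i p hp.one_le S g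
        have h6 : (fun x => c x * pS p S x * g x) = fun x => c x * (pS p S x * g x) := by
          funext x
          ring
        rw [h6, mul_assoc]
        exact h4.trans (Nat.mul_le_mul_left K h5))
      rw [← mul_assoc K]
      exact h3
    refine (sum_le_sum h2).trans (le_of_eq ?_)
    rw [← sum_mul, ← bb_sum]
    ring

end Pool.Agent.Q148.TD
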